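import Pool.Agent.ZCS.Defs

/-!
Module LadC: two positive block sequences against one block sequence, for every total width (Sparre Andersen).

PAPER PROOF. This is the width version of ZHW/Ladder (`gx_sum` there; same proof, the number of steps replaced by the total
width of the blocks; copy that file). In words: `gw c k 0` is the mass of the lists `l` of blocks `(i, δ)` of total width `k`
(`(i, δ)` has width `i + 1`) all of whose nonempty prefixes have positive sum of the `δ`. Map `(l, l')` to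
`l.reverse` with all `δ` negated, followed by `l'`: the total width is `k + (r - k) = r`, the mass is the same (`hsym`), and the
partial sums have their unique strict minimum at the junction (before it: `S - S_last(l) ...`), so the map is injective on the
union over `k ≤ r`; the mass of all lists of blocks of total width `r` is `u r` (`hu0`, `hu`, first block).
Functional version (as in Ladder): `N r z` = mass of the sequences of total width `r` from `z` which stay `>= 0` (steps subtracted),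
`V r w` = mass of the positive sequences from `0` to `w` of total width `r` (`V 0 w = [w = 0]`, last block), `R r z = ∑' u > z, V r u`,
`R 0 z = [z < 0]`, `R (r+1) z = R (r+1) 0` for `z < 0`, `R (r + 1) z = ∑ i ≤ r, ∑' δ, c i δ * R (r - i) (z - δ)` for `z >= 0`,
`T r z = [0 <= z] N r z + ∑ k ≤ r, R k z * N (r - k) 0` satisfies `T r z = u r` (strong induction on `r`; for `z < 0`: `T r z = T r 0`),
`gw c r x <= N r x` for `x >= 0` (symmetry), `gw c r 0 = R r 0` for `r ≥ 1` (reversal; or `gw c r 0 = ∑' w, V r w`).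
-/

namespace Pool.Agent.ZCS

open Finset
open scoped ENNReal NNReal

/-- mass of the block sequences of total width `r` from `z` which stay nonnegative (steps subtracted) -/
private noncomputable def LadC_N (c : ℕ → ℤ → ℝ≥0∞) : ℕ → ℤ → ℝ≥0∞
  | 0, _ => 1
  | r + 1, z => ∑ i : Fin (r + 1), ∑' δ : ℤ,
      c i δ * (if 0 ≤ z - δ then LadC_N c (r - i) (z - δ) else 0)
termination_by r => r
decreasing_by omega

private theorem LadC_N_zero (c : ℕ → ℤ → ℝ≥0∞) (z : ℤ) : LadC_N c 0 z = 1 := by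
  rw [LadC_N]

private theorem LadC_N_succ (c : ℕ → ℤ → ℝ≥0∞) (r : ℕ) (z : ℤ) : LadC_N c (r + 1) z =
    ∑ i ∈ range (r + 1), ∑' δ : ℤ, c i δ * (if 0 ≤ z - δ then LadC_N c (r - i) (z - δ) else 0) := by
  rw [LadC_N, Finset.sum_range (fun i => ∑' δ : ℤ,
    c i δ * (if 0 ≤ z - δ then LadC_N c (r - i) (z - δ) else 0))]

/-- mass of the positive block sequences of total width `r` from `0` to `w` -/
private noncomputable def LadC_V (c : ℕ → ℤ → ℝ≥0∞) : ℕ → ℤ → ℝ≥0∞
  | 0, w => if w = 0 then 1 else 0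
  | r + 1, w => if 0 < w then ∑ i : Fin (r + 1), ∑' u : ℤ, c i (w - u) * LadC_V c (r - i) u else 0
termination_by r => r
decreasing_by omega

private theorem LadC_V_zero (c : ℕ → ℤ → ℝ≥0∞) (w : ℤ) : LadC_V c 0 w = if w = 0 then 1 else 0 := by
  rw [LadC_V]

private theorem LadC_V_succ (c : ℕ → ℤ → ℝ≥0∞) (r : ℕ) (w : ℤ) : LadC_V c (r + 1) w =
    if 0 < w then ∑ i ∈ range (r + 1), ∑' u : ℤ, c i (w - u) * LadC_V c (r - i) u else 0 := by
  rw [LadC_V, Finset.sum_range (fun i => ∑' u : ℤ, c i (w - u) * LadC_V c (r - i) u)]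

private theorem LadC_V_nonpos (c : ℕ → ℤ → ℝ≥0∞) (r : ℕ) {w : ℤ} (hw : ¬ 0 < w) :
    LadC_V c (r + 1) w = 0 := by
  rw [LadC_V_succ, if_neg hw]

private noncomputable def LadC_R (c : ℕ → ℤ → ℝ≥0∞) (k : ℕ) (z : ℤ) : ℝ≥0∞ :=
  ∑' u : ℤ, if z < u then LadC_V c k u else 0

private theorem LadC_R_zero (c : ℕ → ℤ → ℝ≥0∞) (z : ℤ) :
    LadC_R c 0 z = if z < 0 then 1 else 0 := by
  unfold LadC_R
  rw [tsum_eq_single (0 : ℤ)]
  · simp [LadC_V_zero]
  · intro u hu
    simp [LadC_V_zero, hu]

private theorem LadC_R_neg (c : ℕ → ℤ → ℝ≥0∞) (k : ℕ) {z : ℤ} (hz : z < 0) :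
    LadC_R c (k + 1) z = LadC_R c (k + 1) 0 := by
  unfold LadC_R
  refine tsum_congr fun u => ?_
  by_cases hu : 0 < u
  · rw [if_pos (by omega), if_pos hu]
  · rw [LadC_V_nonpos c k hu, ite_self, ite_self]

private theorem LadC_R_succ (c : ℕ → ℤ → ℝ≥0∞) (k : ℕ) {z : ℤ} (hz : 0 ≤ z) :
    LadC_R c (k + 1) z = ∑ i ∈ range (k + 1), ∑' δ : ℤ, c i δ * LadC_R c (k - i) (z - δ) := by
  have h1 : LadC_R c (k + 1) z = ∑ i ∈ range (k + 1), ∑' w : ℤ, ∑' u : ℤ,
      if z < w then c i (w - u) * LadC_V c (k - i) u else 0 := by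
    unfold LadC_R
    rw [← Summable.tsum_finsetSum (fun i _ => ENNReal.summable)]
    refine tsum_congr fun w => ?_
    by_cases hw : z < w
    · simp only [hw, if_true]
      rw [LadC_V_succ, if_pos (by omega)]
    · simp [hw]
  rw [h1]
  refine Finset.sum_congr rfl fun i _ => ?_
  have h2 : ∀ u : ℤ, (∑' w : ℤ, if z < w then c i (w - u) * LadC_V c (k - i) u else 0) =
      ∑' δ : ℤ, if z < δ + u then c i δ * LadC_V c (k - i) u else 0 := by
    intro u
    rw [← (Equiv.addRight u).tsum_eq]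
    refine tsum_congr fun δ => ?_
    simp
  rw [ENNReal.tsum_comm]
  simp_rw [h2]
  rw [ENNReal.tsum_comm]
  refine tsum_congr fun δ => ?_
  unfold LadC_R
  rw [← ENNReal.tsum_mul_left]
  refine tsum_congr fun u => ?_
  by_cases h : z < δ + u
  · rw [if_pos h, if_pos (by omega)]
  · rw [if_neg h, if_neg (by omega), mul_zero]

private noncomputable def LadC_T (c : ℕ → ℤ → ℝ≥0∞) (r : ℕ) (z : ℤ) : ℝ≥0∞ :=
  (if 0 ≤ z then LadC_N c r z else 0) + ∑ k ∈ range (r + 1), LadC_R c k z * LadC_N c (r - k) 0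

/-- a finite sum over a triangle in the other order -/
private theorem LadC_tri (f : ℕ → ℕ → ℕ → ℝ≥0∞) (r : ℕ) :
    ∑ k ∈ range (r + 1), ∑ i ∈ range (k + 1), f i (k - i) (r - k) =
      ∑ i ∈ range (r + 1), ∑ j ∈ range (r - i + 1), f i j (r - i - j) := by
  rw [Finset.sum_sigma', Finset.sum_sigma']
  refine Finset.sum_bij' (fun p _ => ⟨p.2, p.1 - p.2⟩) (fun p _ => ⟨p.1 + p.2, p.1⟩) ?_ ?_ ?_ ?_ ?_
  · rintro ⟨k, i⟩ h
    simp only [Finset.mem_sigma, Finset.mem_range] at h ⊢
    omega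
  · rintro ⟨i, j⟩ h
    simp only [Finset.mem_sigma, Finset.mem_range] at h ⊢
    omega
  · rintro ⟨k, i⟩ h
    simp only [Finset.mem_sigma, Finset.mem_range] at h
    have : i + (k - i) = k := by omega
    simp only [this]
  · rintro ⟨i, j⟩ h
    have : i + j - i = j := by omega
    simp only [this]
  · rintro ⟨k, i⟩ h
    simp only [Finset.mem_sigma, Finset.mem_range] at h
    have : r - i - (k - i) = r - k := by omega
    simp only [this]

private theorem LadC_T_succ (c : ℕ → ℤ → ℝ≥0∞) (r : ℕ) {z : ℤ} (hz : 0 ≤ z) :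
    LadC_T c (r + 1) z = ∑ i ∈ range (r + 1), ∑' δ : ℤ, c i δ * LadC_T c (r - i) (z - δ) := by
  have e1 : LadC_T c (r + 1) z = LadC_N c (r + 1) z +
      ∑ k ∈ range (r + 1), LadC_R c (k + 1) z * LadC_N c (r - k) 0 := by
    unfold LadC_T
    rw [Finset.sum_range_succ', LadC_R_zero, if_neg (not_lt.2 hz : ¬ z < 0), zero_mul, add_zero,
      if_pos hz]
    congr 1
    refine Finset.sum_congr rfl fun k _ => ?_
    have : r + 1 - (k + 1) = r - k := by omega
    rw [this]
  have e2 : ∑ k ∈ range (r + 1), LadC_R c (k + 1) z * LadC_N c (r - k) 0 =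
      ∑ k ∈ range (r + 1), ∑ i ∈ range (k + 1),
        ∑' δ : ℤ, c i δ * (LadC_R c (k - i) (z - δ) * LadC_N c (r - k) 0) := by
    refine Finset.sum_congr rfl fun k _ => ?_
    rw [LadC_R_succ c k hz, Finset.sum_mul]
    refine Finset.sum_congr rfl fun i _ => ?_
    rw [← ENNReal.tsum_mul_right]
    exact tsum_congr fun δ => mul_assoc _ _ _
  have e3 := LadC_tri (fun i j l => ∑' δ : ℤ, c i δ * (LadC_R c j (z - δ) * LadC_N c l 0)) r
  beta_reduce at e3
  rw [e1, e2, e3, LadC_N_succ, ← Finset.sum_add_distrib]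
  refine Finset.sum_congr rfl fun i _ => ?_
  rw [← Summable.tsum_finsetSum (fun i _ => ENNReal.summable), ← ENNReal.tsum_add]
  refine tsum_congr fun δ => ?_
  unfold LadC_T
  rw [mul_add, Finset.mul_sum]

private theorem LadC_T_neg (c : ℕ → ℤ → ℝ≥0∞) (r : ℕ) {z : ℤ} (hz : z < 0) :
    LadC_T c r z = LadC_T c r 0 := by
  unfold LadC_T
  rw [Finset.sum_range_succ', Finset.sum_range_succ', LadC_R_zero, LadC_R_zero, if_neg (by omega),
    if_pos hz, if_pos le_rfl, if_neg (by omega), zero_mul, add_zero, zero_add, one_mul,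
    Nat.sub_zero, add_comm (LadC_N c r 0)]
  congr 1
  refine Finset.sum_congr rfl fun k _ => ?_
  rw [LadC_R_neg c k hz]

private theorem LadC_T_eq (c : ℕ → ℤ → ℝ≥0∞) (u : ℕ → ℝ≥0∞) (hu0 : u 0 = 1)
    (hu : ∀ r, u (r + 1) = ∑ i ∈ range (r + 1), (∑' δ : ℤ, c i δ) * u (r - i)) (r : ℕ) :
    ∀ z : ℤ, LadC_T c r z = u r := by
  induction r using Nat.strong_induction_on with
  | _ r ih =>
    cases r with
    | zero =>
      intro z
      unfold LadC_T
      rw [zero_add, Finset.sum_range_one, LadC_R_zero, hu0]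
      by_cases hz : 0 ≤ z
      · rw [if_pos hz, if_neg (by omega)]
        simp [LadC_N_zero]
      · rw [if_neg hz, if_pos (by omega)]
        simp [LadC_N_zero]
    | succ r =>
      have key : ∀ z : ℤ, 0 ≤ z → LadC_T c (r + 1) z = u (r + 1) := by
        intro z hz
        rw [LadC_T_succ c r hz, hu]
        refine Finset.sum_congr rfl fun i hi => ?_
        rw [← ENNReal.tsum_mul_right]
        refine tsum_congr fun δ => ?_
        rw [ih (r - i) (by omega)]
      intro z
      by_cases hz : 0 ≤ z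
      · exact key z hz
      · rw [LadC_T_neg c (r + 1) (not_le.1 hz)]
        exact key 0 le_rfl

private theorem LadC_gw_le (c : ℕ → ℤ → ℝ≥0∞) (hsym : ∀ i δ, c i (-δ) = c i δ) (r : ℕ) :
    ∀ x : ℤ, 0 ≤ x → gw c r x ≤ LadC_N c r x := by
  induction r using Nat.strong_induction_on with
  | _ r ih =>
    cases r with
    | zero =>
      intro x _
      rw [gw_zero, LadC_N_zero]
    | succ r =>
      intro x hx
      rw [gw_succ, LadC_N_succ]
      refine Finset.sum_le_sum fun i hi => ?_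
      rw [← (Equiv.neg ℤ).tsum_eq]
      refine ENNReal.tsum_le_tsum fun δ => ?_
      simp only [Equiv.neg_apply, hsym]
      by_cases h : 0 < x + -δ
      · rw [if_pos h, if_pos (by omega)]
        have := ih (r - i) (by omega) (x + -δ) h.le
        rw [← sub_eq_add_neg] at this ⊢
        exact mul_le_mul_right this _
      · rw [if_neg h]
        exact zero_le

/-- the mass of the positive sequences of widths `s`, `i + 1`, `l` -/
private noncomputable def LadC_B (c : ℕ → ℤ → ℝ≥0∞) (s i l : ℕ) : ℝ≥0∞ :=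
  ∑' w : ℤ, LadC_V c s w * ∑' δ : ℤ, if 0 < w + δ then c i δ * gw c l (w + δ) else 0

private noncomputable def LadC_S (c : ℕ → ℤ → ℝ≥0∞) (s l : ℕ) : ℝ≥0∞ :=
  ∑' w : ℤ, LadC_V c s w * gw c l w

private theorem LadC_S1 (c : ℕ → ℤ → ℝ≥0∞) (s j : ℕ) :
    LadC_S c s (j + 1) = ∑ i ∈ range (j + 1), LadC_B c s i (j - i) := by
  unfold LadC_S LadC_B
  rw [← Summable.tsum_finsetSum (fun i _ => ENNReal.summable)]
  refine tsum_congr fun w => ?_
  rw [gw_succ, Finset.mul_sum]

private theorem LadC_S2 (c : ℕ → ℤ → ℝ≥0∞) (s l : ℕ) :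
    LadC_S c (s + 1) l = ∑ i ∈ range (s + 1), LadC_B c (s - i) i l := by
  have h1 : LadC_S c (s + 1) l = ∑ i ∈ range (s + 1), ∑' w : ℤ, ∑' u : ℤ,
      LadC_V c (s - i) u * (if 0 < w then c i (w - u) * gw c l w else 0) := by
    unfold LadC_S
    rw [← Summable.tsum_finsetSum (fun i _ => ENNReal.summable)]
    refine tsum_congr fun w => ?_
    rw [LadC_V_succ]
    by_cases hw : 0 < w
    · simp only [hw, if_true]
      rw [Finset.sum_mul]
      refine Finset.sum_congr rfl fun i _ => ?_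
      rw [← ENNReal.tsum_mul_right]
      refine tsum_congr fun u => ?_
      ring
    · simp [hw]
  rw [h1]
  refine Finset.sum_congr rfl fun i _ => ?_
  unfold LadC_B
  rw [ENNReal.tsum_comm]
  refine tsum_congr fun u => ?_
  rw [ENNReal.tsum_mul_left, ← (Equiv.addLeft u).tsum_eq]
  congr 1
  refine tsum_congr fun δ => ?_
  simp

/-- the abstract reversal -/
private theorem LadC_abs (S : ℕ → ℕ → ℝ≥0∞) (B : ℕ → ℕ → ℕ → ℝ≥0∞)
    (h1 : ∀ s j, S s (j + 1) = ∑ i ∈ range (j + 1), B s i (j - i))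
    (h2 : ∀ s l, S (s + 1) l = ∑ i ∈ range (s + 1), B (s - i) i l) (n : ℕ) :
    S 0 (n + 1) = S (n + 1) 0 := by
  have h1' : ∀ s j, S s (j + 1) = ∑ l ∈ range (j + 1), B s (j - l) l := by
    intro s j
    rw [h1, ← Finset.sum_range_reflect]
    refine Finset.sum_congr rfl fun l hl => ?_
    rw [Finset.mem_range] at hl
    have e1 : j + 1 - 1 - l = j - l := by omega
    have e2 : j - (j - l) = l := by omega
    rw [e1, e2]
  have h2' : ∀ s l, S (s + 1) l = ∑ a ∈ range (s + 1), B a (s - a) l := by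
    intro s l
    rw [h2, ← Finset.sum_range_reflect]
    refine Finset.sum_congr rfl fun a ha => ?_
    rw [Finset.mem_range] at ha
    have e1 : s + 1 - 1 - a = s - a := by omega
    have e2 : s - (s - a) = a := by omega
    rw [e1, e2]
  have key : ∀ k, k ≤ n → ∑ s ∈ range (k + 1), ∑ l ∈ range (n - k + 1), B s (n - s - l) l =
      S 0 (n + 1) := by
    intro k
    induction k with
    | zero =>
      intro _
      rw [h1']
      simp
    | succ k ih =>
      intro hk
      rw [← ih (by omega)]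
      have e1 : ∑ s ∈ range (k + 1), ∑ l ∈ range (n - k + 1), B s (n - s - l) l =
          ∑ s ∈ range (k + 1), ∑ l ∈ range (n - (k + 1) + 1), B s (n - s - l) l +
            S (k + 1) (n - k) := by
        rw [h2', ← Finset.sum_add_distrib]
        refine Finset.sum_congr rfl fun s hs => ?_
        rw [Finset.mem_range] at hs
        have a1 : n - k = n - (k + 1) + 1 := by omega
        rw [a1, Finset.sum_range_succ]
        congr 2
        omega
      have e2 : ∑ s ∈ range (k + 1 + 1), ∑ l ∈ range (n - (k + 1) + 1), B s (n - s - l) l =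
          ∑ s ∈ range (k + 1), ∑ l ∈ range (n - (k + 1) + 1), B s (n - s - l) l +
            S (k + 1) (n - k) := by
        rw [Finset.sum_range_succ]
        congr 1
        have a1 : n - k = n - (k + 1) + 1 := by omega
        rw [a1, h1']
      rw [e1, e2]
  have h3 := key n le_rfl
  rw [← h3, h2']
  refine Finset.sum_congr rfl fun s _ => ?_
  simp

private theorem LadC_gw_rec (c : ℕ → ℤ → ℝ≥0∞) (k : ℕ) :
    gw c (k + 1) 0 = LadC_R c (k + 1) 0 := by
  have h := LadC_abs (LadC_S c) (LadC_B c) (LadC_S1 c) (LadC_S2 c) k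
  have h1 : LadC_S c 0 (k + 1) = gw c (k + 1) 0 := by
    unfold LadC_S
    rw [tsum_eq_single (0 : ℤ)]
    · simp [LadC_V_zero]
    · intro u hu
      simp [LadC_V_zero, hu]
  have h2 : LadC_S c (k + 1) 0 = LadC_R c (k + 1) 0 := by
    unfold LadC_S LadC_R
    refine tsum_congr fun u => ?_
    by_cases hu : 0 < u
    · rw [if_pos hu, gw_zero, mul_one]
    · rw [if_neg hu, LadC_V_nonpos c k hu, zero_mul]
  rw [← h1, h, h2]

theorem lad_conv (c : ℕ → ℤ → ℝ≥0∞) (hsym : ∀ i δ, c i (-δ) = c i δ) (u : ℕ → ℝ≥0∞) (hu0 : u 0 = 1)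
    (hu : ∀ r, u (r + 1) = ∑ i ∈ range (r + 1), (∑' δ : ℤ, c i δ) * u (r - i)) (r : ℕ) :
    ∑ k ∈ range (r + 1), gw c k 0 * gw c (r - k) 0 ≤ u r := by
  rw [← LadC_T_eq c u hu0 hu r 0]
  unfold LadC_T
  rw [Finset.sum_range_succ', Finset.sum_range_succ', LadC_R_zero, if_pos le_rfl,
    if_neg (by omega), zero_mul, add_zero, add_comm (LadC_N c r 0)]
  refine add_le_add (Finset.sum_le_sum fun k _ => ?_) ?_
  · rw [LadC_gw_rec]
    exact mul_le_mul_right (LadC_gw_le c hsym _ 0 le_rfl) _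
  · rw [gw_zero, one_mul, Nat.sub_zero]
    exact LadC_gw_le c hsym r 0 le_rfl

end Pool.Agent.ZCS
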