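import Pool.Agent.ZHW.Defs

/-!
Project ZCS (notes 2919 helper80, 2918 helper10, 2921 helper51). Self-avoiding walks of the square (`t = false`) and of
the triangular (`t = true`) lattice: `a_k <= mu ^ k * exp (C * (k * log (k + 2)) ^ (1 / 3))` for every `k`.

Everything is at the critical point `zc t`. `n : ℕ → ℕ` is the cutoff: the near part of a fold whose shorter strand has
width `h` consists of the levels `1, ..., n h` (`2 * n h ≤ h`). `V` is the mass of the chains of Hammersley-Welsh strands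
after the strand `X` (width `h`), with the sign condition `Sg` of the order lemma in the near part of every fold; `Vh`
has the conditional probability `rho` of the sign condition instead; `(OE k).1`, `(OE k).2` have the square of `rho`
at every second fold and nothing at the others.
-/

namespace Pool.Agent.ZCS

open Pool.Agent.SHP Pool.Agent.ZHW Finset
open scoped ENNReal NNReal

/-- At every common renewal level `1 ≤ i ≤ n` the walk `P` is higher than the walk `Q`. -/
def PosN (t : Bool) (n : ℕ) (P Q : Wd) : Prop :=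
  ∀ i : ℕ, 1 ≤ i → i ≤ n → ∀ u v u' v' : Wd, P = u ++ v → Q = u' ++ v' → u ∈ CB t i → u' ∈ CB t i → Ri v → Ri v' →
    u'.sum.2 < u.sum.2

/-- The walks keep their order at the common renewal levels `1, ..., n`. -/
def Sg (t : Bool) (n : ℕ) (P Q : Wd) : Prop := PosN t n P Q ∨ PosN t n Q P

open Classical in
/-- The farthest common renewal level among `0, ..., n`. -/
noncomputable def cr (t : Bool) (n : ℕ) (P Q : Wd) : ℕ :=
  Nat.findGreatest (fun i => Rn t i P ∧ Rn t i Q) n

/-- Weighted sum over the weak bridges of width `d`. -/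
noncomputable def sm (t : Bool) (d : ℕ) (F : Wd → ℝ≥0∞) : ℝ≥0∞ :=
  ∑' l : WB t d, (zc t : ℝ≥0∞) ^ (l : Wd).length * F l

/-- Weighted sum over a set of pairs. -/
noncomputable def sp (t : Bool) (A : Set (Wd × Wd)) (F : Wd × Wd → ℝ≥0∞) : ℝ≥0∞ :=
  ∑' p : A, (zc t : ℝ≥0∞) ^ ((p : Wd × Wd).1.length + (p : Wd × Wd).2.length) * F p

/-- Pairs of cobridges of width `r`. -/
def CC (t : Bool) (r : ℕ) : Set (Wd × Wd) := {p | p.1 ∈ CB t r ∧ p.2 ∈ CB t r}

/-- Pairs of cobridges of width `r` which keep their order. -/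
def GP (t : Bool) (r : ℕ) : Set (Wd × Wd) := {p | p ∈ CC t r ∧ Sg t r p.1 p.2}

/-- Pairs of weak bridges of widths `a'`, `a` without common renewal level among `1, ..., m`. -/
def NP (t : Bool) (a' a m : ℕ) : Set (Wd × Wd) := {p | p.1 ∈ WB t a' ∧ p.2 ∈ WB t a ∧ NC t m p}

/-- The conditional probability of keeping the order. -/
noncomputable def rho (t : Bool) (r : ℕ) : ℝ≥0∞ := gf2 (GP t r) (zc t) / (be t (zc t) r) ^ 2

open Classical in
/-- Chains with the sign condition. -/
noncomputable def V (t : Bool) (n : ℕ → ℕ) (y : ℝ≥0∞) : ℕ → ℕ → Wd → ℝ≥0∞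
  | 0, _, _ => 1
  | k + 1, h, X => 1 + ∑ d ∈ range h, y ^ d *
      sm t d (fun Y => if Sg t (n d) (fl t X) Y then V t n y k d Y else 0)

/-- Chains with the conditional probability of the sign condition. -/
noncomputable def Vh (t : Bool) (n : ℕ → ℕ) (y : ℝ≥0∞) : ℕ → ℕ → Wd → ℝ≥0∞
  | 0, _, _ => 1
  | k + 1, h, X => 1 + ∑ d ∈ range h, y ^ d *
      sm t d (fun Y => rho t (cr t (n d) (fl t X) Y) * Vh t n y k d Y)

/-- The square of the conditional probability at every second fold. -/
noncomputable def OE (t : Bool) (n : ℕ → ℕ) (y : ℝ≥0∞) : ℕ → (ℕ → Wd → ℝ≥0∞) × (ℕ → ℝ≥0∞)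
  | 0 => (fun _ _ => 1, fun _ => 1)
  | k + 1 => (fun h X => 1 + ∑ d ∈ range h, y ^ d *
        (sm t d (fun Y => rho t (cr t (n d) (fl t X) Y) ^ 2) * (OE t n y k).2 d),
      fun h => 1 + ∑ d ∈ range h, y ^ d * sm t d ((OE t n y k).1 d))

/-- The kernel of the pairs of strands. -/
noncomputable def J (t : Bool) (n : ℕ → ℕ) (h' h : ℕ) : ℝ≥0∞ :=
  sm t h' (fun P => sm t h (fun Q => rho t (cr t (n h) P Q) ^ 2))

/-- Block sequences of total width `r` (a block `(i, δ)` has width `i + 1`, mass `c i δ` and moves by `δ`) which start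
at `x` and then stay positive. -/
noncomputable def gw (c : ℕ → ℤ → ℝ≥0∞) : ℕ → ℤ → ℝ≥0∞
  | 0, _ => 1
  | r + 1, x => ∑ i : Fin (r + 1), ∑' δ : ℤ, if 0 < x + δ then c i δ * gw c (r - i) (x + δ) else 0
termination_by r => r
decreasing_by omega

theorem gw_zero (c : ℕ → ℤ → ℝ≥0∞) (x : ℤ) : gw c 0 x = 1 := by
  rw [gw]

theorem gw_succ (c : ℕ → ℤ → ℝ≥0∞) (r : ℕ) (x : ℤ) : gw c (r + 1) x =
    ∑ i ∈ range (r + 1), ∑' δ : ℤ, if 0 < x + δ then c i δ * gw c (r - i) (x + δ) else 0 := by
  rw [gw, Finset.sum_range (fun i => ∑' δ : ℤ, if 0 < x + δ then c i δ * gw c (r - i) (x + δ) else 0)]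

end Pool.Agent.ZCS
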