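import Pool.Agent.ZCS.Defs
import Pool.Agent.ZHW.Order

/-!
Module SgD: disjoint strands keep their order at all common renewal levels.

PAPER PROOF. At a common renewal level `i >= 1`, `P = u ++ v`, `Q = u' ++ v'`, `u, u' ∈ CB t i`: `u <> []` (`u.sum.1 = i >= 1`), so
`u.sum <> u'.sum` by `Disj`, and as `u.sum.1 = u'.sum.1 = i`, `u.sum.2 <> u'.sum.2`. Let `i < j` be two common renewal levels with
prefixes `u, u' ∈ CB t i` and `w, w' ∈ CB t j`: `u` is a prefix of `w` (otherwise `u = w ++ x`, `x <> []` is a nonempty suffix of the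
cobridge `u`, so `x.sum.1 > 0` and `i = j + x.sum.1 > j`), `w = u ++ x`, and `x ∈ CB t (j - i)` (`CB_split` with `Ri x`: `x` is a prefix of
`v`), similarly `w' = u' ++ x'`; `Disj w w'` (prefixes of `P`, `Q`), so `order` (ZHW/Order) gives
`u'.sum.2 < u.sum.2 ↔ w'.sum.2 < w.sum.2`. So the sign is the same at all common renewal levels (if there is none in `1, ..., n`,
`PosN t n P Q` is vacuous; decompositions at a given level are unique, `Rn_unique`, or argue directly with arbitrary ones).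
-/

namespace Pool.Agent.ZCS

open Pool.Agent.SHP Pool.Agent.ZHW

variable {t : Bool}

private theorem SgD_ext {i j : ℕ} (hij : i ≤ j) {P u v w x : Wd} (h1 : P = u ++ v) (h2 : P = w ++ x)
    (hu : u ∈ CB t i) (hw : w ∈ CB t j) (hv : Ri v) : ∃ y : Wd, w = u ++ y ∧ y ∈ CB t (j - i) := by
  rcases List.append_eq_append_iff.1 (h1.symm.trans h2) with ⟨a, ha, hva⟩ | ⟨c, hc, hxc⟩
  · refine ⟨a, ha, (CB_split hw ha hu ?_).2⟩
    intro p q hpq
    exact hv p (q ++ x) (by rw [hva, hpq, List.append_assoc])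
  · have hcn : c = [] := by
      by_contra hne
      have h3 := hu.2.2.1 w c hc hne
      have h4 := hu.2.2.2
      rw [hc, fst_sum_append, hw.2.2.2] at h4
      omega
    subst hcn
    rw [List.append_nil] at hc
    subst hc
    refine ⟨[], by simp, ?_⟩
    have h4 := hu.2.2.2
    rw [hw.2.2.2] at h4
    have h5 : j - i = 0 := by omega
    rw [h5, CB_zero]
    rfl

private theorem SgD_disj {P Q w x w' x' : Wd} (hd : Disj P Q) (h : P = w ++ x) (h' : Q = w' ++ x') :
    Disj w w' := by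
  intro p q r s hp hq hs
  exact hd p q (r ++ x) (s ++ x') (by rw [h, hp, List.append_assoc]) (by rw [h', hq, List.append_assoc]) hs

private theorem SgD_key {i j : ℕ} (hi : 1 ≤ i) (hij : i ≤ j) {P Q u v u' v' w x w' x' : Wd} (hd : Disj P Q)
    (h1 : P = u ++ v) (h1' : Q = u' ++ v') (h2 : P = w ++ x) (h2' : Q = w' ++ x')
    (hu : u ∈ CB t i) (hu' : u' ∈ CB t i) (hw : w ∈ CB t j) (hw' : w' ∈ CB t j) (hv : Ri v) (hv' : Ri v') :
    u'.sum.2 < u.sum.2 ↔ w'.sum.2 < w.sum.2 := by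
  obtain ⟨y, hy, hyc⟩ := SgD_ext hij h1 h2 hu hw hv
  obtain ⟨y', hy', hyc'⟩ := SgD_ext hij h1' h2' hu' hw' hv'
  have h3 := SgD_disj hd h2 h2'
  subst hy hy'
  exact order hi hu hu' hyc hyc' h3

theorem sg_of_disj {h' h : ℕ} (n : ℕ) {P Q : Wd} (hP : P ∈ WB t h') (hQ : Q ∈ WB t h) (hd : Disj P Q) :
    Sg t n P Q := by
  by_cases hex : ∃ i : ℕ, 1 ≤ i ∧ ∃ u v u' v' : Wd, P = u ++ v ∧ Q = u' ++ v' ∧ u ∈ CB t i ∧ u' ∈ CB t i ∧
      Ri v ∧ Ri v' ∧ u'.sum.2 < u.sum.2
  · left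
    obtain ⟨i, hi, u, v, u', v', h1, h1', hu, hu', hv, hv', hlt⟩ := hex
    intro j hj _ w x w' x' h2 h2' hw hw' hx hx'
    rcases le_total i j with hij | hij
    · exact (SgD_key hi hij hd h1 h1' h2 h2' hu hu' hw hw' hv hv').1 hlt
    · exact (SgD_key hj hij hd h2 h2' h1 h1' hw hw' hu hu' hx hx').2 hlt
  · right
    intro j hj _ w' x' w x h2' h2 hw' hw hx' hx
    have h3 : ¬ (w'.sum.2 < w.sum.2) := fun h =>
      hex ⟨j, hj, w, x, w', x', h2, h2', hw, hw', hx, hx', h⟩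
    have h4 : w.sum.2 ≠ w'.sum.2 := by
      intro h5
      have h6 : w.sum = w'.sum := Prod.ext (by rw [hw.2.2.2, hw'.2.2.2]) h5
      have h7 := (hd w w' x x' h2 h2' h6).1
      have h8 := hw.2.2.2
      rw [h7] at h8
      simp at h8
      omega
    omega

end Pool.Agent.ZCS
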