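import Pool.Agent.ZCS.Fw

/-!
Module Amgm: the folds of odd and of even number are decoupled by the arithmetic-geometric mean inequality.

PAPER PROOF. Induction on `k` for all `h`, `X`, `lam`. `k = 0`: `2 <= lam + lam⁻¹`. Step: for every `Y` with `ρ = rho t (cr ..)`:
`2 * (ρ * Vh k d Y) <= lam⁻¹ * (OE k).1 d Y + lam * ρ ^ 2 * (OE k).2 d`: trivial if `ρ = 0`, otherwise the induction hypothesis
with `(lam * ρ)⁻¹` in place of `lam` (`ρ <= 1`, `lam < ∞`, so `lam * ρ` is neither `0` nor `∞`), multiplied by `ρ`. Sum over `Y`, `d`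
and add `2 <= lam + lam⁻¹`:
`2 * Vh (k+1) h X <= lam * (1 + ∑ y^d sm (ρ^2) (OE k).2 d) + lam⁻¹ * (1 + ∑ y^d sm ((OE k).1 d))`.
-/

namespace Pool.Agent.ZCS

open Pool.Agent.SHP Pool.Agent.ZHW Finset
open scoped ENNReal NNReal

variable {t : Bool}

private theorem amgm_two (lam : ℝ≥0∞) (h0 : lam ≠ 0) (h1 : lam ≠ ⊤) : 2 ≤ lam + lam⁻¹ := by
  lift lam to ℝ≥0 using h1
  have h2 : lam ≠ 0 := by simpa using h0
  rw [← ENNReal.coe_inv h2, ← ENNReal.coe_add, ← ENNReal.coe_ofNat, ENNReal.coe_le_coe, ← NNReal.coe_le_coe]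
  push_cast
  have h3 : (0 : ℝ) < lam := by
    have := lam.2
    exact lt_of_le_of_ne this (fun h => h2 (by ext; exact h.symm))
  have h4 : ((lam : ℝ) + (lam : ℝ)⁻¹) - 2 = ((lam : ℝ) - 1) ^ 2 * (lam : ℝ)⁻¹ := by
    field_simp
    ring
  have h5 : (0 : ℝ) ≤ ((lam : ℝ) - 1) ^ 2 * (lam : ℝ)⁻¹ := by positivity
  linarith

private theorem amgm_step (r v a b lam : ℝ≥0∞) (hr : r ≤ 1) (h0 : lam ≠ 0) (h1 : lam ≠ ⊤)
    (H : ∀ l : ℝ≥0∞, l ≠ 0 → l ≠ ⊤ → 2 * v ≤ l * a + l⁻¹ * b) :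
    2 * (r * v) ≤ lam * (r ^ 2 * b) + lam⁻¹ * a := by
  rcases eq_or_ne r 0 with rfl | hr0
  · simp
  have hrt : r ≠ ⊤ := ne_top_of_le_ne_top ENNReal.one_ne_top hr
  have hm0 : lam * r ≠ 0 := mul_ne_zero h0 hr0
  have hmt : lam * r ≠ ⊤ := ENNReal.mul_ne_top h1 hrt
  have h2 := H (lam * r)⁻¹ (ENNReal.inv_ne_zero.2 hmt) (ENNReal.inv_ne_top.2 hm0)
  rw [inv_inv] at h2
  have h3 : r * (lam * r)⁻¹ = lam⁻¹ := by
    rw [ENNReal.mul_inv (Or.inl h0) (Or.inl h1), mul_left_comm, ENNReal.mul_inv_cancel hr0 hrt, mul_one]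
  calc 2 * (r * v) = r * (2 * v) := by ring
    _ ≤ r * ((lam * r)⁻¹ * a + lam * r * b) := mul_le_mul_right h2 _
    _ = lam * (r ^ 2 * b) + (r * (lam * r)⁻¹) * a := by ring
    _ = lam * (r ^ 2 * b) + lam⁻¹ * a := by rw [h3]

theorem amgm (n : ℕ → ℕ) (y : ℝ≥0∞) (k h : ℕ) (X : Wd) (lam : ℝ≥0∞) (h0 : lam ≠ 0) (h1 : lam ≠ ⊤) :
    2 * Vh t n y k h X ≤ lam * (OE t n y k).1 h X + lam⁻¹ * (OE t n y k).2 h := by
  induction k generalizing h X lam with
  | zero =>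
    show 2 * 1 ≤ lam * 1 + lam⁻¹ * 1
    simpa using amgm_two lam h0 h1
  | succ k ih =>
    have hd : ∀ d ∈ range h, 2 * (y ^ d *
        sm t d (fun Y => rho t (cr t (n d) (fl t X) Y) * Vh t n y k d Y)) ≤
        lam * (y ^ d * (sm t d (fun Y => rho t (cr t (n d) (fl t X) Y) ^ 2) * (OE t n y k).2 d)) +
          lam⁻¹ * (y ^ d * sm t d ((OE t n y k).1 d)) := by
      intro d _
      have h2 : 2 * sm t d (fun Y => rho t (cr t (n d) (fl t X) Y) * Vh t n y k d Y) ≤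
          lam * (sm t d (fun Y => rho t (cr t (n d) (fl t X) Y) ^ 2) * (OE t n y k).2 d) +
            lam⁻¹ * sm t d ((OE t n y k).1 d) := by
        calc 2 * sm t d (fun Y => rho t (cr t (n d) (fl t X) Y) * Vh t n y k d Y)
            = sm t d (fun Y => 2 * (rho t (cr t (n d) (fl t X) Y) * Vh t n y k d Y)) :=
              (sm_const_mul d 2 _).symm
          _ ≤ sm t d (fun Y => lam * (rho t (cr t (n d) (fl t X) Y) ^ 2 * (OE t n y k).2 d) +
                lam⁻¹ * (OE t n y k).1 d Y) :=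
              sm_mono fun Y _ => amgm_step _ _ _ _ lam (rho_le_one _) h0 h1 (fun l hl0 hl1 => ih d Y l hl0 hl1)
          _ = _ := by
              rw [sm_add, sm_const_mul, sm_const_mul]
              congr 2
              rw [mul_comm (sm t d _), ← sm_const_mul]
              exact sm_congr fun l _ => mul_comm _ _
      calc _ = y ^ d * (2 * sm t d (fun Y => rho t (cr t (n d) (fl t X) Y) * Vh t n y k d Y)) := by ring
        _ ≤ y ^ d * (lam * (sm t d (fun Y => rho t (cr t (n d) (fl t X) Y) ^ 2) * (OE t n y k).2 d) +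
            lam⁻¹ * sm t d ((OE t n y k).1 d)) := mul_le_mul_right h2 _
        _ = _ := by ring
    have hs := Finset.sum_le_sum hd
    rw [← Finset.mul_sum, Finset.sum_add_distrib, ← Finset.mul_sum, ← Finset.mul_sum] at hs
    show 2 * (1 + ∑ d ∈ range h, y ^ d *
      sm t d (fun Y => rho t (cr t (n d) (fl t X) Y) * Vh t n y k d Y)) ≤
      lam * (1 + ∑ d ∈ range h, y ^ d *
        (sm t d (fun Y => rho t (cr t (n d) (fl t X) Y) ^ 2) * (OE t n y k).2 d)) +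
      lam⁻¹ * (1 + ∑ d ∈ range h, y ^ d * sm t d ((OE t n y k).1 d))
    calc _ = 2 + 2 * ∑ d ∈ range h, y ^ d *
          sm t d (fun Y => rho t (cr t (n d) (fl t X) Y) * Vh t n y k d Y) := by ring
      _ ≤ (lam + lam⁻¹) + _ := add_le_add (amgm_two lam h0 h1) hs
      _ = _ := by ring

end Pool.Agent.ZCS
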