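import Pool.Agent.ZHW.AnIrr

/-!
Module AnLog (analysis): the logarithmic sum.

PAPER PROOF. `g r <= 1` (`g 0 * g r <= W r <= 1`), so `∑' i, L i <= 1` by `ZHW.anIrr` (with `I = L`, `u = g`; equality in its
hypothesis). Let `p 0 r = [r = 0]`, `p (m + 1) (r + 1) = ∑ i ≤ r, L i * p m (r - i)`, `p (m + 1) 0 = 0` (the `m`-fold convolution power
of `L`, widths `i + 1`). Then `∑ r < N, p m r <= 1` for all `m`, `N` (induction on `m`), `p m r = 0` for `m > r`,
`g r = ∑ m ≤ r, p m r` (strong induction), `∑ k ≤ r, p a k * p b (r - k) = p (a + b) r` (induction on `a`), hence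
`∑ k ≤ r, g k * g (r - k) = ∑ m ≤ r, (m + 1) * p m r`. Cauchy-Schwarz (finite sum, finite terms)
`g r ^ 2 = (∑ m ≤ r, p m r) ^ 2 <= (∑ m ≤ r, (m + 1) * p m r) * (∑ m ≤ r, p m r / (m + 1)) <= W r * ∑ m ≤ r, p m r / (m + 1)`
(in `ℝ≥0∞`; or `2 a b <= λ a^2 + b^2 / λ`), so `g r ^ 2 / W r <= ∑ m ≤ r, p m r / (m + 1)` (`ENNReal.div_le_of_le_mul`). Sum over `r < N` and
exchange the sums: `<= ∑ m < N, 1 / (m + 1)`.
-/

namespace Pool.Agent.ZCS

open Finset
open scoped ENNReal NNReal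

private theorem anLog_sum_mul (A B : PowerSeries ℝ≥0∞) (N : ℕ) :
    ∑ r ∈ range N, PowerSeries.coeff r (A * B) ≤
      (∑ i ∈ range N, PowerSeries.coeff i A) * ∑ j ∈ range N, PowerSeries.coeff j B := by
  rw [Finset.sum_mul_sum, ← Finset.sum_product']
  have h1 : ∀ r ∈ range N, PowerSeries.coeff r (A * B) =
      ∑ x ∈ (range N ×ˢ range N).filter (fun x : ℕ × ℕ => x.1 + x.2 = r),
        PowerSeries.coeff x.1 A * PowerSeries.coeff x.2 B := by
    intro r hr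
    rw [PowerSeries.coeff_mul]
    refine Finset.sum_congr ?_ fun _ _ => rfl
    ext x
    simp only [HasAntidiagonal.mem_antidiagonal, mem_filter, mem_product, mem_range] at hr ⊢
    constructor
    · intro h
      exact ⟨⟨by omega, by omega⟩, h⟩
    · intro h
      exact h.2
  rw [Finset.sum_congr rfl h1, ← Finset.sum_biUnion]
  · refine Finset.sum_le_sum_of_subset ?_
    intro x hx
    simp only [mem_biUnion, mem_filter] at hx
    obtain ⟨_, _, h, _⟩ := hx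
    exact h
  · intro i _ j _ hij
    rw [Function.onFun, Finset.disjoint_left]
    intro x hx hx'
    rw [mem_filter] at hx hx'
    exact hij (hx.2.symm.trans hx'.2)

private theorem anLog_pow_sum (A : PowerSeries ℝ≥0∞) (hA : ∀ N, ∑ r ∈ range N, PowerSeries.coeff r A ≤ 1)
    (m N : ℕ) : ∑ r ∈ range N, PowerSeries.coeff r (A ^ m) ≤ 1 := by
  induction m with
  | zero =>
    rw [pow_zero]
    simp only [PowerSeries.coeff_one]
    rw [Finset.sum_ite_eq']
    split_ifs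
    · exact le_rfl
    · exact zero_le
  | succ m ih =>
    rw [pow_succ]
    exact (anLog_sum_mul _ _ _).trans (mul_le_one' ih (hA N))

private theorem anLog_exp (G φ : PowerSeries ℝ≥0∞) (h : G = 1 + φ * G) (M : ℕ) :
    G = ∑ m ∈ range M, φ ^ m + φ ^ M * G := by
  induction M with
  | zero => simp
  | succ M ih =>
    rw [Finset.sum_range_succ]
    calc G = ∑ m ∈ range M, φ ^ m + φ ^ M * G := ih
      _ = ∑ m ∈ range M, φ ^ m + φ ^ M * (1 + φ * G) := by rw [← h]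
      _ = ∑ m ∈ range M, φ ^ m + φ ^ M + φ ^ (M + 1) * G := by ring

private theorem anLog_exp2 (G φ : PowerSeries ℝ≥0∞) (h : G = 1 + φ * G) (M : ℕ) :
    G * G = ∑ m ∈ range M, ((m : PowerSeries ℝ≥0∞) + 1) * φ ^ m +
      φ ^ M * ((M : PowerSeries ℝ≥0∞) * G + G * G) := by
  induction M with
  | zero => simp
  | succ M ih =>
    rw [Finset.sum_range_succ]
    have h2 : (M : PowerSeries ℝ≥0∞) * G + G * G =
        (M : PowerSeries ℝ≥0∞) * (1 + φ * G) + (1 + φ * G + φ * (G * G)) := by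
      have h3 : G * G = 1 + φ * G + φ * (G * G) := by
        calc G * G = (1 + φ * G) * G := by rw [← h]
          _ = G + φ * (G * G) := by ring
          _ = 1 + φ * G + φ * (G * G) := by rw [← h]
      rw [← h3, ← h]
    calc G * G = ∑ m ∈ range M, ((m : PowerSeries ℝ≥0∞) + 1) * φ ^ m +
          φ ^ M * ((M : PowerSeries ℝ≥0∞) * G + G * G) := ih
      _ = ∑ m ∈ range M, ((m : PowerSeries ℝ≥0∞) + 1) * φ ^ m +
          φ ^ M * ((M : PowerSeries ℝ≥0∞) * (1 + φ * G) + (1 + φ * G + φ * (G * G))) := by rw [h2]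
      _ = _ := by
        push_cast
        ring

private theorem anLog_zero (L : ℕ → ℝ≥0∞) (B : PowerSeries ℝ≥0∞) {r M : ℕ} (h : r < M) :
    PowerSeries.coeff r ((PowerSeries.X * PowerSeries.mk L) ^ M * B) = 0 := by
  rw [mul_pow, mul_assoc, PowerSeries.coeff_X_pow_mul', if_neg (not_le.2 h)]

private theorem anLog_cs (a : ℕ → ℝ≥0∞) (ha : ∀ m, a m ≤ 1) (M : ℕ) :
    (∑ m ∈ range M, a m) ^ 2 ≤
      (∑ m ∈ range M, ((m : ℝ≥0∞) + 1) * a m) * ∑ m ∈ range M, ((m : ℝ≥0∞) + 1)⁻¹ * a m := by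
  obtain ⟨b, rfl⟩ : ∃ b : ℕ → ℝ≥0, a = fun m => (b m : ℝ≥0∞) := by
    refine ⟨fun m => (a m).toNNReal, funext fun m => ?_⟩
    rw [ENNReal.coe_toNNReal]
    exact ((ha m).trans_lt ENNReal.one_lt_top).ne
  have h := Finset.sum_sq_le_sum_mul_sum_of_sq_le_mul (range M) (r := b)
    (f := fun m => ((m : ℝ≥0) + 1) * b m) (g := fun m => ((m : ℝ≥0) + 1)⁻¹ * b m)
    (fun _ _ => zero_le) (fun _ _ => zero_le) (fun m _ => by
      have hm : ((m : ℝ≥0) + 1) ≠ 0 := by positivity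
      refine le_of_eq ?_
      calc b m ^ 2 = (((m : ℝ≥0) + 1) * ((m : ℝ≥0) + 1)⁻¹) * b m ^ 2 := by
            rw [mul_inv_cancel₀ hm, one_mul]
        _ = ((m : ℝ≥0) + 1) * b m * (((m : ℝ≥0) + 1)⁻¹ * b m) := by ring)
  have h2 : ((((∑ m ∈ range M, b m) ^ 2 : ℝ≥0)) : ℝ≥0∞) ≤
      (((∑ m ∈ range M, ((m : ℝ≥0) + 1) * b m) * ∑ m ∈ range M, ((m : ℝ≥0) + 1)⁻¹ * b m : ℝ≥0) : ℝ≥0∞) :=
    ENNReal.coe_le_coe.2 h
  have h3 : ∀ m : ℕ, ((((m : ℝ≥0) + 1)⁻¹ : ℝ≥0) : ℝ≥0∞) = ((m : ℝ≥0∞) + 1)⁻¹ := by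
    intro m
    have hm : ((m : ℝ≥0) + 1) ≠ 0 := by positivity
    rw [ENNReal.coe_inv hm]
    push_cast
    rfl
  push_cast [h3] at h2
  exact h2

theorem an_log (g L W : ℕ → ℝ≥0∞) (hg0 : g 0 = 1) (hg : ∀ r, g (r + 1) = ∑ i ∈ range (r + 1), L i * g (r - i))
    (hW1 : ∀ r, W r ≤ 1) (hW : ∀ r, ∑ k ∈ range (r + 1), g k * g (r - k) ≤ W r) (N : ℕ) :
    ∑ r ∈ range N, g r ^ 2 / W r ≤ ∑ m ∈ range N, ((m : ℝ≥0∞) + 1)⁻¹ := by
  have hg1 : ∀ r, g r ≤ 1 := by
    intro r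
    refine le_trans ?_ ((hW r).trans (hW1 r))
    refine le_trans ?_ (Finset.single_le_sum (f := fun k => g k * g (r - k)) (fun _ _ => zero_le)
      (mem_range.2 (Nat.succ_pos r)))
    simp [hg0]
  have hL : ∀ D, ∑ i ∈ range D, L i ≤ 1 := fun D =>
    ZHW.anIrr L g hg0 hg1 (fun r => (hg r).ge) D
  set φ : PowerSeries ℝ≥0∞ := PowerSeries.X * PowerSeries.mk L with hφ
  set G : PowerSeries ℝ≥0∞ := PowerSeries.mk g with hG
  have hGφ : G = 1 + φ * G := by
    ext r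
    rcases r with _ | r
    · rw [hφ, map_add, mul_assoc, PowerSeries.coeff_zero_X_mul, hG, PowerSeries.coeff_mk, hg0]
      simp
    · rw [hφ, map_add, mul_assoc, PowerSeries.coeff_succ_X_mul, hG, PowerSeries.coeff_mk, hg,
        PowerSeries.coeff_mul, PowerSeries.coeff_one, if_neg (Nat.succ_ne_zero r), zero_add,
        Finset.Nat.sum_antidiagonal_eq_sum_range_succ
          (fun i j => PowerSeries.coeff i (PowerSeries.mk L) * PowerSeries.coeff j (PowerSeries.mk g)) r]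
      simp only [PowerSeries.coeff_mk]
  have hφ1 : ∀ N, ∑ r ∈ range N, PowerSeries.coeff r φ ≤ 1 := by
    intro N
    rcases N with _ | N
    · simp
    · rw [Finset.sum_range_succ', hφ, PowerSeries.coeff_zero_X_mul, add_zero]
      refine le_trans (le_of_eq ?_) (hL N)
      refine Finset.sum_congr rfl fun i _ => ?_
      rw [PowerSeries.coeff_succ_X_mul, PowerSeries.coeff_mk]
  have hp1 : ∀ m r, PowerSeries.coeff r (φ ^ m) ≤ 1 := by
    intro m r
    refine le_trans ?_ (anLog_pow_sum φ hφ1 m (r + 1))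
    exact Finset.single_le_sum (f := fun r => PowerSeries.coeff r (φ ^ m)) (fun _ _ => zero_le)
      (mem_range.2 (Nat.lt_succ_self r))
  have hgr : ∀ r M, r < M → g r = ∑ m ∈ range M, PowerSeries.coeff r (φ ^ m) := by
    intro r M hM
    have h := congrArg (PowerSeries.coeff r) (anLog_exp G φ hGφ M)
    rw [map_add, hφ, anLog_zero L G hM, add_zero, map_sum, hG, PowerSeries.coeff_mk] at h
    exact h
  have hWr : ∀ r M, r < M → ∑ m ∈ range M, ((m : ℝ≥0∞) + 1) * PowerSeries.coeff r (φ ^ m) ≤ W r := by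
    intro r M hM
    refine le_trans (le_of_eq ?_) (hW r)
    have h := congrArg (PowerSeries.coeff r) (anLog_exp2 G φ hGφ M)
    rw [map_add, hφ, anLog_zero L _ hM, add_zero, map_sum, hG, PowerSeries.coeff_mul,
      Finset.Nat.sum_antidiagonal_eq_sum_range_succ
        (fun i j => PowerSeries.coeff i (PowerSeries.mk g) * PowerSeries.coeff j (PowerSeries.mk g)) r] at h
    simp only [PowerSeries.coeff_mk] at h
    rw [h]
    refine Finset.sum_congr rfl fun m _ => ?_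
    have h5 : ((m : PowerSeries ℝ≥0∞) + 1) = PowerSeries.C ((m : ℝ≥0∞) + 1) := by
      simp
    rw [h5, PowerSeries.coeff_C_mul]
  have hmain : ∀ r ∈ range N, g r ^ 2 / W r ≤
      ∑ m ∈ range N, ((m : ℝ≥0∞) + 1)⁻¹ * PowerSeries.coeff r (φ ^ m) := by
    intro r hr
    refine ENNReal.div_le_of_le_mul ?_
    rw [hgr r N (mem_range.1 hr), mul_comm]
    exact (anLog_cs (fun m => PowerSeries.coeff r (φ ^ m)) (fun m => hp1 m r) N).trans
      (mul_le_mul' (hWr r N (mem_range.1 hr)) le_rfl)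
  refine (Finset.sum_le_sum hmain).trans ?_
  rw [Finset.sum_comm]
  refine Finset.sum_le_sum fun m _ => ?_
  rw [← Finset.mul_sum]
  calc ((m : ℝ≥0∞) + 1)⁻¹ * ∑ r ∈ range N, PowerSeries.coeff r (φ ^ m) ≤ ((m : ℝ≥0∞) + 1)⁻¹ * 1 :=
        mul_le_mul' le_rfl (anLog_pow_sum φ hφ1 m N)
    _ = ((m : ℝ≥0∞) + 1)⁻¹ := mul_one _

end Pool.Agent.ZCS
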