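import Mathlib

/-!
Module AnRen (analysis): renewal sequences. `f i` is the mass of the blocks of width `i + 1`, `u` the renewal sequence.

PAPER PROOF. `an_win`: for every `a` there is `φ : ℕ → ℝ≥0∞` with `∑' k, φ k ≤ 1` and `u (a + i) = ∑ k ≤ i, φ k * u (i - k)` for
all `i` (induction on `a`: `φ = 1` at `k = 0` for `a = 0`; `φ' k = φ (k + 1) + φ 0 * f k`). Then
`∑ i < n, u (a + i) = ∑ k < n, φ k * ∑ i < n - k, u i <= ∑ i < n, u i`. `an_sub`: `∑ i < m + n, u i = ∑ i < m, u i + ∑ i < n, u (m + i)`.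
`an_tail`: `A m = ∑ i ≤ m, u i * ∑' j, f (m - i + j) <= 1` by induction on `m`: `A 0 = ∑' f ≤ 1`; with `T k = ∑' j, f (k + j)`,
`T k = f k + T (k + 1)`: `A (m + 1) + ∑ i ≤ m, u i * f (m - i) = u (m + 1) * T 0 + ∑ i ≤ m, u i * T (m - i)`, that is
`A (m + 1) + u (m + 1) = u (m + 1) * T 0 + A m ≤ u (m + 1) + A m` (cancel `u (m + 1) ≤ 1 < ∞`).
`an_tail_sum`: sum `an_tail` over `m < 2 L + 1`: the double sum contains all `u i * T j` with `i, j ≤ L`, so
`(∑ i < L + 1, u i) * (∑ j < L + 1, T j) ≤ 2 L + 1`.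
-/

namespace Pool.Agent.ZCS

open Finset
open scoped ENNReal NNReal

private theorem an_phi (f u : ℕ → ℝ≥0∞) (hu0 : u 0 = 1)
    (hu : ∀ r, u (r + 1) = ∑ i ∈ range (r + 1), f i * u (r - i)) (hf : ∑' i, f i ≤ 1) (a : ℕ) :
    ∃ φ : ℕ → ℝ≥0∞, ∑' k, φ k ≤ 1 ∧ ∀ i, u (a + i) = ∑ k ∈ range (i + 1), φ k * u (i - k) := by
  induction a with
  | zero =>
    refine ⟨fun k => if k = 0 then 1 else 0, ?_, ?_⟩
    · rw [tsum_ite_eq]
    · intro i
      rw [Finset.sum_eq_single 0]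
      · simp
      · intro b _ hb
        simp [hb]
      · intro h
        exact absurd (Finset.mem_range.2 (Nat.succ_pos i)) h
  | succ a ih =>
    obtain ⟨φ, h1, h2⟩ := ih
    refine ⟨fun k => φ (k + 1) + φ 0 * f k, ?_, ?_⟩
    · rw [ENNReal.tsum_add, ENNReal.tsum_mul_left]
      calc ∑' k, φ (k + 1) + φ 0 * ∑' k, f k ≤ ∑' k, φ (k + 1) + φ 0 * 1 := by gcongr
        _ = φ 0 + ∑' k, φ (k + 1) := by rw [mul_one, add_comm]
        _ = ∑' k, φ k := (tsum_eq_zero_add' ENNReal.summable).symm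
        _ ≤ 1 := h1
    · intro i
      rw [show a + 1 + i = a + (i + 1) by ring, h2 (i + 1), Finset.sum_range_succ']
      simp only [Nat.add_sub_add_right, add_mul, Finset.sum_add_distrib, Nat.sub_zero]
      rw [hu i, Finset.mul_sum]
      simp only [mul_assoc]

private theorem an_conv_le (φ u : ℕ → ℝ≥0∞) (n : ℕ) :
    ∑ i ∈ range n, ∑ k ∈ range (i + 1), φ k * u (i - k) ≤
      (∑ k ∈ range n, φ k) * ∑ i ∈ range n, u i := by
  rw [Finset.sum_comm' (t' := range n) (s' := fun k => Ico k n) (by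
    intro x y
    simp only [mem_range, mem_Ico]
    omega), Finset.sum_mul]
  refine Finset.sum_le_sum fun k _ => ?_
  rw [← Finset.mul_sum, Finset.sum_Ico_eq_sum_range]
  refine mul_le_mul' le_rfl ?_
  calc ∑ i ∈ range (n - k), u (k + i - k) = ∑ i ∈ range (n - k), u i := by
        refine Finset.sum_congr rfl fun i _ => ?_
        rw [Nat.add_sub_cancel_left]
    _ ≤ ∑ i ∈ range n, u i :=
        Finset.sum_le_sum_of_subset (Finset.range_mono (Nat.sub_le n k))

theorem an_win (f u : ℕ → ℝ≥0∞) (hu0 : u 0 = 1) (hu : ∀ r, u (r + 1) = ∑ i ∈ range (r + 1), f i * u (r - i))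
    (hf : ∑' i, f i ≤ 1) (a n : ℕ) : ∑ i ∈ range n, u (a + i) ≤ ∑ i ∈ range n, u i := by
  obtain ⟨φ, h1, h2⟩ := an_phi f u hu0 hu hf a
  calc ∑ i ∈ range n, u (a + i) = ∑ i ∈ range n, ∑ k ∈ range (i + 1), φ k * u (i - k) :=
        Finset.sum_congr rfl fun i _ => h2 i
    _ ≤ (∑ k ∈ range n, φ k) * ∑ i ∈ range n, u i := an_conv_le φ u n
    _ ≤ 1 * ∑ i ∈ range n, u i := by
        gcongr
        exact (ENNReal.sum_le_tsum _).trans h1
    _ = ∑ i ∈ range n, u i := one_mul _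

theorem an_sub (f u : ℕ → ℝ≥0∞) (hu0 : u 0 = 1) (hu : ∀ r, u (r + 1) = ∑ i ∈ range (r + 1), f i * u (r - i))
    (hf : ∑' i, f i ≤ 1) (m n : ℕ) :
    ∑ i ∈ range (m + n), u i ≤ ∑ i ∈ range m, u i + ∑ i ∈ range n, u i := by
  rw [Finset.sum_range_add]
  exact add_le_add le_rfl (an_win f u hu0 hu hf m n)

theorem an_tail (f u : ℕ → ℝ≥0∞) (hu0 : u 0 = 1) (hu : ∀ r, u (r + 1) = ∑ i ∈ range (r + 1), f i * u (r - i))
    (hu1 : ∀ r, u r ≤ 1) (hf : ∑' i, f i ≤ 1) (m : ℕ) :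
    ∑ i ∈ range (m + 1), u i * ∑' j, f (m - i + j) ≤ 1 := by
  have hT : ∀ k, ∑' j, f (k + j) = f k + ∑' j, f (k + 1 + j) := by
    intro k
    rw [tsum_eq_zero_add' ENNReal.summable, Nat.add_zero]
    congr 1
    refine tsum_congr fun j => ?_
    rw [show k + (j + 1) = k + 1 + j by ring]
  induction m with
  | zero =>
    rw [Finset.sum_range_one, hu0, one_mul]
    simpa using hf
  | succ m ih =>
    have hA : ∑ i ∈ range (m + 1), u i * ∑' j, f (m - i + j) =
        u (m + 1) + ∑ i ∈ range (m + 1), u i * ∑' j, f (m + 1 - i + j) := by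
      have h1 : ∑ i ∈ range (m + 1), u i * f (m - i) = u (m + 1) := by
        rw [hu m, ← Finset.sum_range_reflect]
        refine Finset.sum_congr rfl fun i hi => ?_
        have hi' : i ≤ m := Nat.lt_succ_iff.1 (Finset.mem_range.1 hi)
        rw [Nat.add_sub_cancel, Nat.sub_sub_self hi', mul_comm]
      rw [← h1, ← Finset.sum_add_distrib]
      refine Finset.sum_congr rfl fun i hi => ?_
      have hi' : i ≤ m := Nat.lt_succ_iff.1 (Finset.mem_range.1 hi)
      rw [hT (m - i), mul_add, show m - i + 1 = m + 1 - i by omega]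
    have hfin : u (m + 1) ≠ ⊤ := ((hu1 (m + 1)).trans_lt ENNReal.one_lt_top).ne
    have h0 : ∑' j, f (m + 1 - (m + 1) + j) ≤ 1 := by
      simpa using hf
    have h3 : u (m + 1) + ∑ i ∈ range (m + 1 + 1), u i * ∑' j, f (m + 1 - i + j) ≤
        u (m + 1) + 1 := by
      rw [Finset.sum_range_succ]
      calc u (m + 1) + (∑ i ∈ range (m + 1), u i * ∑' j, f (m + 1 - i + j) +
              u (m + 1) * ∑' j, f (m + 1 - (m + 1) + j))
          = ∑ i ∈ range (m + 1), u i * ∑' j, f (m - i + j) +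
              u (m + 1) * ∑' j, f (m + 1 - (m + 1) + j) := by
            rw [hA, add_assoc]
        _ ≤ 1 + u (m + 1) * 1 := by gcongr
        _ = u (m + 1) + 1 := by rw [mul_one, add_comm]
    exact (ENNReal.add_le_add_iff_left hfin).1 h3

theorem an_tail_sum (f u : ℕ → ℝ≥0∞) (hu0 : u 0 = 1) (hu : ∀ r, u (r + 1) = ∑ i ∈ range (r + 1), f i * u (r - i))
    (hu1 : ∀ r, u r ≤ 1) (hf : ∑' i, f i ≤ 1) (L : ℕ) :
    (∑ i ∈ range (L + 1), u i) * (∑ m ∈ range (L + 1), ∑' j, f (m + j)) ≤ 2 * (L : ℝ≥0∞) + 1 := by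
  set T : ℕ → ℝ≥0∞ := fun k => ∑' j, f (k + j) with hT
  have h1 : (∑ i ∈ range (L + 1), u i) * (∑ m ∈ range (L + 1), T m) ≤
      ∑ m ∈ range (2 * L + 1), ∑ i ∈ range (m + 1), u i * T (m - i) := by
    rw [Finset.sum_mul_sum, ← Finset.sum_product']
    rw [← Finset.sum_fiberwise_of_maps_to (s := range (L + 1) ×ˢ range (L + 1))
      (t := range (2 * L + 1)) (g := fun p : ℕ × ℕ => p.1 + p.2) (by
        intro p hp
        simp only [mem_product, mem_range] at hp ⊢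
        omega)]
    refine Finset.sum_le_sum fun r _ => ?_
    rw [← Finset.Nat.sum_antidiagonal_eq_sum_range_succ (fun i j => u i * T j) r]
    refine Finset.sum_le_sum_of_subset ?_
    intro p hp
    simp only [mem_filter, mem_product, mem_range] at hp
    exact HasAntidiagonal.mem_antidiagonal.2 hp.2
  refine h1.trans ?_
  calc ∑ m ∈ range (2 * L + 1), ∑ i ∈ range (m + 1), u i * T (m - i)
      ≤ ∑ m ∈ range (2 * L + 1), (1 : ℝ≥0∞) :=
        Finset.sum_le_sum fun m _ => an_tail f u hu0 hu hu1 hf m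
    _ = 2 * (L : ℝ≥0∞) + 1 := by
        rw [Finset.sum_const, Finset.card_range, nsmul_eq_mul, mul_one]
        push_cast
        ring

end Pool.Agent.ZCS
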