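import Pool.Agent.ZCS.Defs
import Pool.Agent.ZHW.Basic

/-!
Module CrA: the farthest common renewal level of a decomposed pair.

PAPER PROOF. `cr_app`: `r` is a common renewal level (`A`, `A'`), and a common renewal level `r < m <= n` would be by
`Rn_append` (`m = r + (m - r)`) a common renewal level `1 <= m - r <= n - r` of `(B, B')`. `Nat.findGreatest` lemmas.
`Sg_app`: the common renewal levels `1 <= i <= n` of `(A ++ B, A' ++ B')` are `<= r` (as above, `Rn_append`), and for `i <= r`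
a decomposition `A ++ B = u ++ v`, `u ∈ CB t i`, `Ri v` has `A = u ++ w`, `v = w ++ B`, `Ri w` (otherwise `u = A ++ w`, `w <> []`,
`B = w ++ v`: as `u` is a cobridge its nonempty suffix `w` has `w.sum.1 > 0`, so `i = r + w.sum.1 > r`), and
conversely `A = u ++ w` with `Ri w`, `w ∈ CB t (r - i)` (`CB_split`) gives `Ri (w ++ B)` (`Ri_append`).
-/

namespace Pool.Agent.ZCS

open Pool.Agent.SHP Pool.Agent.ZHW Finset
open scoped ENNReal NNReal

variable {t : Bool}

theorem cr_app {n r : ℕ} (hr : r ≤ n) {A A' B B' : Wd} (hA : A ∈ CB t r) (hA' : A' ∈ CB t r) (hB : Ri B)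
    (hB' : Ri B') (hN : NC t (n - r) (B, B')) : cr t n (A ++ B) (A' ++ B') = r := by
  classical
  unfold cr
  rw [Nat.findGreatest_eq_iff]
  refine ⟨hr, fun _ => ⟨⟨A, B, rfl, hA, hB⟩, ⟨A', B', rfl, hA', hB'⟩⟩, ?_⟩
  rintro m hm hmn ⟨h1, h2⟩
  have e : m = r + (m - r) := by omega
  rw [e] at h1 h2
  exact hN (m - r) (by omega) (by omega) ⟨(Rn_append hA hB).1 h1, (Rn_append hA' hB').1 h2⟩

private theorem CrA_key {r i : ℕ} (hi : i ≤ r) {A B u v : Wd} (hA : A ∈ CB t r) (h : A ++ B = u ++ v)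
    (hu : u ∈ CB t i) (hv : Ri v) : ∃ w : Wd, A = u ++ w ∧ Ri w := by
  rcases List.append_eq_append_iff.1 h with ⟨w, hw, hw'⟩ | ⟨w, hw, hw'⟩
  · by_cases hn : w = []
    · subst hn
      exact ⟨[], by simpa using hw.symm, Ri_nil⟩
    · exfalso
      have h1 := hu.2.2.1 A w hw hn
      have h2 := hu.2.2.2
      have h3 := hA.2.2.2
      rw [hw, List.sum_append, Prod.fst_add] at h2
      omega
  · refine ⟨w, hw, fun a b hab => hv a (b ++ B) ?_⟩
    rw [hw', hab]
    simp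

private theorem CrA_pos {n r : ℕ} (hr : r ≤ n) {A A' B B' : Wd} (hA : A ∈ CB t r) (hA' : A' ∈ CB t r)
    (hB : Ri B) (hB' : Ri B') (hN : NC t (n - r) (B, B')) :
    PosN t n (A ++ B) (A' ++ B') ↔ PosN t r A A' := by
  constructor
  · intro h i hi hir u v u' v' h1 h2 hu hu' hv hv'
    refine h i hi (by omega) u (v ++ B) u' (v' ++ B') (by rw [h1]; simp) (by rw [h2]; simp) hu hu' ?_ ?_
    · exact Ri_append (CB_split hA h1 hu hv).2 hB
    · exact Ri_append (CB_split hA' h2 hu' hv').2 hB'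
  · intro h i hi hin u v u' v' h1 h2 hu hu' hv hv'
    by_cases hir : i ≤ r
    · obtain ⟨w, hw, hw1⟩ := CrA_key hir hA h1 hu hv
      obtain ⟨w', hw', hw1'⟩ := CrA_key hir hA' h2 hu' hv'
      exact h i hi hir u w u' w' hw hw' hu hu' hw1 hw1'
    · exfalso
      have e : i = r + (i - r) := by omega
      have r1 : Rn t i (A ++ B) := ⟨u, v, h1, hu, hv⟩
      have r2 : Rn t i (A' ++ B') := ⟨u', v', h2, hu', hv'⟩
      rw [e] at r1 r2
      exact hN (i - r) (by omega) (by omega) ⟨(Rn_append hA hB).1 r1, (Rn_append hA' hB').1 r2⟩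

theorem Sg_app {n r : ℕ} (hr : r ≤ n) {A A' B B' : Wd} (hA : A ∈ CB t r) (hA' : A' ∈ CB t r) (hB : Ri B)
    (hB' : Ri B') (hN : NC t (n - r) (B, B')) : Sg t n (A ++ B) (A' ++ B') ↔ Sg t r A A' := by
  unfold Sg
  rw [CrA_pos hr hA hA' hB hB' hN,
    CrA_pos hr hA' hA hB' hB (fun i h1 h2 h3 => hN i h1 h2 ⟨h3.2, h3.1⟩)]

end Pool.Agent.ZCS
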