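import Pool.Agent.ZCS.Defs
import Pool.Agent.ZHW.Flip
import Pool.Agent.ZHW.Basic
import Pool.Agent.ZHW.Beta

/-!
Module Fw: the flip on weak bridges, and elementary facts on the weighted sums.

PAPER PROOF. `fl_WB`: `fl t` of a decomposition: prefixes of `fl t l` are flips of suffixes of `l` and conversely (`fl_append`,
`fl_fl`, `fl_sum_fst`); self-avoiding as in `fl_CB`. `sm_fl`: `fl t` is an involution of `WB t d` (`Equiv` on the subtype) which
keeps the length (`fl_length`). `sm_mono`, `sm_one`, `sm_const`: definitions. `sp_CC_one`: `gf2_prod` and `gf_CB`.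
`gf_WB_le_inv`: `gf_WB_le` (ZHW/Basic) at `zc t`, `gf (CB t (q + 1)) = be t _ (q + 1) <= 1` (`gf_CB`, `be_le_one`), `zc_pos`.
`be_pos`: the straight word `List.replicate r (1, 0)` is in `BT t r` (or `be_add` and the word `[(1, 0)] ∈ CB t 1`, `gf_CB`).
`rho_mul`: `be` is neither `0` nor `∞`. `rho_le_one`: `GP t r ⊆ CC t r`, `sp_CC_one`.
-/

namespace Pool.Agent.ZCS

open Pool.Agent.SHP Pool.Agent.ZHW Finset
open scoped ENNReal NNReal

variable {t : Bool}

theorem fl_WB {d : ℕ} {l : Wd} (h : l ∈ WB t d) : fl t l ∈ WB t d := by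
  obtain ⟨hs, hr, hq, hd⟩ := h
  have hsplit : ∀ {u v : Wd}, fl t l = u ++ v → l = fl t v ++ fl t u := by
    intro u v h
    have h1 := congrArg (fl t) h
    rw [fl_fl, fl_append] at h1
    exact h1
  refine ⟨map_refl_saws (rev_mem_saws hs), ?_, ?_, ?_⟩
  · intro u v huv
    have h1 := hq _ _ (hsplit huv)
    rwa [fl_sum_fst] at h1
  · intro u v huv
    have h1 := hr _ _ (hsplit huv)
    rwa [fl_sum_fst] at h1
  · rw [fl_sum_fst, hd]

theorem sm_fl (d : ℕ) (F : Wd → ℝ≥0∞) : sm t d (fun X => F (fl t X)) = sm t d F := by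
  unfold sm
  let e : WB t d ≃ WB t d :=
    { toFun := fun l => ⟨fl t l, fl_WB l.2⟩
      invFun := fun l => ⟨fl t l, fl_WB l.2⟩
      left_inv := fun l => Subtype.ext (fl_fl _)
      right_inv := fun l => Subtype.ext (fl_fl _) }
  rw [← e.tsum_eq (fun l : WB t d => (zc t : ℝ≥0∞) ^ (l : Wd).length * F l)]
  refine tsum_congr fun l => ?_
  show _ = (zc t : ℝ≥0∞) ^ (fl t (l : Wd)).length * F (fl t (l : Wd))
  rw [fl_length]

theorem sm_mono {d : ℕ} {F G : Wd → ℝ≥0∞} (h : ∀ l ∈ WB t d, F l ≤ G l) : sm t d F ≤ sm t d G := by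
  unfold sm
  exact ENNReal.tsum_le_tsum fun l => mul_le_mul_right (h l l.2) _

theorem sm_congr {d : ℕ} {F G : Wd → ℝ≥0∞} (h : ∀ l ∈ WB t d, F l = G l) : sm t d F = sm t d G := by
  unfold sm
  exact tsum_congr fun l => by rw [h l l.2]

theorem sm_add (d : ℕ) (F G : Wd → ℝ≥0∞) : sm t d (fun l => F l + G l) = sm t d F + sm t d G := by
  unfold sm
  rw [← ENNReal.tsum_add]
  exact tsum_congr fun l => mul_add _ _ _

theorem sm_sum (d m : ℕ) (F : ℕ → Wd → ℝ≥0∞) :
    sm t d (fun l => ∑ i ∈ range m, F i l) = ∑ i ∈ range m, sm t d (F i) := by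
  induction m with
  | zero => simp [sm]
  | succ m ih =>
    rw [sum_range_succ, ← ih, ← sm_add]
    exact sm_congr fun l _ => sum_range_succ _ _

theorem sm_const_mul (d : ℕ) (c : ℝ≥0∞) (F : Wd → ℝ≥0∞) : sm t d (fun l => c * F l) = c * sm t d F := by
  unfold sm
  rw [← ENNReal.tsum_mul_left]
  exact tsum_congr fun l => by ring

theorem sm_one (d : ℕ) : sm t d (fun _ => 1) = gf (WB t d) (zc t) := by
  unfold sm gf
  exact tsum_congr fun l => mul_one _

theorem sp_one (A : Set (Wd × Wd)) : sp t A (fun _ => 1) = gf2 A (zc t) := by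
  unfold sp gf2
  exact tsum_congr fun l => mul_one _

theorem sp_const_mul (A : Set (Wd × Wd)) (c : ℝ≥0∞) (F : Wd × Wd → ℝ≥0∞) :
    sp t A (fun p => c * F p) = c * sp t A F := by
  unfold sp
  rw [← ENNReal.tsum_mul_left]
  exact tsum_congr fun l => by ring

theorem sp_CC_one (r : ℕ) : gf2 (CC t r) (zc t) = (be t (zc t) r) ^ 2 := by
  have h : CC t r = CB t r ×ˢ CB t r := rfl
  rw [h, gf2_prod, gf_CB, sq]

theorem be_pos (r : ℕ) : be t (zc t) r ≠ 0 := by
  have h1 : be t (zc t) 1 ≠ 0 := by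
    rw [← gf_CB]
    have hw : ([] : Wd) ∈ WB t 0 := CB_WB (by rw [CB_zero]; rfl)
    have hm : ([] ++ [(1, 0)] : Wd) ∈ CB t (0 + 1) := WB_step hw
    unfold gf
    intro h0
    rw [ENNReal.tsum_eq_zero] at h0
    have h2 := h0 ⟨[] ++ [(1, 0)], hm⟩
    have h3 : (zc t : ℝ≥0∞) ≠ 0 := by
      simpa using (zc_pos t).ne'
    exact pow_ne_zero _ h3 h2
  induction r with
  | zero => rw [be_zero]; exact one_ne_zero
  | succ r ih =>
    intro h0
    have h2 := be_add (t := t) (zc t) r 1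
    rw [h0, nonpos_iff_eq_zero, mul_eq_zero] at h2
    exact h2.elim ih h1

theorem rho_mul (r : ℕ) : rho t r * (be t (zc t) r) ^ 2 = gf2 (GP t r) (zc t) := by
  unfold rho
  refine ENNReal.div_mul_cancel (pow_ne_zero _ (be_pos r)) (ENNReal.pow_ne_top ?_)
  exact ne_top_of_le_ne_top ENNReal.one_ne_top (be_le_one r)

theorem rho_le_one (r : ℕ) : rho t r ≤ 1 := by
  unfold rho
  refine ENNReal.div_le_of_le_mul ?_
  rw [one_mul, ← sp_CC_one]
  exact gf2_mono_set (fun p hp => hp.1) _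

theorem gf_WB_le_inv (q : ℕ) : gf (WB t q) (zc t) ≤ (zc t : ℝ≥0∞)⁻¹ * be t (zc t) (q + 1) := by
  have h3 : (zc t : ℝ≥0∞) ≠ 0 := by
    simpa using (zc_pos t).ne'
  have h1 := gf_WB_le (t := t) q (zc t)
  rw [gf_CB] at h1
  calc gf (WB t q) (zc t) = (zc t : ℝ≥0∞)⁻¹ * ((zc t : ℝ≥0∞) * gf (WB t q) (zc t)) := by
        rw [← mul_assoc, ENNReal.inv_mul_cancel h3 ENNReal.coe_ne_top, one_mul]
    _ ≤ (zc t : ℝ≥0∞)⁻¹ * be t (zc t) (q + 1) := mul_le_mul_right h1 _

end Pool.Agent.ZCS
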