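import Pool.Agent.ZCS.PDec
import Pool.Agent.ZCS.CrA
import Pool.Agent.ZCS.Fw

/-!
Module Repl: in a pair of weak bridges the sign condition may be replaced by its conditional probability.

PAPER PROOF. `pair_dec` on both sides, then compare the terms for fixed `r ≤ n`. On the left the term is (`Sg_app`; `Ri B` from
`B ∈ WB t _`) the sum over `(A, A') ∈ CC t r`, `(B, B') ∈ NP t _ _ _` of `weight * (if Sg t r A A' then F (A ++ B) (A' ++ B') else 0)`.
Choose `C = C' = ` the straight word of width `r` (or any element of `CB t r`; `CB t r` is nonempty because `be t (zc t) r ≠ 0`):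
by `hF`, `F (A ++ B) (A' ++ B') = F (C ++ B) (C' ++ B') =: c(B, B')`, which does not depend on `(A, A')`. So the left term is
`gf2 (GP t r) (zc t) * T` with `T = sp t (NP t _ _ _) c` and the right term (`cr_app`) is `rho t r * gf2 (CC t r) (zc t) * T`. `rho_mul`,
`sp_CC_one`.
-/

namespace Pool.Agent.ZCS

open Pool.Agent.SHP Pool.Agent.ZHW Finset
open scoped ENNReal NNReal

variable {t : Bool}

private theorem Repl_sp_congr {A : Set (Wd × Wd)} {F G : Wd × Wd → ℝ≥0∞} (h : ∀ p ∈ A, F p = G p) :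
    sp t A F = sp t A G := by
  unfold sp
  exact tsum_congr (fun p => by rw [h p p.2])

open Classical in
private theorem Repl_sp_ite (r : ℕ) (T : ℝ≥0∞) :
    sp t (CC t r) (fun a => if Sg t r a.1 a.2 then T else 0) = gf2 (GP t r) (zc t) * T := by
  unfold sp gf2
  rw [← ENNReal.tsum_mul_right,
    tsum_subtype (CC t r) (fun p : Wd × Wd => (zc t : ℝ≥0∞) ^ (p.1.length + p.2.length) *
      (if Sg t r p.1 p.2 then T else 0)),
    tsum_subtype (GP t r) (fun p : Wd × Wd => (zc t : ℝ≥0∞) ^ (p.1.length + p.2.length) * T)]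
  refine tsum_congr (fun p => ?_)
  by_cases hC : p ∈ CC t r
  · by_cases hS : Sg t r p.1 p.2
    · rw [Set.indicator_of_mem hC, Set.indicator_of_mem (show p ∈ GP t r from ⟨hC, hS⟩), if_pos hS]
    · rw [Set.indicator_of_mem hC, Set.indicator_of_notMem (fun h : p ∈ GP t r => hS h.2), if_neg hS, mul_zero]
  · rw [Set.indicator_of_notMem hC, Set.indicator_of_notMem (fun h : p ∈ GP t r => hC h.1)]

private theorem Repl_CB_nonempty (r : ℕ) : ∃ C : Wd, C ∈ CB t r := by
  by_contra hne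
  push Not at hne
  have h1 : CB t r = ∅ := Set.eq_empty_of_forall_notMem hne
  apply be_pos (t := t) r
  rw [← gf_CB, h1]
  unfold gf
  simp

open Classical in
theorem repl {n h h' : ℕ} (hn : n ≤ h) (hh : h ≤ h') (F : Wd → Wd → ℝ≥0∞)
    (hF : ∀ r : ℕ, r ≤ n → ∀ A ∈ CB t r, ∀ A' ∈ CB t r, ∀ C ∈ CB t r, ∀ C' ∈ CB t r, ∀ B ∈ WB t (h' - r),
      ∀ B' ∈ WB t (h - r), F (A ++ B) (A' ++ B') = F (C ++ B) (C' ++ B')) :
    sm t h' (fun P => sm t h (fun Q => if Sg t n P Q then F P Q else 0)) =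
      sm t h' (fun P => sm t h (fun Q => rho t (cr t n P Q) * F P Q)) := by
  rw [pair_dec hn hh (fun P Q => if Sg t n P Q then F P Q else 0),
    pair_dec hn hh (fun P Q => rho t (cr t n P Q) * F P Q)]
  refine Finset.sum_congr rfl (fun r hr => ?_)
  have hrn : r ≤ n := by
    have := Finset.mem_range.1 hr
    omega
  obtain ⟨C, hC⟩ := Repl_CB_nonempty (t := t) r
  set T : ℝ≥0∞ := sp t (NP t (h' - r) (h - r) (n - r)) (fun b => F (C ++ b.1) (C ++ b.2)) with hT
  have hL : sp t (CC t r) (fun a => sp t (NP t (h' - r) (h - r) (n - r))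
      (fun b => if Sg t n (a.1 ++ b.1) (a.2 ++ b.2) then F (a.1 ++ b.1) (a.2 ++ b.2) else 0)) =
      sp t (CC t r) (fun a => if Sg t r a.1 a.2 then T else 0) := by
    refine Repl_sp_congr (fun a ha => ?_)
    by_cases hS : Sg t r a.1 a.2
    · rw [if_pos hS, hT]
      refine Repl_sp_congr (fun b hb => ?_)
      rw [if_pos ((Sg_app hrn ha.1 ha.2 hb.1.2.1 hb.2.1.2.1 hb.2.2).2 hS)]
      exact hF r hrn _ ha.1 _ ha.2 _ hC _ hC _ hb.1 _ hb.2.1
    · rw [if_neg hS]
      have h0 : sp t (NP t (h' - r) (h - r) (n - r))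
          (fun b => if Sg t n (a.1 ++ b.1) (a.2 ++ b.2) then F (a.1 ++ b.1) (a.2 ++ b.2) else 0) =
          sp t (NP t (h' - r) (h - r) (n - r)) (fun _ => 0) := by
        refine Repl_sp_congr (fun b hb => ?_)
        rw [if_neg (fun hh => hS ((Sg_app hrn ha.1 ha.2 hb.1.2.1 hb.2.1.2.1 hb.2.2).1 hh))]
      rw [h0]
      unfold sp
      simp
  have hR : sp t (CC t r) (fun a => sp t (NP t (h' - r) (h - r) (n - r))
      (fun b => rho t (cr t n (a.1 ++ b.1) (a.2 ++ b.2)) * F (a.1 ++ b.1) (a.2 ++ b.2))) =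
      sp t (CC t r) (fun _ => rho t r * T * 1) := by
    refine Repl_sp_congr (fun a ha => ?_)
    rw [mul_one, hT, ← sp_const_mul]
    refine Repl_sp_congr (fun b hb => ?_)
    rw [cr_app hrn ha.1 ha.2 hb.1.2.1 hb.2.1.2.1 hb.2.2]
    rw [hF r hrn _ ha.1 _ ha.2 _ hC _ hC _ hb.1 _ hb.2.1]
  rw [hL, hR, Repl_sp_ite, sp_const_mul, sp_one, sp_CC_one, ← rho_mul]
  ring

end Pool.Agent.ZCS
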