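import Pool.Agent.ZCS.Tail
import Pool.Agent.ZCS.Repl

/-!
Module Chain: the replacement of the sign conditions by their conditional probabilities along the chain.

`HD t h φ`: the function `φ` of a strand of width `h` does not change if the last `r` columns (`2 r < h`) are changed.

PAPER PROOF. `vh_near`: `fl t (A ++ B) = fl t B ++ fl t A`, `fl t B ∈ WB t (h - r)`, `fl t A ∈ BT t r` (`fl_WB`, `fl_BT`), and for `d < h`:
`n d <= d / 2 <= h - r` (`2 r <= h`), so `cr t (n d) (fl t (A ++ B)) Y = cr t (n d) (fl t B) Y` does not depend on `A` (`cr_tail`).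
`sg_hd`: for `2 r < d`, `fl t (C ++ B) = fl t B ++ fl t C`, `fl t B ∈ WB t (d - r)`, `n d <= d - r`, `Sg_tail`.
`chain_repl`: induction on `k` for all `h`, `φ`. `k = 0` trivial. Step: both sides are `sm t h φ + ∑ d < h, y ^ d * (...)` with
`(...) = sm t h (fun X => φ X * sm t d (fun Y => if Sg t (n d) (fl t X) Y then V t n y k d Y else 0))` on the left. For fixed `X` and `d < h`
apply the induction hypothesis at `d` with `φ' Y = if Sg t (n d) (fl t X) Y then 1 else 0` (`sg_hd`): `V` may be replaced by `Vh`. Then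
`sm_fl` (replace `X` by `fl t P`, `fl_fl`) and `repl` with `h' := h`, `h := d`, `n := n d` and
`F P Y = φ (fl t P) * Vh t n y k d Y`: the hypothesis `hF` holds by `HD t h φ` (`2 r <= 2 n d <= d < h`) and `vh_near` (`2 r <= 2 n d <= d`).
-/

namespace Pool.Agent.ZCS

open Pool.Agent.SHP Pool.Agent.ZHW Finset
open scoped ENNReal NNReal

variable {t : Bool}

/-- The function does not see the last columns of a strand of width `h`. -/
def HD (t : Bool) (h : ℕ) (φ : Wd → ℝ≥0∞) : Prop :=
  ∀ r : ℕ, 2 * r < h → ∀ C ∈ CB t r, ∀ C' ∈ CB t r, ∀ B ∈ WB t (h - r), φ (fl t (C ++ B)) = φ (fl t (C' ++ B))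

theorem vh_near {n : ℕ → ℕ} (hn : ∀ h, 2 * n h ≤ h) (y : ℝ≥0∞) (k : ℕ) {h r : ℕ} (hr : 2 * r ≤ h) {A C B : Wd}
    (hA : A ∈ CB t r) (hC : C ∈ CB t r) (hB : B ∈ WB t (h - r)) :
    Vh t n y k h (A ++ B) = Vh t n y k h (C ++ B) := by
  rcases k with _ | k
  · rfl
  · simp only [Vh]
    congr 1
    refine Finset.sum_congr rfl fun d hd => ?_
    rw [Finset.mem_range] at hd
    congr 1
    refine sm_congr fun Y _ => ?_
    have h1 : n d ≤ h - r := by
      have := hn d
      omega
    rw [fl_append, fl_append, cr_tail Y (fl_WB hB) (fl_BT hA) h1, cr_tail Y (fl_WB hB) (fl_BT hC) h1]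

open Classical in
theorem sg_hd {n : ℕ → ℕ} (hn : ∀ h, 2 * n h ≤ h) (d : ℕ) (P : Wd) :
    HD t d (fun Y => if Sg t (n d) P Y then 1 else 0) := by
  intro r hr C hC C' hC' B hB
  have h1 : n d ≤ d - r := by
    have := hn d
    omega
  have e : Sg t (n d) P (fl t (C ++ B)) ↔ Sg t (n d) P (fl t (C' ++ B)) := by
    rw [fl_append, fl_append, Sg_tail P (fl_WB hB) (fl_BT hC) h1, Sg_tail P (fl_WB hB) (fl_BT hC') h1]
  show (if Sg t (n d) P (fl t (C ++ B)) then (1 : ℝ≥0∞) else 0) =
    if Sg t (n d) P (fl t (C' ++ B)) then (1 : ℝ≥0∞) else 0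
  by_cases h2 : Sg t (n d) P (fl t (C ++ B))
  · rw [if_pos h2, if_pos (e.1 h2)]
  · rw [if_neg h2, if_neg (fun h3 => h2 (e.2 h3))]

private theorem Chain_expand (h : ℕ) (y : ℝ≥0∞) (φ : Wd → ℝ≥0∞) (G : ℕ → Wd → ℝ≥0∞) :
    sm t h (fun X => φ X * (1 + ∑ d ∈ range h, y ^ d * G d X)) =
      sm t h φ + ∑ d ∈ range h, y ^ d * sm t h (fun X => φ X * G d X) := by
  have e : (fun X => φ X * (1 + ∑ d ∈ range h, y ^ d * G d X)) =
      fun X => φ X + ∑ d ∈ range h, y ^ d * (φ X * G d X) := by
    funext X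
    rw [mul_add, mul_one, Finset.mul_sum]
    congr 1
    exact Finset.sum_congr rfl fun d _ => by ring
  rw [e, sm_add, sm_sum]
  congr 1
  exact Finset.sum_congr rfl fun d _ => sm_const_mul _ _ _

open Classical in
private theorem Chain_step {n : ℕ → ℕ} (hn : ∀ h, 2 * n h ≤ h) (y : ℝ≥0∞) (k : ℕ) {h d : ℕ} (hd : d < h)
    (φ : Wd → ℝ≥0∞) (hφ : HD t h φ) :
    sm t h (fun X => φ X * sm t d (fun Y => if Sg t (n d) (fl t X) Y then Vh t n y k d Y else 0)) =
      sm t h (fun X => φ X * sm t d (fun Y => rho t (cr t (n d) (fl t X) Y) * Vh t n y k d Y)) := by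
  have hnd := hn d
  rw [← sm_fl h (fun X => φ X * sm t d (fun Y => if Sg t (n d) (fl t X) Y then Vh t n y k d Y else 0)),
    ← sm_fl h (fun X => φ X * sm t d (fun Y => rho t (cr t (n d) (fl t X) Y) * Vh t n y k d Y))]
  have key := repl (t := t) (n := n d) (h := d) (h' := h) (by omega) hd.le
    (fun P Y => φ (fl t P) * Vh t n y k d Y) (by
      intro r hr A hA A' hA' C hC C' hC' B hB B' hB'
      show φ (fl t (A ++ B)) * Vh t n y k d (A' ++ B') = φ (fl t (C ++ B)) * Vh t n y k d (C' ++ B')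
      rw [hφ r (by omega) A hA C hC B hB, vh_near hn y k (by omega) hA' hC' hB'])
  calc _ = sm t h (fun P => sm t d (fun Y => if Sg t (n d) P Y then φ (fl t P) * Vh t n y k d Y else 0)) := by
        refine sm_congr fun P _ => ?_
        show φ (fl t P) * sm t d (fun Y => if Sg t (n d) (fl t (fl t P)) Y then Vh t n y k d Y else 0) = _
        rw [fl_fl, ← sm_const_mul]
        refine sm_congr fun Y _ => ?_
        show φ (fl t P) * (if Sg t (n d) P Y then Vh t n y k d Y else 0) =
          if Sg t (n d) P Y then φ (fl t P) * Vh t n y k d Y else 0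
        split_ifs
        · rfl
        · rw [mul_zero]
    _ = sm t h (fun P => sm t d (fun Y => rho t (cr t (n d) P Y) * (φ (fl t P) * Vh t n y k d Y))) := key
    _ = _ := by
        refine sm_congr fun P _ => ?_
        show _ = φ (fl t P) * sm t d (fun Y => rho t (cr t (n d) (fl t (fl t P)) Y) * Vh t n y k d Y)
        rw [fl_fl, ← sm_const_mul]
        exact sm_congr fun Y _ => by ring

theorem chain_repl {n : ℕ → ℕ} (hn : ∀ h, 2 * n h ≤ h) (y : ℝ≥0∞) (k h : ℕ) (φ : Wd → ℝ≥0∞) (hφ : HD t h φ) :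
    sm t h (fun X => φ X * V t n y k h X) = sm t h (fun X => φ X * Vh t n y k h X) := by
  classical
  induction k generalizing h φ with
  | zero => rfl
  | succ k ih =>
    simp only [V, Vh]
    rw [Chain_expand h y φ (fun d X => sm t d (fun Y => if Sg t (n d) (fl t X) Y then V t n y k d Y else 0)),
      Chain_expand h y φ (fun d X => sm t d (fun Y => rho t (cr t (n d) (fl t X) Y) * Vh t n y k d Y))]
    congr 1
    refine Finset.sum_congr rfl fun d hd => ?_
    rw [Finset.mem_range] at hd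
    congr 1
    rw [← Chain_step hn y k hd φ hφ]
    refine sm_congr fun X _ => ?_
    congr 1
    have h1 := ih d (fun Y => if Sg t (n d) (fl t X) Y then 1 else 0) (sg_hd hn d (fl t X))
    have e : ∀ W : Wd → ℝ≥0∞, sm t d (fun Y => (if Sg t (n d) (fl t X) Y then 1 else 0) * W Y) =
        sm t d (fun Y => if Sg t (n d) (fl t X) Y then W Y else 0) := by
      intro W
      refine sm_congr fun Y _ => ?_
      split_ifs
      · rw [one_mul]
      · rw [zero_mul]
    rw [e, e] at h1
    exact h1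

end Pool.Agent.ZCS
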