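import Pool.Agent.ZCS.Defs
import Pool.Agent.ZHW.Sup

/-!
Module CsW: pairs of weak bridges without common renewal level have bounded total mass.

PAPER PROOF. The map `(P, Q) ↦ (P ++ [(1, 0)], Q)` is an injection of `NP t (a + s) a a` into `CS t (s + 1) a` (`WB_step`;
`a + s + 1 = a + (s + 1)`), the length grows by `1`: a common renewal level `1 <= i <= a` of `(P ++ [(1, 0)], Q)` is one of `(P, Q)`:
`P ++ [(1, 0)] = u ++ v`, `u ∈ CB t i`, `u.sum.1 = i <= a + s < (P ++ [(1, 0)]).sum.1`, so `u` is a prefix of `P`, `P = u ++ w`,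
`v = w ++ [(1, 0)]`, prefixes of `w` are prefixes of `v`. So `zc t * gf2 (NP t (a + s) a a) (zc t) <= gf2 (CS t (s + 1) a) (zc t)`
(`gf2_le_of_inj` with `k = 1`), and `cs_sum`.
-/

namespace Pool.Agent.ZCS

open Pool.Agent.SHP Pool.Agent.ZHW Finset
open scoped ENNReal NNReal

variable {t : Bool}

private theorem CsW_rn {i k : ℕ} {P : Wd} (hP : P.sum.1 = (k : ℤ)) (hi : i ≤ k)
    (h : Rn t i (P ++ [(1, 0)])) : Rn t i P := by
  obtain ⟨u, v, he, hu, hv⟩ := h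
  have hsum : (P ++ [((1 : ℤ), (0 : ℤ))]).sum.1 = (k : ℤ) + 1 := by
    rw [fst_sum_append, hP]
    simp
  have hu1 := hu.2.2.2
  have hvn : v ≠ [] := by
    intro h0
    subst h0
    rw [List.append_nil] at he
    rw [he, hu1] at hsum
    omega
  have hv2 : ∃ w : Wd, v = w ++ [(1, 0)] ∧ P = u ++ w := by
    rcases List.append_eq_append_iff.1 he with ⟨d, hd, hd'⟩ | ⟨d, hd, hd'⟩
    · -- u = P ++ d, [(1,0)] = d ++ v
      have hl := congrArg List.length hd'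
      simp only [List.length_append, List.length_cons, List.length_nil] at hl
      have hvl : 0 < v.length := List.length_pos_iff.2 hvn
      have hdn : d = [] := List.eq_nil_of_length_eq_zero (by omega)
      subst hdn
      refine ⟨[], ?_, ?_⟩
      · rw [List.nil_append] at hd' ⊢
        exact hd'.symm
      · rw [hd]
        simp
    · exact ⟨d, hd', hd⟩
  obtain ⟨w, hw, hPw⟩ := hv2
  refine ⟨u, w, hPw, hu, ?_⟩
  intro a b hab
  refine hv a (b ++ [(1, 0)]) ?_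
  rw [hw, hab]
  simp

theorem csw (s D : ℕ) :
    ∑ a ∈ range D, gf2 (NP t (a + s) a a) (zc t) ≤ (zc t : ℝ≥0∞)⁻¹ * (zc t : ℝ≥0∞)⁻¹ := by
  have hz : (zc t : ℝ≥0∞) ≠ 0 := by
    have := zc_pos t
    exact_mod_cast this.ne'
  have hone : ∀ a : ℕ, gf2 (NP t (a + s) a a) (zc t) ≤
      (zc t : ℝ≥0∞)⁻¹ * gf2 (CS t (s + 1) a) (zc t) := by
    intro a
    have h := gf2_le_of_inj (A := NP t (a + s) a a) (B := CS t (s + 1) a) (zc t) 1
      (fun p => (p.1 ++ [(1, 0)], p.2)) ?_ ?_ ?_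
    · rw [pow_one] at h
      calc gf2 (NP t (a + s) a a) (zc t)
          = (zc t : ℝ≥0∞)⁻¹ * ((zc t : ℝ≥0∞) * gf2 (NP t (a + s) a a) (zc t)) := by
            rw [← mul_assoc, ENNReal.inv_mul_cancel hz ENNReal.coe_ne_top, one_mul]
        _ ≤ (zc t : ℝ≥0∞)⁻¹ * gf2 (CS t (s + 1) a) (zc t) := by gcongr
    · rintro ⟨P, Q⟩ ⟨hP, hQ, hN⟩
      refine ⟨?_, hQ, ?_⟩
      · exact WB_step hP
      · intro i h1 h2 h3
        exact hN i h1 h2 ⟨CsW_rn hP.2.2.2 (by omega) h3.1, h3.2⟩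
    · rintro ⟨P, Q⟩ _ ⟨P', Q'⟩ _ h
      have h1 := congrArg Prod.fst h
      have h2 := congrArg Prod.snd h
      simp only at h1 h2
      rw [List.append_cancel_right h1, h2]
    · rintro ⟨P, Q⟩ _
      simp
      omega
  calc ∑ a ∈ range D, gf2 (NP t (a + s) a a) (zc t)
      ≤ ∑ a ∈ range D, (zc t : ℝ≥0∞)⁻¹ * gf2 (CS t (s + 1) a) (zc t) :=
        Finset.sum_le_sum fun a _ => hone a
    _ = (zc t : ℝ≥0∞)⁻¹ * ∑ a ∈ range D, gf2 (CS t (s + 1) a) (zc t) := by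
        rw [Finset.mul_sum]
    _ ≤ (zc t : ℝ≥0∞)⁻¹ * (zc t : ℝ≥0∞)⁻¹ := by
        gcongr
        exact cs_sum s D

end Pool.Agent.ZCS
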