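import Pool.Agent.ZCS.Fw

/-!
Module ERec: the recursion of the second component.

PAPER PROOF. `(OE (k+2)).2 m = 1 + ∑ d < m, y^d * sm t d ((OE (k+1)).1 d)` and
`sm t d ((OE (k+1)).1 d) = gf (WB t d) (zc t) + ∑ e < d, y^e * (J t n d e * (OE k).2 e)` (`sm_add`, `sm_sum`, `sm_const_mul`, `sm_one`, and
`sm t d (fun X => sm t e (fun Y => rho t (cr t (n e) (fl t X) Y) ^ 2)) = J t n d e` by `sm_fl`). The sum over `a < m` is at most the
sum over `a < m + 1`. `e_sup`: `S m = ⨆ k, (OE k).2 m`; `(OE 0).2 m = 1`, `(OE 1).2 m = 1 + ∑ d < m, y^d * gf (WB t d) (zc t)` (`sm_one`);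
`iSup_le`, `le_iSup`.
-/

namespace Pool.Agent.ZCS

open Pool.Agent.SHP Pool.Agent.ZHW Finset
open scoped ENNReal NNReal

variable {t : Bool}

private lemma eRec_fst (n : ℕ → ℕ) (y : ℝ≥0∞) (k d : ℕ) : sm t d ((OE t n y (k + 1)).1 d) =
    gf (WB t d) (zc t) + ∑ e ∈ range d, J t n d e * y ^ e * (OE t n y k).2 e := by
  have h1 : (OE t n y (k + 1)).1 d = fun X => 1 + ∑ e ∈ range d, (y ^ e * (OE t n y k).2 e) *
      sm t e (fun Y => rho t (cr t (n e) (fl t X) Y) ^ 2) := by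
    funext X
    show 1 + ∑ e ∈ range d, y ^ e *
        (sm t e (fun Y => rho t (cr t (n e) (fl t X) Y) ^ 2) * (OE t n y k).2 e) = _
    congr 1
    refine Finset.sum_congr rfl fun e _ => ?_
    ring
  rw [h1, sm_add d (fun _ => 1) (fun X => ∑ e ∈ range d, (y ^ e * (OE t n y k).2 e) *
      sm t e (fun Y => rho t (cr t (n e) (fl t X) Y) ^ 2)), sm_one,
    sm_sum d d (fun e X => (y ^ e * (OE t n y k).2 e) *
      sm t e (fun Y => rho t (cr t (n e) (fl t X) Y) ^ 2))]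
  congr 1
  refine Finset.sum_congr rfl fun e _ => ?_
  rw [sm_const_mul d (y ^ e * (OE t n y k).2 e)
    (fun X => sm t e (fun Y => rho t (cr t (n e) (fl t X) Y) ^ 2)),
    sm_fl d (fun X => sm t e (fun Y => rho t (cr t (n e) X Y) ^ 2))]
  show (y ^ e * (OE t n y k).2 e) * J t n d e = _
  ring

private lemma eRec_eq (n : ℕ → ℕ) (y : ℝ≥0∞) (k m : ℕ) : (OE t n y (k + 2)).2 m =
    (1 + ∑ d ∈ range m, y ^ d * gf (WB t d) (zc t)) +
      ∑ a ∈ range m, ∑ b ∈ range a, J t n a b * y ^ (a + b) * (OE t n y k).2 b := by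
  show 1 + ∑ d ∈ range m, y ^ d * sm t d ((OE t n y (k + 1)).1 d) = _
  rw [add_assoc, ← Finset.sum_add_distrib]
  congr 1
  refine Finset.sum_congr rfl fun d _ => ?_
  rw [eRec_fst, mul_add, Finset.mul_sum]
  congr 1
  refine Finset.sum_congr rfl fun e _ => ?_
  rw [pow_add]
  ring

theorem e_rec (n : ℕ → ℕ) (y : ℝ≥0∞) (k m : ℕ) : (OE t n y (k + 2)).2 m ≤
    (1 + ∑ d ∈ range m, y ^ d * gf (WB t d) (zc t)) +
      ∑ a ∈ range (m + 1), ∑ b ∈ range a, J t n a b * y ^ (a + b) * (OE t n y k).2 b := by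
  rw [eRec_eq, Finset.sum_range_succ _ m]
  exact add_le_add le_rfl le_self_add

theorem e_sup (n : ℕ → ℕ) (y : ℝ≥0∞) (m : ℕ) : (⨆ k, (OE t n y k).2 m) ≤
    (1 + ∑ d ∈ range m, y ^ d * gf (WB t d) (zc t)) +
      ∑ a ∈ range (m + 1), ∑ b ∈ range a, J t n a b * y ^ (a + b) * (⨆ k, (OE t n y k).2 b) := by
  refine iSup_le fun k => ?_
  rcases k with _ | _ | k
  · exact le_trans le_self_add le_self_add
  · have h1 : (OE t n y (0 + 1)).2 m = 1 + ∑ d ∈ range m, y ^ d * gf (WB t d) (zc t) := by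
      show 1 + ∑ d ∈ range m, y ^ d * sm t d (fun _ => 1) = _
      congr 1
      exact Finset.sum_congr rfl fun d _ => by rw [sm_one]
    rw [h1]
    exact le_self_add
  · refine (e_rec n y k m).trans (add_le_add le_rfl ?_)
    refine Finset.sum_le_sum fun a _ => Finset.sum_le_sum fun b _ => ?_
    exact mul_le_mul_right (le_iSup (fun k => (OE t n y k).2 b) k) _

end Pool.Agent.ZCS
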