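import Pool.Agent.ZCS.FinC
import Pool.Agent.ZHW.Split

/-!
Module FinalC: the theorem in the plane.

PAPER PROOF. As ZHW/Final: `a_eq`, `muL_eq` (SHP/Plane) and `cnt_le`. `P (lat t) k >= cnt (saws t) (2 k) / a ^ 2
>= mu ^ (2 k) / (mu ^ k exp (..)) ^ 2` by `pairs_ge` (ZHW/Split) and `mu_pow_le` (SHP/Crit). `L = square` or `triangular` is `lat t` for some `t`.
-/

namespace Pool.Agent.ZCS

open Pool.Agent.SHP Pool.Agent.SHP.Plane Pool.Agent.ZHW

private theorem FinalC_lat (t : Bool) : ∃ C : ℝ, 0 < C ∧ ∀ k : ℕ,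
    a (lat t) k ≤ muL (lat t) ^ k * Real.exp (C * ((k : ℝ) * Real.log ((k : ℝ) + 2)) ^ (1 / 3 : ℝ)) ∧
    Real.exp (-(C * ((k : ℝ) * Real.log ((k : ℝ) + 2)) ^ (1 / 3 : ℝ))) ≤ P (lat t) k := by
  obtain ⟨C, hC, h⟩ := Pool.Agent.ZCS.cnt_le t
  refine ⟨2 * C, by positivity, fun n => ?_⟩
  have hmu : 0 < mu t := lt_of_lt_of_le one_pos (one_le_mu t)
  have hl : 0 ≤ Real.log ((n : ℝ) + 2) := Real.log_nonneg (by
    have : (0 : ℝ) ≤ (n : ℝ) := Nat.cast_nonneg n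
    linarith)
  have hx : 0 ≤ ((n : ℝ) * Real.log ((n : ℝ) + 2)) ^ (1 / 3 : ℝ) := by positivity
  have h1 := h n
  set x : ℝ := ((n : ℝ) * Real.log ((n : ℝ) + 2)) ^ (1 / 3 : ℝ)
  have hmun : 0 < mu t ^ n := pow_pos hmu n
  constructor
  · rw [a_eq, muL_eq]
    refine h1.trans (mul_le_mul_of_nonneg_left (Real.exp_le_exp.2 ?_) hmun.le)
    nlinarith
  · have h2 := mu_pow_le t (2 * n)
    have h3 := pairs_ge t n
    have ha : 0 < (cnt (saws t) n : ℝ) := lt_of_lt_of_le hmun (mu_pow_le t n)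
    unfold P
    rw [a_eq, le_div_iff₀ (by positivity)]
    have h4 : (cnt (saws t) n : ℝ) ^ 2 ≤ (mu t ^ n * Real.exp (C * x)) ^ 2 :=
      pow_le_pow_left₀ ha.le h1 2
    calc Real.exp (-(2 * C * x)) * (cnt (saws t) n : ℝ) ^ 2
        ≤ Real.exp (-(2 * C * x)) * (mu t ^ n * Real.exp (C * x)) ^ 2 :=
          mul_le_mul_of_nonneg_left h4 (Real.exp_pos _).le
      _ = mu t ^ (2 * n) * (Real.exp (-(2 * C * x)) * (Real.exp (C * x)) ^ 2) := by
          rw [mul_pow, ← pow_mul, mul_comm n 2]; ring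
      _ = mu t ^ (2 * n) := by
          rw [← Real.exp_nat_mul, ← Real.exp_add]
          have : -(2 * C * x) + ((2 : ℕ) : ℝ) * (C * x) = 0 := by push_cast; ring
          rw [this, Real.exp_zero, mul_one]
      _ ≤ _ := h2.trans h3

theorem final (L : Set ℂ) (hL : L = square ∨ L = triangular) : ∃ C : ℝ, 0 < C ∧ ∀ k : ℕ,
    a L k ≤ muL L ^ k * Real.exp (C * ((k : ℝ) * Real.log ((k : ℝ) + 2)) ^ (1 / 3 : ℝ)) ∧
    Real.exp (-(C * ((k : ℝ) * Real.log ((k : ℝ) + 2)) ^ (1 / 3 : ℝ))) ≤ P L k := by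
  rcases hL with h | h
  · have := FinalC_lat false
    simpa [lat, h] using this
  · have := FinalC_lat true
    simpa [lat, h] using this

end Pool.Agent.ZCS
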