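import Pool.Agent.ZCS.Defs
import Pool.Agent.ZHW.Nu
import Pool.Agent.ZHW.ArcRec

/-!
Module GpB: ordered pairs of cobridges against the positive block sequences.

PAPER PROOF. `ipd_sum`: partition of `IP t i` by the value of `δ` (this is the private `Nu_part` in ZHW/Nu, copy it); `ipd_symm`:
exchange of the two walks (`Nu_swap`, `Nu_le` there). `ap_le`: strong induction on `r` for all `x`: `AP_zero`, `arc_rec`
(ZHW/ArcRec), `gw_zero`, `gw_succ`. `gp_le`: `GP t r` is contained in the union of `AP t 0 r` and its image under `Prod.swap`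
(`Pos t 0 p` asks for `0 < 0 + (u.sum.2 - u'.sum.2)` at all common renewal levels `i >= 1`; those of a pair in `CC t r` are `<= r`
by `CB_split`); so `gf2 (GP t r) z <= 2 * gf2 (AP t 0 r) z` (`gf2_union_le`, `gf2_mono_set`, `gf2_le_of_inj`).
-/

namespace Pool.Agent.ZCS

open Pool.Agent.SHP Pool.Agent.ZHW Finset
open scoped ENNReal NNReal

variable {t : Bool}

private theorem GpB_swap {i : ℕ} {δ : ℤ} {p : Wd × Wd} (hp : p ∈ IPd t i δ) :
    p.swap ∈ IPd t i (-δ) := by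
  obtain ⟨⟨h1, h2, h3⟩, h4⟩ := hp
  refine ⟨⟨h2, h1, fun j hj1 hj2 hj => h3 j hj1 hj2 ⟨hj.2, hj.1⟩⟩, ?_⟩
  simp only [Prod.fst_swap, Prod.snd_swap]
  omega

private theorem GpB_le (z : ℝ≥0) (i : ℕ) (δ : ℤ) : gf2 (IPd t i δ) z ≤ gf2 (IPd t i (-δ)) z := by
  have h := gf2_le_of_inj (A := IPd t i δ) (B := IPd t i (-δ)) z 0 Prod.swap
    (fun a ha => GpB_swap ha) (Prod.swap_injective.injOn)
    (fun a _ => by simp only [Prod.fst_swap, Prod.snd_swap]; omega)
  rwa [pow_zero, one_mul] at h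

theorem ipd_sum (z : ℝ≥0) (i : ℕ) : ∑' δ : ℤ, gf2 (IPd t i δ) z = gf2 (IP t i) z := by
  unfold gf2
  have h1 : ∀ δ : ℤ, (∑' l : IPd t i δ, (z : ℝ≥0∞) ^ ((l : Wd × Wd).1.length +
      (l : Wd × Wd).2.length)) = ∑' l : IP t i, if (l : Wd × Wd).1.sum.2 - (l : Wd × Wd).2.sum.2 = δ
        then (z : ℝ≥0∞) ^ ((l : Wd × Wd).1.length + (l : Wd × Wd).2.length) else 0 := by
    intro δ
    rw [tsum_subtype (IPd t i δ) (fun l : Wd × Wd => (z : ℝ≥0∞) ^ (l.1.length + l.2.length)),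
      tsum_subtype (IP t i) (fun l : Wd × Wd => if l.1.sum.2 - l.2.sum.2 = δ then
        (z : ℝ≥0∞) ^ (l.1.length + l.2.length) else 0)]
    refine tsum_congr fun l => ?_
    by_cases h : l ∈ IP t i
    · by_cases h2 : l.1.sum.2 - l.2.sum.2 = δ
      · rw [Set.indicator_of_mem (show l ∈ IPd t i δ from ⟨h, h2⟩), Set.indicator_of_mem h,
          if_pos h2]
      · rw [Set.indicator_of_notMem (fun h3 : l ∈ IPd t i δ => h2 h3.2), Set.indicator_of_mem h,
          if_neg h2]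
    · rw [Set.indicator_of_notMem (fun h3 : l ∈ IPd t i δ => h h3.1), Set.indicator_of_notMem h]
  rw [tsum_congr h1, ENNReal.tsum_comm]
  refine tsum_congr fun l => ?_
  exact (tsum_eq_single _ (fun b hb => if_neg (Ne.symm hb))).trans (if_pos rfl)

theorem ipd_symm (z : ℝ≥0) (i : ℕ) (δ : ℤ) : gf2 (IPd t i (-δ)) z = gf2 (IPd t i δ) z := by
  refine le_antisymm ?_ (GpB_le z i δ)
  have := GpB_le (t := t) z i (-δ)
  rwa [neg_neg] at this

theorem ap_le (z : ℝ≥0) (r : ℕ) (x : ℤ) : gf2 (AP t x r) z ≤ gw (fun i δ => gf2 (IPd t i δ) z) r x := by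
  induction r using Nat.strong_induction_on generalizing x with
  | _ r ih =>
    cases r with
    | zero =>
      rw [gw_zero]
      exact AP_zero x z
    | succ r =>
      refine (arc_rec x r z).trans ?_
      rw [gw_succ]
      refine Finset.sum_le_sum fun i _ => ENNReal.tsum_le_tsum fun δ => ?_
      by_cases h : 0 < x + δ
      · rw [if_pos h, if_pos h]
        exact mul_le_mul_right (ih (r - i) (by omega) (x + δ)) _
      · rw [if_neg h, if_neg h]

private theorem GpB_sub (r : ℕ) : GP t r ⊆ AP t 0 r ∪ {p | p.swap ∈ AP t 0 r} := by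
  rintro p ⟨⟨hP, hQ⟩, h | h⟩
  · refine Or.inl ⟨hP, hQ, ?_⟩
    intro i hi u v u' v' hp hq hu hu' hv hv'
    have h1 := h i hi (CB_split hP hp hu hv).1 u v u' v' hp hq hu hu' hv hv'
    omega
  · refine Or.inr ⟨hQ, hP, ?_⟩
    intro i hi u v u' v' hp hq hu hu' hv hv'
    have h1 := h i hi (CB_split hQ hp hu hv).1 u v u' v' hp hq hu hu' hv hv'
    omega

theorem gp_le (z : ℝ≥0) (r : ℕ) : gf2 (GP t r) z ≤ 2 * gw (fun i δ => gf2 (IPd t i δ) z) r 0 := by
  have h1 := gf2_le_of_inj (A := {p : Wd × Wd | p.swap ∈ AP t 0 r}) (B := AP t 0 r) z 0 Prod.swap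
    (fun a ha => ha) (Prod.swap_injective.injOn)
    (fun a _ => by simp only [Prod.fst_swap, Prod.snd_swap]; omega)
  rw [pow_zero, one_mul] at h1
  calc gf2 (GP t r) z ≤ gf2 (AP t 0 r ∪ {p | p.swap ∈ AP t 0 r}) z := gf2_mono_set (GpB_sub r) z
    _ ≤ gf2 (AP t 0 r) z + gf2 {p : Wd × Wd | p.swap ∈ AP t 0 r} z := gf2_union_le _ _ _
    _ ≤ gf2 (AP t 0 r) z + gf2 (AP t 0 r) z := add_le_add le_rfl h1
    _ = 2 * gf2 (AP t 0 r) z := (two_mul _).symm
    _ ≤ _ := mul_le_mul_right (ap_le z r 0) _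

end Pool.Agent.ZCS
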