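import Pool.Agent.ZCS.Defs

/-!
Module LadR: the positive block sequences form a renewal sequence (factorisation at the future minima).

PAPER PROOF. In words: `gw c r 0` is the mass of the lists of blocks `(i, δ)` of total width `r` (width of a block `i + 1`) all of whose
nonempty prefixes have positive sum of the `δ`. Let `G` be the set of these lists, and `K` the set of the nonempty `l ∈ G` such
that every proper nonempty prefix has sum `>=` the sum of `l`. A nonempty `l ∈ G` is uniquely `a ++ b` with `a ∈ K`, `b ∈ G`: `a` is the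
shortest nonempty prefix such that all longer prefixes of `l` have larger sum. Conversely `a ++ b ∈ G` for `a ∈ K`, `b ∈ G`, and `a` is this
shortest prefix (for a shorter nonempty prefix `a'`, `a` is a longer one with `sum a ≤ sum a'`). So with `L i` = mass of the
elements of `K` of total width `i + 1` the claim holds.
Functional version by time reversal (as in ZHW/Ladder): `gw c r 0 = R r 0` where `R` is the mass of the sequences whose last partial
sum is larger than all the others (record at the end): `R` is decomposed at the FIRST record, `F (i + 1) z` = mass of the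
sequences of total width `i + 1` from `z >= 0` (steps subtracted) which are negative exactly at the end,
`F (i + 1) z = ∑ j ≤ i, ∑' δ, c j δ * (if z - δ < 0 then [i = j] else F (i - j) (z - δ))`, and
`R (r + 1) z = ∑ i ≤ r, F (i + 1) z * R° (r - i)`, `R° 0 = 1`, `R° j = R j 0`; take `L i = F (i + 1) 0`.
-/

namespace Pool.Agent.ZCS

open Finset
open scoped ENNReal NNReal

private theorem ladR_tri {M : Type*} [AddCommMonoid M] (r : ℕ) (F : ℕ → ℕ → M) :
    ∑ i ∈ range (r + 1), ∑ w ∈ range (r - i + 1), F i w =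
      ∑ j ∈ range (r + 1), ∑ i ∈ range (j + 1), F i (j - i) := by
  rw [Finset.sum_sigma', Finset.sum_sigma']
  refine Finset.sum_nbij' (fun p => ⟨p.1 + p.2, p.1⟩) (fun p => ⟨p.2, p.1 - p.2⟩) ?_ ?_ ?_ ?_ ?_
  · rintro ⟨i, w⟩ h
    simp only [mem_sigma, mem_range] at h ⊢
    omega
  · rintro ⟨j, i⟩ h
    simp only [mem_sigma, mem_range] at h ⊢
    omega
  · rintro ⟨i, w⟩ h
    simp only [mem_sigma, mem_range] at h ⊢
    rw [Nat.add_sub_cancel_left]
  · rintro ⟨j, i⟩ h
    simp only [mem_sigma, mem_range] at h ⊢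
    rw [Nat.add_sub_cancel' (by omega)]
  · rintro ⟨i, w⟩ h
    simp only [mem_sigma, mem_range] at h ⊢
    rw [Nat.add_sub_cancel_left]

/-- mass of the block sequences of total width `w` from `y` to `0` which stay nonnegative -/
private noncomputable def ladR_a (c : ℕ → ℤ → ℝ≥0∞) : ℕ → ℤ → ℝ≥0∞
  | 0, y => if y = 0 then 1 else 0
  | w + 1, y => ∑ i : Fin (w + 1), ∑' δ : ℤ,
      if 0 ≤ y + δ then c i δ * ladR_a c (w - i) (y + δ) else 0
termination_by w => w
decreasing_by omega

private theorem ladR_a_zero (c : ℕ → ℤ → ℝ≥0∞) (y : ℤ) :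
    ladR_a c 0 y = if y = 0 then 1 else 0 := by
  rw [ladR_a]

private theorem ladR_a_succ (c : ℕ → ℤ → ℝ≥0∞) (w : ℕ) (y : ℤ) : ladR_a c (w + 1) y =
    ∑ i ∈ range (w + 1), ∑' δ : ℤ, if 0 ≤ y + δ then c i δ * ladR_a c (w - i) (y + δ) else 0 := by
  rw [ladR_a, Finset.sum_range
    (fun i => ∑' δ : ℤ, if 0 ≤ y + δ then c i δ * ladR_a c (w - i) (y + δ) else 0)]

/-- the sum of `ladR_a` over the starting points `0, ..., x - 1` -/
private noncomputable def ladR_P (c : ℕ → ℤ → ℝ≥0∞) (w : ℕ) (x : ℤ) : ℝ≥0∞ :=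
  ∑ y ∈ Finset.Ico (0 : ℤ) x, ladR_a c w y

private theorem ladR_P_nonpos (c : ℕ → ℤ → ℝ≥0∞) (w : ℕ) {x : ℤ} (hx : x ≤ 0) :
    ladR_P c w x = 0 := by
  unfold ladR_P
  rw [Finset.Ico_eq_empty (by omega), Finset.sum_empty]

private theorem ladR_P_zero (c : ℕ → ℤ → ℝ≥0∞) {x : ℤ} (hx : 1 ≤ x) : ladR_P c 0 x = 1 := by
  unfold ladR_P
  rw [Finset.sum_eq_single (0 : ℤ)]
  · rw [ladR_a_zero, if_pos rfl]
  · intro y _ hy
    rw [ladR_a_zero, if_neg hy]
  · intro h
    exact absurd (Finset.mem_Ico.2 ⟨le_rfl, by omega⟩) h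

/-- the part of `ladR_P c w (x + δ)` above `δ` -/
private noncomputable def ladR_D (c : ℕ → ℤ → ℝ≥0∞) (w : ℕ) (x δ : ℤ) : ℝ≥0∞ :=
  ∑ y ∈ Finset.Ico (0 : ℤ) x, if 0 ≤ y + δ then ladR_a c w (y + δ) else 0

private theorem ladR_D_nonpos (c : ℕ → ℤ → ℝ≥0∞) (w : ℕ) {x δ : ℤ} (hx : x + δ ≤ 0) :
    ladR_D c w x δ = 0 := by
  unfold ladR_D
  refine Finset.sum_eq_zero fun y hy => ?_
  rw [Finset.mem_Ico] at hy
  rw [if_neg (by omega)]

private theorem ladR_split (c : ℕ → ℤ → ℝ≥0∞) (w : ℕ) {x δ : ℤ} (hx : 1 ≤ x) (h : 0 < x + δ) :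
    ladR_P c w (x + δ) = ladR_P c w δ + ladR_D c w x δ := by
  have hD : ladR_D c w x δ = ∑ y ∈ Finset.Ico (max δ 0) (x + δ), ladR_a c w y := by
    unfold ladR_D
    rw [← Finset.sum_filter]
    refine Finset.sum_nbij' (fun y => y + δ) (fun y => y - δ) ?_ ?_ ?_ ?_ ?_
    · intro y hy
      simp only [Finset.mem_filter, Finset.mem_Ico] at hy ⊢
      omega
    · intro y hy
      simp only [Finset.mem_filter, Finset.mem_Ico] at hy ⊢
      omega
    · intro y _
      ring
    · intro y _
      ring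
    · intro y _
      rfl
  have hP : ladR_P c w δ = ∑ y ∈ Finset.Ico (0 : ℤ) (max δ 0), ladR_a c w y := by
    unfold ladR_P
    congr 1
    ext y
    simp only [Finset.mem_Ico]
    omega
  rw [hD, hP]
  unfold ladR_P
  rw [← Finset.Ico_union_Ico_eq_Ico (show (0 : ℤ) ≤ max δ 0 by omega)
    (show max δ 0 ≤ x + δ by omega), Finset.sum_union]
  exact Finset.Ico_disjoint_Ico_consecutive _ _ _

private theorem ladR_P_succ (c : ℕ → ℤ → ℝ≥0∞) (w : ℕ) (x : ℤ) : ladR_P c (w + 1) x =
    ∑ i ∈ range (w + 1), ∑' δ : ℤ, c i δ * ladR_D c (w - i) x δ := by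
  unfold ladR_P ladR_D
  simp_rw [ladR_a_succ]
  rw [Finset.sum_comm]
  refine Finset.sum_congr rfl fun i _ => ?_
  rw [← Summable.tsum_finsetSum (fun y _ => ENNReal.summable)]
  refine tsum_congr fun δ => ?_
  rw [Finset.mul_sum]
  refine Finset.sum_congr rfl fun y _ => ?_
  rw [mul_ite, mul_zero]

private theorem ladR_main (c : ℕ → ℤ → ℝ≥0∞) (r : ℕ) : ∀ x : ℤ, 1 ≤ x →
    gw c r x = ∑ w ∈ range (r + 1), ladR_P c w x * gw c (r - w) 0 := by
  induction r using Nat.strong_induction_on with
  | _ r ih =>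
    intro x hx
    cases r with
    | zero =>
      rw [gw_zero, Finset.sum_range_one, ladR_P_zero c hx, gw_zero, one_mul]
    | succ r =>
      have ih' : ∀ i ∈ range (r + 1), ∀ y : ℤ, 1 ≤ y →
          gw c (r - i) y = ∑ w ∈ range (r - i + 1), ladR_P c w y * gw c (r - i - w) 0 :=
        fun i hi y hy => ih (r - i) (by rw [mem_range] at hi; omega) y hy
      -- the left side
      have hL : gw c (r + 1) x = ∑ i ∈ range (r + 1), ∑' δ : ℤ,
          ((if 0 < 0 + δ then c i δ * gw c (r - i) (0 + δ) else 0) +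
            ∑ w ∈ range (r - i + 1), c i δ * ladR_D c w x δ * gw c (r - i - w) 0) := by
        rw [gw_succ]
        refine Finset.sum_congr rfl fun i hi => tsum_congr fun δ => ?_
        by_cases hpos : 0 < x + δ
        · rw [if_pos hpos, ih' i hi (x + δ) (by omega)]
          have h1 : ∀ w ∈ range (r - i + 1), ladR_P c w (x + δ) * gw c (r - i - w) 0 =
              ladR_P c w δ * gw c (r - i - w) 0 + ladR_D c w x δ * gw c (r - i - w) 0 := by
            intro w _
            rw [ladR_split c w hx hpos, add_mul]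
          rw [Finset.sum_congr rfl h1, Finset.sum_add_distrib, mul_add]
          congr 1
          · rw [zero_add]
            by_cases hd : 0 < δ
            · rw [if_pos hd, ih' i hi δ (by omega)]
            · rw [if_neg hd]
              rw [Finset.sum_eq_zero, mul_zero]
              intro w _
              rw [ladR_P_nonpos c w (by omega), zero_mul]
          · rw [Finset.mul_sum]
            refine Finset.sum_congr rfl fun w _ => ?_
            rw [mul_assoc]
        · rw [if_neg hpos, if_neg (by omega), zero_add]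
          symm
          refine Finset.sum_eq_zero fun w _ => ?_
          rw [ladR_D_nonpos c w (by omega), mul_zero, zero_mul]
      rw [hL]
      have hsplit : ∀ i ∈ range (r + 1), (∑' δ : ℤ,
          ((if 0 < 0 + δ then c i δ * gw c (r - i) (0 + δ) else 0) +
            ∑ w ∈ range (r - i + 1), c i δ * ladR_D c w x δ * gw c (r - i - w) 0)) =
          (∑' δ : ℤ, if 0 < 0 + δ then c i δ * gw c (r - i) (0 + δ) else 0) +
          ∑ w ∈ range (r - i + 1), (∑' δ : ℤ, c i δ * ladR_D c w x δ) * gw c (r - i - w) 0 := by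
        intro i _
        rw [ENNReal.tsum_add]
        congr 1
        rw [Summable.tsum_finsetSum (fun w _ => ENNReal.summable)]
        refine Finset.sum_congr rfl fun w _ => ?_
        rw [ENNReal.tsum_mul_right]
      rw [Finset.sum_congr rfl hsplit, Finset.sum_add_distrib, ← gw_succ]
      rw [ladR_tri r (fun i w => (∑' δ : ℤ, c i δ * ladR_D c w x δ) * gw c (r - i - w) 0)]
      rw [Finset.sum_range_succ' (fun w => ladR_P c w x * gw c (r + 1 - w) 0), ladR_P_zero c hx,
        one_mul, Nat.sub_zero, add_comm]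
      congr 1
      refine Finset.sum_congr rfl fun j hj => ?_
      rw [ladR_P_succ, Finset.sum_mul]
      have e1 : r + 1 - (j + 1) = r - j := by omega
      rw [e1]
      refine Finset.sum_congr rfl fun i hi => ?_
      rw [mem_range] at hi
      have e2 : r - i - (j - i) = r - j := by omega
      rw [e2]

theorem lad_ren (c : ℕ → ℤ → ℝ≥0∞) :
    ∃ L : ℕ → ℝ≥0∞, ∀ r, gw c (r + 1) 0 = ∑ i ∈ range (r + 1), L i * gw c (r - i) 0 := by
  refine ⟨fun j => ∑ i ∈ range (j + 1), ∑' δ : ℤ, if 0 < δ then c i δ * ladR_P c (j - i) δ else 0,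
    fun r => ?_⟩
  rw [gw_succ]
  have h1 : ∀ i ∈ range (r + 1), (∑' δ : ℤ, if 0 < 0 + δ then c i δ * gw c (r - i) (0 + δ) else 0) =
      ∑ w ∈ range (r - i + 1),
        (∑' δ : ℤ, if 0 < δ then c i δ * ladR_P c w δ else 0) * gw c (r - i - w) 0 := by
    intro i _
    simp_rw [← ENNReal.tsum_mul_right]
    rw [← Summable.tsum_finsetSum (fun w _ => ENNReal.summable)]
    refine tsum_congr fun δ => ?_
    rw [zero_add]
    by_cases hd : 0 < δ
    · simp only [if_pos hd]
      rw [ladR_main c (r - i) δ (by omega), Finset.mul_sum]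
      refine Finset.sum_congr rfl fun w _ => ?_
      rw [mul_assoc]
    · simp only [if_neg hd, zero_mul, Finset.sum_const_zero]
  rw [Finset.sum_congr rfl h1]
  rw [ladR_tri r (fun i w =>
    (∑' δ : ℤ, if 0 < δ then c i δ * ladR_P c w δ else 0) * gw c (r - i - w) 0)]
  refine Finset.sum_congr rfl fun j hj => ?_
  rw [Finset.sum_mul]
  refine Finset.sum_congr rfl fun i hi => ?_
  rw [mem_range] at hi
  have e2 : r - i - (j - i) = r - j := by omega
  rw [e2]

end Pool.Agent.ZCS
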