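import Pool.Agent.ZCS.RenGe
import Pool.Agent.ZCS.GpB
import Pool.Agent.ZCS.LadC
import Pool.Agent.ZCS.LadR
import Pool.Agent.ZCS.AnLog
import Pool.Agent.ZCS.Fw

/-!
Module GamB: the sum of `gf2 (GP t r) * rho t r` is logarithmic.

PAPER PROOF. `c i δ = gf2 (IPd t i δ) (zc t)`, `g r = gw c r 0`, `W r = (be t (zc t) r) ^ 2 <= 1` (`be_le_one`), `W 0 = 1` (`be_zero`).
`gf2 (GP t r) * rho t r = gf2 (GP t r) ^ 2 / W r <= 4 * (g r ^ 2 / W r)` (`gp_le`). `an_log`: `g 0 = 1` (`gw_zero`), `lad_ren c`, and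
`lad_conv c (ipd_symm) W` with `ren_eq`, `ipd_sum`. Finally `∑ m < N, 1 / (m + 1) <= 1 + log (N + 1)` (harmonic sum, e.g.
`harmonic_le_one_add_log`).
-/

namespace Pool.Agent.ZCS

open Pool.Agent.SHP Pool.Agent.ZHW Finset
open scoped ENNReal NNReal

variable {t : Bool}

private theorem GamB_harm (N : ℕ) : ∑ m ∈ range N, ((m : ℝ≥0∞) + 1)⁻¹ ≤
    ENNReal.ofReal (1 + Real.log ((N : ℝ) + 1)) := by
  have h1 : ∀ m : ℕ, ((m : ℝ≥0∞) + 1)⁻¹ = ENNReal.ofReal (((m : ℝ) + 1)⁻¹) := by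
    intro m
    rw [ENNReal.ofReal_inv_of_pos (by positivity), ENNReal.ofReal_add (by positivity) one_pos.le,
      ENNReal.ofReal_natCast, ENNReal.ofReal_one]
  rw [Finset.sum_congr rfl fun m _ => h1 m, ← ENNReal.ofReal_sum_of_nonneg fun m _ => by positivity]
  refine ENNReal.ofReal_le_ofReal ?_
  have h2 := harmonic_le_one_add_log N
  have h3 : ((harmonic N : ℚ) : ℝ) = ∑ m ∈ range N, ((m : ℝ) + 1)⁻¹ := by
    unfold harmonic
    push_cast
    rfl
  rw [h3] at h2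
  refine h2.trans ?_
  have h4 : Real.log N ≤ Real.log ((N : ℝ) + 1) := by
    rcases Nat.eq_zero_or_pos N with h | h
    · subst h
      simp
    · exact Real.log_le_log (by exact_mod_cast h) (by linarith)
  linarith

theorem gam_sum (N : ℕ) : ∑ r ∈ range N, gf2 (GP t r) (zc t) * rho t r ≤
    ENNReal.ofReal (4 * (1 + Real.log ((N : ℝ) + 1))) := by
  set c : ℕ → ℤ → ℝ≥0∞ := fun i δ => gf2 (IPd t i δ) (zc t) with hc
  set g : ℕ → ℝ≥0∞ := fun r => gw c r 0 with hg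
  set W : ℕ → ℝ≥0∞ := fun r => (be t (zc t) r) ^ 2 with hW
  obtain ⟨L, hL⟩ := lad_ren c
  have hterm : ∀ r, gf2 (GP t r) (zc t) * rho t r ≤ 4 * (g r ^ 2 / W r) := by
    intro r
    have h1 : gf2 (GP t r) (zc t) ≤ 2 * g r := gp_le (zc t) r
    have h2 : gf2 (GP t r) (zc t) * (gf2 (GP t r) (zc t) / W r) ≤ (2 * g r) * ((2 * g r) / W r) :=
      mul_le_mul' h1 (ENNReal.div_le_div_right h1 _)
    refine h2.trans (le_of_eq ?_)
    rw [div_eq_mul_inv, div_eq_mul_inv]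
    ring
  have hlog : ∑ r ∈ range N, g r ^ 2 / W r ≤ ∑ m ∈ range N, ((m : ℝ≥0∞) + 1)⁻¹ := by
    refine an_log g L W (gw_zero c 0) (fun r => hL r) (fun r => ?_) (fun r => ?_) N
    · exact pow_le_one' (be_le_one r) 2
    · refine lad_conv c (fun i δ => ipd_symm (zc t) i δ) W ?_ (fun r => ?_) r
      · simp only [hW, be_zero, one_pow]
      · change (be t (zc t) (r + 1)) ^ 2 = _
        rw [ren_eq]
        refine Finset.sum_congr rfl fun i _ => ?_
        rw [← ipd_sum]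
  calc ∑ r ∈ range N, gf2 (GP t r) (zc t) * rho t r
      ≤ ∑ r ∈ range N, 4 * (g r ^ 2 / W r) := Finset.sum_le_sum fun r _ => hterm r
    _ = 4 * ∑ r ∈ range N, g r ^ 2 / W r := by rw [Finset.mul_sum]
    _ ≤ 4 * ENNReal.ofReal (1 + Real.log ((N : ℝ) + 1)) :=
        mul_le_mul_right (hlog.trans (GamB_harm N)) _
    _ = ENNReal.ofReal (4 * (1 + Real.log ((N : ℝ) + 1))) := by
        rw [ENNReal.ofReal_mul (by norm_num : (0 : ℝ) ≤ 4)]
        norm_num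

end Pool.Agent.ZCS
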