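import Mathlib

/-!
Module GronD (analysis): two dyadic sums.

PROOF. Put `x = ε * 2 ^ k`, `L = 1 + log (1 / ε)`. From `log x <= x - 1` and `log 2 >= 2/3` we get
`k + 1 <= 3/2 * L * (1 + x)`; `(1 + x) * exp (-x/2) <= 8 / (1 + x)`. So the terms are at most
`12 L * √(2 x) / (1 + x)` and `12 L / (1 + x)`, and both sums telescope:
`√x / (1 + x) <= 8 (ψ (2x) - ψ x)` with `ψ x = √x / (1 + √x)`, and
`1 / (1 + x) <= 2 (χ (2x) - χ x)` with `χ x = log (x / (1 + x))`.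
-/

namespace Pool.Agent.ZCS

open Finset

theorem GronD_exp (x : ℝ) (hx : 0 ≤ x) : (1 + x) * Real.exp (-(x / 2)) ≤ 8 / (1 + x) := by
  have h1 : (x / 2) ^ 2 / 2 + x / 2 + 1 ≤ Real.exp (x / 2) := by
    have := Real.quadratic_le_exp_of_nonneg (show 0 ≤ x / 2 by positivity)
    linarith
  have h2 : (1 + x) ^ 2 ≤ 8 * Real.exp (x / 2) := by nlinarith
  rw [le_div_iff₀ (by positivity), Real.exp_neg]
  rw [show (1 + x) * (Real.exp (x / 2))⁻¹ * (1 + x) = (1 + x) ^ 2 / Real.exp (x / 2) by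
    field_simp]
  rw [div_le_iff₀ (Real.exp_pos _)]
  exact h2

theorem GronD_k (ε : ℝ) (h0 : 0 < ε) (h1 : ε ≤ 1 / 2) (k : ℕ) :
    (k : ℝ) + 1 ≤ 3 / 2 * (1 + Real.log (1 / ε)) * (1 + ε * 2 ^ k) := by
  have hL : 0 ≤ Real.log (1 / ε) := Real.log_nonneg (by rw [le_div_iff₀ h0]; linarith)
  have hx : 0 < ε * 2 ^ k := by positivity
  have h2 : Real.log (ε * 2 ^ k) ≤ ε * 2 ^ k - 1 := Real.log_le_sub_one_of_pos hx
  have h3 : Real.log (ε * 2 ^ k) = - Real.log (1 / ε) + k * Real.log 2 := by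
    rw [Real.log_mul h0.ne' (by positivity), Real.log_pow, one_div, Real.log_inv, neg_neg]
  have h4 : (2 : ℝ) / 3 ≤ Real.log 2 := by have := Real.log_two_gt_d9; linarith
  have h5 : (k : ℝ) * (2 / 3) ≤ k * Real.log 2 := mul_le_mul_of_nonneg_left h4 (Nat.cast_nonneg k)
  have h6 : 0 ≤ Real.log (1 / ε) * (ε * 2 ^ k) := mul_nonneg hL hx.le
  nlinarith

theorem GronD_psi (x : ℝ) (hx : 0 < x) :
    Real.sqrt x / (1 + x) ≤ 8 * (Real.sqrt (2 * x) / (1 + Real.sqrt (2 * x)) -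
      Real.sqrt x / (1 + Real.sqrt x)) := by
  rw [Real.sqrt_mul (by norm_num) x]
  set s := Real.sqrt x with hs
  set r := Real.sqrt 2 with hr
  have hs0 : 0 < s := Real.sqrt_pos.2 hx
  have hx2 : x = s ^ 2 := (Real.sq_sqrt hx.le).symm
  have hr2 : r ^ 2 = 2 := Real.sq_sqrt (by norm_num)
  have hr0 : 0 < r := Real.sqrt_pos.2 (by norm_num)
  have hr1 : 1.41 < r := by
    rw [hr]; apply Real.lt_sqrt_of_sq_lt; norm_num
  have hr3 : r < 1.42 := by
    rw [hr, Real.sqrt_lt' (by norm_num)]; norm_num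
  rw [hx2]
  have e : r * s / (1 + r * s) - s / (1 + s) = (r - 1) * s / ((1 + r * s) * (1 + s)) := by
    field_simp
    ring
  rw [e, div_le_iff₀ (by positivity)]
  rw [show 8 * ((r - 1) * s / ((1 + r * s) * (1 + s))) * (1 + s ^ 2) =
    (8 * (r - 1) * s * (1 + s ^ 2)) / ((1 + r * s) * (1 + s)) by ring]
  rw [le_div_iff₀ (by positivity)]
  have h1 : (1 + r * s) * (1 + s) ≤ 8 * (r - 1) * (1 + s ^ 2) := by
    nlinarith [sq_nonneg (s - 1), mul_pos hr0 hs0, sq_nonneg s]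
  nlinarith [mul_le_mul_of_nonneg_left h1 hs0.le]

theorem GronD_chi (x : ℝ) (hx : 0 < x) :
    1 / (1 + x) ≤ 2 * (Real.log (2 * x / (1 + 2 * x)) - Real.log (x / (1 + x))) := by
  rw [← Real.log_div (by positivity) (by positivity)]
  have e : 2 * x / (1 + 2 * x) / (x / (1 + x)) = (1 - 1 / (2 * (1 + x)))⁻¹ := by
    have h : (1 : ℝ) - 1 / (2 * (1 + x)) = (1 + 2 * x) / (2 * (1 + x)) := by
      field_simp
      ring
    rw [h, inv_div]
    field_simp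
  have h0 : 0 < 1 - 1 / (2 * (1 + x)) := by
    rw [sub_pos, div_lt_one (by positivity)]; linarith
  rw [e, Real.log_inv]
  have h1 := Real.log_le_sub_one_of_pos h0
  have h2 : 1 / (2 * (1 + x)) = 1 / (1 + x) / 2 := by
    field_simp
  rw [h2] at h1 ⊢
  linarith

theorem GronD_tel (f g : ℕ → ℝ) (h : ∀ k, f k ≤ g (k + 1) - g k) (N : ℕ) :
    ∑ k ∈ range N, f k ≤ g N - g 0 := by
  rw [← Finset.sum_range_sub]
  exact Finset.sum_le_sum fun k _ => h k

theorem gronD : ∃ C : ℝ, 0 < C ∧ ∀ ε : ℝ, 0 < ε → ε ≤ 1 / 2 → ∀ N : ℕ,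
    ∑ k ∈ range N, ((k : ℝ) + 1) * Real.exp (-(ε * 2 ^ k / 2)) * Real.sqrt (ε * 2 ^ (k + 1)) ≤
      C * (1 + Real.log (1 / ε)) ∧
    ∑ k ∈ range N, ((k : ℝ) + 1) * Real.exp (-(ε * 2 ^ k / 2)) ≤ C * (1 + Real.log (1 / ε)) ^ 2 := by
  refine ⟨200, by norm_num, fun ε h0 h1 N => ?_⟩
  have hL : 0 ≤ Real.log (1 / ε) := Real.log_nonneg (by rw [le_div_iff₀ h0]; linarith)
  set L := 1 + Real.log (1 / ε) with hLd
  have hL1 : 1 ≤ L := by rw [hLd]; linarith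
  have hx : ∀ k : ℕ, 0 < ε * 2 ^ k := fun k => by positivity
  have hx2 : ∀ k : ℕ, ε * 2 ^ (k + 1) = 2 * (ε * 2 ^ k) := fun k => by ring
  have hterm : ∀ k : ℕ, ((k : ℝ) + 1) * Real.exp (-(ε * 2 ^ k / 2)) ≤
      12 * L * (1 / (1 + ε * 2 ^ k)) := by
    intro k
    calc ((k : ℝ) + 1) * Real.exp (-(ε * 2 ^ k / 2)) ≤
        (3 / 2 * L * (1 + ε * 2 ^ k)) * Real.exp (-(ε * 2 ^ k / 2)) :=
          mul_le_mul_of_nonneg_right (GronD_k ε h0 h1 k) (Real.exp_pos _).le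
      _ = 3 / 2 * L * ((1 + ε * 2 ^ k) * Real.exp (-(ε * 2 ^ k / 2))) := by ring
      _ ≤ 3 / 2 * L * (8 / (1 + ε * 2 ^ k)) :=
          mul_le_mul_of_nonneg_left (GronD_exp _ (hx k).le) (by positivity)
      _ = _ := by ring
  constructor
  · have hr : Real.sqrt 2 ≤ 1.5 := by
      rw [Real.sqrt_le_left (by norm_num)]; norm_num
    have hs : ∀ k : ℕ, ((k : ℝ) + 1) * Real.exp (-(ε * 2 ^ k / 2)) * Real.sqrt (ε * 2 ^ (k + 1)) ≤
        (144 * L) * (Real.sqrt (ε * 2 ^ (k + 1)) / (1 + Real.sqrt (ε * 2 ^ (k + 1)))) -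
        (144 * L) * (Real.sqrt (ε * 2 ^ k) / (1 + Real.sqrt (ε * 2 ^ k))) := by
      intro k
      have h2 := GronD_psi _ (hx k)
      rw [← hx2 k] at h2
      calc _ ≤ 12 * L * (1 / (1 + ε * 2 ^ k)) * Real.sqrt (ε * 2 ^ (k + 1)) :=
            mul_le_mul_of_nonneg_right (hterm k) (Real.sqrt_nonneg _)
        _ = 12 * L * Real.sqrt 2 * (Real.sqrt (ε * 2 ^ k) / (1 + ε * 2 ^ k)) := by
            rw [hx2 k, Real.sqrt_mul (by norm_num)]; ring
        _ ≤ 12 * L * 1.5 * (8 * (Real.sqrt (ε * 2 ^ (k + 1)) / (1 + Real.sqrt (ε * 2 ^ (k + 1))) -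
              Real.sqrt (ε * 2 ^ k) / (1 + Real.sqrt (ε * 2 ^ k)))) := by
            apply mul_le_mul _ h2 (by positivity) (by positivity)
            exact mul_le_mul_of_nonneg_left hr (by positivity)
        _ = _ := by ring
    refine (GronD_tel _ (fun k => (144 * L) *
      (Real.sqrt (ε * 2 ^ k) / (1 + Real.sqrt (ε * 2 ^ k)))) hs N).trans ?_
    have h3 : Real.sqrt (ε * 2 ^ N) / (1 + Real.sqrt (ε * 2 ^ N)) ≤ 1 := by
      rw [div_le_one (by positivity)]; linarith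
    have h4 : 0 ≤ Real.sqrt (ε * 2 ^ 0) / (1 + Real.sqrt (ε * 2 ^ 0)) := by positivity
    nlinarith [mul_le_mul_of_nonneg_left h3 (show 0 ≤ 144 * L by positivity),
      mul_nonneg (show 0 ≤ 144 * L by positivity) h4]
  · have hs : ∀ k : ℕ, ((k : ℝ) + 1) * Real.exp (-(ε * 2 ^ k / 2)) ≤
        (24 * L) * Real.log (ε * 2 ^ (k + 1) / (1 + ε * 2 ^ (k + 1))) -
        (24 * L) * Real.log (ε * 2 ^ k / (1 + ε * 2 ^ k)) := by
      intro k
      have h2 := GronD_chi _ (hx k)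
      rw [← hx2 k] at h2
      calc _ ≤ 12 * L * (1 / (1 + ε * 2 ^ k)) := hterm k
        _ ≤ 12 * L * (2 * (Real.log (ε * 2 ^ (k + 1) / (1 + ε * 2 ^ (k + 1))) -
              Real.log (ε * 2 ^ k / (1 + ε * 2 ^ k)))) :=
            mul_le_mul_of_nonneg_left h2 (by positivity)
        _ = _ := by ring
    refine (GronD_tel _ (fun k => (24 * L) * Real.log (ε * 2 ^ k / (1 + ε * 2 ^ k))) hs N).trans ?_
    have h3 : Real.log (ε * 2 ^ N / (1 + ε * 2 ^ N)) ≤ 0 := by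
      apply Real.log_nonpos (by positivity)
      rw [div_le_one (by positivity)]; linarith
    have h4 : - L ≤ Real.log (ε * 2 ^ 0 / (1 + ε * 2 ^ 0)) := by
      rw [pow_zero, mul_one, Real.log_div h0.ne' (by positivity)]
      have h5 : Real.log (1 + ε) ≤ 1 + ε - 1 := Real.log_le_sub_one_of_pos (by positivity)
      have h6 : Real.log (1 / ε) = - Real.log ε := by rw [one_div, Real.log_inv]
      rw [hLd, h6]
      linarith
    nlinarith [mul_nonneg (show 0 ≤ 24 * L by positivity) (neg_nonneg.2 h3),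
      mul_le_mul_of_nonneg_left h4 (show 0 ≤ 24 * L by positivity), sq_nonneg L]

end Pool.Agent.ZCS
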