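import Mathlib

/-!
Module GronK (analysis): one kernel for the potential `A * √(1 - q ^ t)`.

PAPER PROOF. Let `p = 1 - w >= 0` and `D = A * (√(p + w δ) - √p) = A * w δ / (√(p + w δ) + √p)`.
Case I, `w δ <= 3 p` (then `p > 0`): `√(p + w δ) <= 2 √p`, so `D >= v := A w δ / (3 √p)`, and `exp (-v) <= min 1 (v ^ (-3/2))`
(`r ^ (3/2) * exp (-r) <= 1` for `r >= 0`), so `w ^ 2 * exp (-D) <= min (w ^ 2) (w ^ (1/2) * (3 √p / (A δ)) ^ (3/2))` and
`w ^ 2 <= √w`. Case II, `w δ > 3 p`: `√(p + w δ) + √p <= √3 * √(w δ)` (`√(4/3) + √(1/3) = √3`), so `D >= v := A √(w δ) / √3`;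
`v ^ 3 * exp (-v) <= 27 * exp (-3) <= 27 / 20`, so `w ^ 2 * exp (-D) <= min (w ^ 2) ((27/20) * w ^ 2 * (3 / (A^2 w δ)) ^ (3/2))
<= √w * min 1 ((4 / (A^2 δ)) ^ (3/2))` since `(27/20) * 3 ^ (3/2) <= 8 = 4 ^ (3/2)`.
(HHZ/GronZ.lean, `gron_kernel`, `gron_exp`, is a model.)
-/

namespace Pool.Agent.ZCS

private theorem gronK_rpow {x : ℝ} (hx : 0 ≤ x) : x ^ (3 / 2 : ℝ) = x * Real.sqrt x := by
  rcases hx.eq_or_lt with h | h
  · subst h
    rw [Real.zero_rpow (by norm_num), zero_mul]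
  · rw [Real.sqrt_eq_rpow, show (3 / 2 : ℝ) = 1 + 1 / 2 by norm_num, Real.rpow_add h, Real.rpow_one]

private theorem gronK_sq {w x : ℝ} (hw : 0 < w) (hx : 0 ≤ x) :
    w ^ 2 * x ^ (3 / 2 : ℝ) = Real.sqrt w * (w * x) ^ (3 / 2 : ℝ) := by
  rw [Real.mul_rpow hw.le hx, gronK_rpow hw.le]
  have h : Real.sqrt w * Real.sqrt w = w := Real.mul_self_sqrt hw.le
  calc w ^ 2 * x ^ (3 / 2 : ℝ) = w * w * x ^ (3 / 2 : ℝ) := by ring
    _ = w * (Real.sqrt w * Real.sqrt w) * x ^ (3 / 2 : ℝ) := by rw [h]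
    _ = _ := by ring

private theorem gronK_exp1 {v : ℝ} (hv : 0 < v) : Real.exp (-v) ≤ (1 / v) ^ (3 / 2 : ℝ) := by
  have h1 : v ^ (3 / 2 : ℝ) ≤ Real.exp v := by
    rw [gronK_rpow hv.le]
    have h2 := Real.quadratic_le_exp_of_nonneg hv.le
    have h3 : Real.sqrt v ≤ (1 + v) / 2 := by
      rw [Real.sqrt_le_iff]
      exact ⟨by positivity, by nlinarith [sq_nonneg (v - 1)]⟩
    nlinarith
  have h4 : 0 < v ^ (3 / 2 : ℝ) := Real.rpow_pos_of_pos hv _
  rw [Real.exp_neg, Real.div_rpow zero_le_one hv.le, Real.one_rpow, ← one_div]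
  exact one_div_le_one_div_of_le h4 h1

private theorem gronK_exp2 {v : ℝ} (hv : 0 < v) :
    Real.exp (-v) ≤ 27 / 20 * (1 / v ^ 2) ^ (3 / 2 : ℝ) := by
  have h1 : v / 3 ≤ Real.exp (v / 3 - 1) := by
    have := Real.add_one_le_exp (v / 3 - 1)
    linarith
  have h2 : (v / 3) ^ 3 ≤ Real.exp (v / 3 - 1) ^ 3 := pow_le_pow_left₀ (by positivity) h1 3
  have h3 : Real.exp (v / 3 - 1) ^ 3 = Real.exp v / Real.exp 3 := by
    rw [← Real.exp_nat_mul, ← Real.exp_sub]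
    congr 1
    push_cast
    ring
  have h4 : (20 : ℝ) ≤ Real.exp 3 := by
    have h5 : Real.exp 3 = Real.exp 1 ^ 3 := by
      rw [← Real.exp_nat_mul]
      norm_num
    rw [h5]
    have h6 := Real.exp_one_gt_d9
    have h7 : (2.7182818283 : ℝ) ^ 3 ≤ Real.exp 1 ^ 3 := pow_le_pow_left₀ (by norm_num) h6.le 3
    have h8 : (20 : ℝ) ≤ 2.7182818283 ^ 3 := by norm_num
    linarith
  have h5 : v ^ 3 ≤ 27 / 20 * Real.exp v := by
    rw [h3] at h2
    have h6 : Real.exp v / Real.exp 3 ≤ Real.exp v / 20 :=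
      div_le_div_of_nonneg_left (Real.exp_pos v).le (by norm_num) h4
    have h7 : (v / 3) ^ 3 = v ^ 3 / 27 := by ring
    rw [h7] at h2
    linarith
  have h6 : (1 / v ^ 2) ^ (3 / 2 : ℝ) = 1 / v ^ 3 := by
    rw [gronK_rpow (by positivity), Real.sqrt_div zero_le_one, Real.sqrt_one, Real.sqrt_sq hv.le]
    field_simp
  rw [h6, Real.exp_neg, ← one_div, mul_one_div, div_le_div_iff₀ (Real.exp_pos v) (by positivity)]
  linarith

theorem gronK {A w δ : ℝ} (hA : 0 < A) (hw : 0 < w) (hw1 : w ≤ 1) (hδ : 0 < δ) :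
    w ^ 2 * Real.exp (-(A * (Real.sqrt (1 - w + w * δ) - Real.sqrt (1 - w)))) ≤
      Real.sqrt w * (min 1 ((3 * Real.sqrt (1 - w) / (A * δ)) ^ (3 / 2 : ℝ)) +
        min 1 ((4 / (A ^ 2 * δ)) ^ (3 / 2 : ℝ))) := by
  set p : ℝ := 1 - w with hp
  have hp0 : 0 ≤ p := by rw [hp]; linarith
  have hwδ : 0 < w * δ := mul_pos hw hδ
  set S : ℝ := Real.sqrt (p + w * δ) with hS
  set T : ℝ := Real.sqrt p with hT
  have hT0 : 0 ≤ T := Real.sqrt_nonneg _
  have hS0 : 0 < S := Real.sqrt_pos.2 (by linarith)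
  have hSS : S ^ 2 = p + w * δ := Real.sq_sqrt (by linarith)
  have hTT : T ^ 2 = p := Real.sq_sqrt hp0
  have hsw : 0 ≤ Real.sqrt w := Real.sqrt_nonneg _
  have hST : (S - T) * (S + T) = w * δ := by nlinarith
  have hSTpos : 0 < S + T := by linarith
  have hD : S - T = w * δ / (S + T) := by
    rw [eq_div_iff hSTpos.ne']
    exact hST
  have hw2 : w ^ 2 ≤ Real.sqrt w := by
    have h1 : w ≤ Real.sqrt w := by
      rw [Real.le_sqrt' hw]
      nlinarith
    nlinarith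
  have hm1 : 0 ≤ min 1 ((3 * T / (A * δ)) ^ (3 / 2 : ℝ)) :=
    le_min zero_le_one (Real.rpow_nonneg (by positivity) _)
  have hm2 : 0 ≤ min 1 ((4 / (A ^ 2 * δ)) ^ (3 / 2 : ℝ)) :=
    le_min zero_le_one (Real.rpow_nonneg (by positivity) _)
  have hDnn : 0 ≤ A * (S - T) := by
    rw [hD]
    positivity
  have htriv : w ^ 2 * Real.exp (-(A * (S - T))) ≤ Real.sqrt w * 1 := by
    have h1 : Real.exp (-(A * (S - T))) ≤ 1 := Real.exp_le_one_iff.2 (by linarith)
    rw [mul_one]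
    have h2 : 0 ≤ w ^ 2 := by positivity
    nlinarith
  by_cases hc : w * δ ≤ 3 * p
  · have hppos : 0 < p := by
      by_contra h
      have : p = 0 := le_antisymm (not_lt.1 h) hp0
      rw [this] at hc
      linarith
    have hTpos : 0 < T := Real.sqrt_pos.2 hppos
    have hS2 : S ≤ 2 * T := by
      have h1 : S ^ 2 ≤ (2 * T) ^ 2 := by nlinarith
      exact (pow_le_pow_iff_left₀ hS0.le (by positivity) two_ne_zero).1 h1
    set v : ℝ := A * (w * δ) / (3 * T) with hv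
    have hv0 : 0 < v := by positivity
    have hvD : v ≤ A * (S - T) := by
      rw [hD, hv, mul_div_assoc]
      refine mul_le_mul_of_nonneg_left ?_ hA.le
      exact div_le_div_of_nonneg_left hwδ.le hSTpos (by linarith)
    have h1 : Real.exp (-(A * (S - T))) ≤ (1 / v) ^ (3 / 2 : ℝ) :=
      (Real.exp_le_exp.2 (by linarith)).trans (gronK_exp1 hv0)
    have h2 : w ^ 2 * Real.exp (-(A * (S - T))) ≤
        Real.sqrt w * (3 * T / (A * δ)) ^ (3 / 2 : ℝ) := by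
      calc w ^ 2 * Real.exp (-(A * (S - T))) ≤ w ^ 2 * (1 / v) ^ (3 / 2 : ℝ) :=
            mul_le_mul_of_nonneg_left h1 (by positivity)
        _ = Real.sqrt w * (w * (1 / v)) ^ (3 / 2 : ℝ) := gronK_sq hw (by positivity)
        _ = _ := by
          congr 2
          rw [hv]
          field_simp
    have h3 : w ^ 2 * Real.exp (-(A * (S - T))) ≤
        Real.sqrt w * min 1 ((3 * T / (A * δ)) ^ (3 / 2 : ℝ)) := by
      rw [mul_min_of_nonneg _ _ hsw]
      exact le_min htriv h2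
    refine h3.trans (mul_le_mul_of_nonneg_left ?_ hsw)
    linarith
  · have hc' : 3 * p < w * δ := not_le.1 hc
    set R : ℝ := Real.sqrt (w * δ) with hR
    have hR0 : 0 < R := Real.sqrt_pos.2 hwδ
    have hRR : R ^ 2 = w * δ := Real.sq_sqrt hwδ.le
    set r3 : ℝ := Real.sqrt 3 with hr3
    have hr0 : 0 < r3 := Real.sqrt_pos.2 (by norm_num)
    have hrr : r3 ^ 2 = 3 := Real.sq_sqrt (by norm_num)
    have hS3 : r3 * S ≤ 2 * R := by
      have h1 : (r3 * S) ^ 2 ≤ (2 * R) ^ 2 := by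
        rw [mul_pow, mul_pow, hrr, hSS, hRR]
        linarith
      exact (pow_le_pow_iff_left₀ (by positivity) (by positivity) two_ne_zero).1 h1
    have hT3 : r3 * T ≤ R := by
      have h1 : (r3 * T) ^ 2 ≤ R ^ 2 := by
        rw [mul_pow, hrr, hTT, hRR]
        linarith
      exact (pow_le_pow_iff_left₀ (by positivity) (by positivity) two_ne_zero).1 h1
    have hsum : S + T ≤ r3 * R := by
      have h1 : r3 * (S + T) ≤ r3 * (r3 * R) := by nlinarith
      exact le_of_mul_le_mul_left h1 hr0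
    set v : ℝ := A * R / r3 with hv
    have hv0 : 0 < v := by positivity
    have hvD : v ≤ A * (S - T) := by
      rw [hD, hv, mul_div_assoc]
      refine mul_le_mul_of_nonneg_left ?_ hA.le
      rw [div_le_div_iff₀ hr0 hSTpos]
      nlinarith
    have hv2 : v ^ 2 = A ^ 2 * (w * δ) / 3 := by
      rw [hv, div_pow, mul_pow, hRR, hrr]
    have h1 : Real.exp (-(A * (S - T))) ≤ 27 / 20 * (1 / v ^ 2) ^ (3 / 2 : ℝ) :=
      (Real.exp_le_exp.2 (by linarith)).trans (gronK_exp2 hv0)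
    have h4 : 27 / 20 * (3 / (A ^ 2 * δ)) ^ (3 / 2 : ℝ) ≤ (4 / (A ^ 2 * δ)) ^ (3 / 2 : ℝ) := by
      have e1 : 4 / (A ^ 2 * δ) = 4 / 3 * (3 / (A ^ 2 * δ)) := by
        field_simp
      rw [e1, Real.mul_rpow (by norm_num) (by positivity)]
      refine mul_le_mul_of_nonneg_right ?_ (Real.rpow_nonneg (by positivity) _)
      rw [gronK_rpow (by norm_num)]
      have h5 : (11 / 10 : ℝ) ≤ Real.sqrt (4 / 3) := by
        rw [Real.le_sqrt' (by norm_num)]
        norm_num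
      linarith
    have h2 : w ^ 2 * Real.exp (-(A * (S - T))) ≤
        Real.sqrt w * (4 / (A ^ 2 * δ)) ^ (3 / 2 : ℝ) := by
      calc w ^ 2 * Real.exp (-(A * (S - T))) ≤ w ^ 2 * (27 / 20 * (1 / v ^ 2) ^ (3 / 2 : ℝ)) :=
            mul_le_mul_of_nonneg_left h1 (by positivity)
        _ = 27 / 20 * (w ^ 2 * (1 / v ^ 2) ^ (3 / 2 : ℝ)) := by ring
        _ = 27 / 20 * (Real.sqrt w * (w * (1 / v ^ 2)) ^ (3 / 2 : ℝ)) := by
          rw [gronK_sq hw (by positivity)]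
        _ = Real.sqrt w * (27 / 20 * (3 / (A ^ 2 * δ)) ^ (3 / 2 : ℝ)) := by
          have e2 : w * (1 / v ^ 2) = 3 / (A ^ 2 * δ) := by
            rw [hv2]
            field_simp
          rw [e2]
          ring
        _ ≤ _ := mul_le_mul_of_nonneg_left h4 hsw
    have h3 : w ^ 2 * Real.exp (-(A * (S - T))) ≤
        Real.sqrt w * min 1 ((4 / (A ^ 2 * δ)) ^ (3 / 2 : ℝ)) := by
      rw [mul_min_of_nonneg _ _ hsw]
      exact le_min htriv h2
    refine h3.trans (mul_le_mul_of_nonneg_left ?_ hsw)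
    linarith

end Pool.Agent.ZCS
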