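import Pool.Agent.ZCS.GronR

/-!
Module GronL (analysis): the Gronwall inequality of GronR in `ℝ≥0∞`.

PAPER PROOF. If `K = ∞` trivial (the exponential is positive). Otherwise all `J a b` (`b < a`) are finite by the hypotheses
(`a = b + s + 1`; `b = 0` or `b` in its dyadic block), `S n < ∞` by strong induction; apply `gronR` to `toReal` (put `J a b = 0`
for `b >= a`). HHP/Gron, ZHW/Gron have the same passage.
-/

namespace Pool.Agent.ZCS

open Finset
open scoped ENNReal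

theorem gronL (C0 : ℝ) (hC0 : 0 ≤ C0) : ∃ C1 : ℝ, 0 < C1 ∧ ∀ ε : ℝ, 0 < ε → ε ≤ 1 / 2 → ∀ K : ℝ≥0∞,
    ∀ J : ℕ → ℕ → ℝ≥0∞, (∀ s : ℕ, J (s + 1) 0 ≤ ENNReal.ofReal C0) →
    (∀ k s : ℕ, ∑ b ∈ Ico (2 ^ k) (2 ^ (k + 1)), J (b + s + 1) b ≤ ENNReal.ofReal (C0 * ((k : ℝ) + 1))) →
    ∀ S : ℕ → ℝ≥0∞,
    (∀ n, S n ≤ K + ∑ a ∈ range (n + 1), ∑ b ∈ range a, J a b * ENNReal.ofReal (1 - ε) ^ (a + b) * S b) →
    ∀ n, S n ≤ K * ENNReal.ofReal (Real.exp (C1 * Real.sqrt ((1 + Real.log (1 / ε)) / ε))) := by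
  obtain ⟨C1, hC1, hg⟩ := gronR C0 hC0
  refine ⟨C1, hC1, fun ε hε hε2 K J hJ0 hJ S hrec n => ?_⟩
  rcases eq_or_ne K ∞ with rfl | hK
  · rw [ENNReal.top_mul]
    · exact le_top
    · rw [Ne, ENNReal.ofReal_eq_zero, not_le]; exact Real.exp_pos _
  have h0 : 0 ≤ 1 - ε := by linarith
  have hJne : ∀ a b, b < a → J a b ≠ ∞ := by
    intro a b hab
    rcases Nat.eq_zero_or_pos b with rfl | hb
    · have h1 := hJ0 (a - 1)
      rw [Nat.sub_add_cancel hab] at h1
      exact ne_top_of_le_ne_top ENNReal.ofReal_ne_top h1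
    · have h1 := hJ (Nat.log 2 b) (a - b - 1)
      refine ne_top_of_le_ne_top ENNReal.ofReal_ne_top (le_trans ?_ h1)
      have hmem : b ∈ Ico (2 ^ Nat.log 2 b) (2 ^ (Nat.log 2 b + 1)) := by
        rw [mem_Ico]
        exact ⟨Nat.pow_log_le_self 2 hb.ne', Nat.lt_pow_succ_log_self (by norm_num) b⟩
      have h2 := single_le_sum (f := fun t => J (t + (a - b - 1) + 1) t)
        (s := Ico (2 ^ Nat.log 2 b) (2 ^ (Nat.log 2 b + 1))) (fun _ _ => bot_le) hmem
      have h3 : b + (a - b - 1) + 1 = a := by omega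
      simp only [h3] at h2
      exact h2
  have hSfin : ∀ n, S n ≠ ∞ := by
    intro n
    induction n using Nat.strong_induction_on with
    | _ n ih =>
      refine ne_top_of_le_ne_top ?_ (hrec n)
      refine ENNReal.add_ne_top.2 ⟨hK, ?_⟩
      refine ENNReal.sum_ne_top.2 fun a ha => ENNReal.sum_ne_top.2 fun b hb => ?_
      rw [mem_range] at ha hb
      exact ENNReal.mul_ne_top (ENNReal.mul_ne_top (hJne a b hb) (ENNReal.pow_ne_top ENNReal.ofReal_ne_top))
        (ih b (by omega))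
  set J' : ℕ → ℕ → ℝ := fun a b => if b < a then (J a b).toReal else 0 with hJ'
  have hJ'0 : ∀ a b, 0 ≤ J' a b := fun a b => by
    simp only [hJ']; split_ifs <;> positivity
  have h1 := hg ε hε hε2 K.toReal ENNReal.toReal_nonneg J' hJ'0 ?_ ?_ (fun n => (S n).toReal)
    (fun n => ENNReal.toReal_nonneg) ?_ n
  · have h2 : S n = ENNReal.ofReal (S n).toReal := (ENNReal.ofReal_toReal (hSfin n)).symm
    rw [h2]
    refine (ENNReal.ofReal_le_ofReal h1).trans (le_of_eq ?_)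
    rw [ENNReal.ofReal_mul ENNReal.toReal_nonneg, ENNReal.ofReal_toReal hK]
  · intro s
    simp only [hJ']
    rw [if_pos (by omega)]
    exact ENNReal.toReal_le_of_le_ofReal hC0 (hJ0 s)
  · intro k s
    have h2 := hJ k s
    have h3 : ∑ t ∈ Ico (2 ^ k) (2 ^ (k + 1)), J' (t + s + 1) t =
        (∑ t ∈ Ico (2 ^ k) (2 ^ (k + 1)), J (t + s + 1) t).toReal := by
      rw [ENNReal.toReal_sum (fun t _ => hJne _ _ (by omega))]
      refine sum_congr rfl fun t _ => ?_
      simp only [hJ']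
      rw [if_pos (by omega)]
    rw [h3]
    exact ENNReal.toReal_le_of_le_ofReal (by positivity) h2
  · intro n
    have h2 := hrec n
    have hfin : ∀ a ∈ range (n + 1), ∑ b ∈ range a, J a b * ENNReal.ofReal (1 - ε) ^ (a + b) * S b ≠ ∞ := by
      intro a ha
      refine ENNReal.sum_ne_top.2 fun b hb => ?_
      rw [mem_range] at hb
      exact ENNReal.mul_ne_top (ENNReal.mul_ne_top (hJne a b hb) (ENNReal.pow_ne_top ENNReal.ofReal_ne_top)) (hSfin b)
    have h3 := ENNReal.toReal_mono (ENNReal.add_ne_top.2 ⟨hK, ENNReal.sum_ne_top.2 hfin⟩) h2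
    rw [ENNReal.toReal_add hK (ENNReal.sum_ne_top.2 hfin), ENNReal.toReal_sum hfin] at h3
    refine h3.trans (le_of_eq ?_)
    congr 1
    refine sum_congr rfl fun a _ => ?_
    rw [ENNReal.toReal_sum (fun b hb => ENNReal.mul_ne_top (ENNReal.mul_ne_top (hJne a b (mem_range.1 hb))
      (ENNReal.pow_ne_top ENNReal.ofReal_ne_top)) (hSfin b))]
    refine sum_congr rfl fun b hb => ?_
    rw [mem_range] at hb
    rw [ENNReal.toReal_mul, ENNReal.toReal_mul, ENNReal.toReal_pow, ENNReal.toReal_ofReal h0]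
    simp only [hJ']
    rw [if_pos hb]

end Pool.Agent.ZCS
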