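import Mathlib

/-!
Module GronT (analysis): the sum over the gaps.

PAPER PROOF. `1 - q ^ m >= m * ε * q ^ (m / 2)` (`(1 - q ^ m) / (1 - q) = 1 + q + ... + q ^ (m - 1) >= m * q ^ ((m - 1) / 2)`, AM-GM; it is
`gron_one_sub` in HHZ/GronZ.lean with `q = ζ ^ 2`), so
`q ^ m * (B / (1 - q ^ m)) ^ (3/2) <= q ^ (m / 4) * (B / (ε m)) ^ (3/2) <= (B / (ε m)) ^ (3/2)` and
`q ^ m * min 1 (..) <= min 1 ((1 / (v m)) ^ (3/2))` with `v = ε / B` (`B = 0` trivial). With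
`min 1 (x ^ (-3/2)) <= 4 * (1 / √(1 + (x - v)) - 1 / √(1 + x)) / v`-type telescoping (or: at most `1 / v` terms with `v m <= 1`, and
`∑_{m > 1/v} (v m) ^ (-3/2) <= 1 + 2 / v` for `v <= 1`, `<= 3 / v` for `v >= 1`): the sum is `<= 8 / v = 8 * B / ε`.
(`gron_tel` in HHZ/GronZ.lean is the telescoping bound.)
-/

namespace Pool.Agent.ZCS

open Finset

private theorem GronT_one_sub {ζ : ℝ} (h0 : 0 < ζ) (h1 : ζ < 1) (m : ℕ) :
    (m : ℝ) * (1 - ζ ^ 2) * ζ ^ m ≤ 1 - (ζ ^ 2) ^ m := by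
  induction m with
  | zero => simp
  | succ m ih =>
    have hp : 0 < ζ ^ m := pow_pos h0 m
    have hp1 : ζ ^ m ≤ 1 := pow_le_one₀ h0.le h1.le
    have e1 : (ζ ^ 2) ^ m = ζ ^ m * ζ ^ m := by rw [← pow_mul, two_mul, pow_add]
    have e2 : (ζ ^ 2) ^ (m + 1) = ζ ^ m * ζ ^ m * ζ ^ 2 := by rw [pow_succ, e1]
    have e3 : ζ ^ (m + 1) = ζ ^ m * ζ := pow_succ _ _
    rw [e1] at ih
    rw [e2, e3]
    push_cast
    set p := ζ ^ m with hpd
    have h2 : (m : ℝ) * (1 - ζ ^ 2) * p * ζ ≤ (1 - p * p) * ζ :=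
      mul_le_mul_of_nonneg_right ih h0.le
    have h3 : 0 ≤ (1 - ζ) * ((1 - p) ^ 2 + (1 - ζ) * p * (2 + ζ - p)) := by
      have a1 : 0 ≤ 1 - ζ := by linarith
      have a2 : 0 ≤ 2 + ζ - p := by linarith
      positivity
    have h4 : (1 - ζ) * ((1 - p) ^ 2 + (1 - ζ) * p * (2 + ζ - p)) =
        1 - p * p * ζ ^ 2 - ((1 - p * p) * ζ + (1 - ζ ^ 2) * p * ζ) := by ring
    have h5 : ((m : ℝ) + 1) * (1 - ζ ^ 2) * (p * ζ) =
        (m : ℝ) * (1 - ζ ^ 2) * p * ζ + (1 - ζ ^ 2) * p * ζ := by ring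
    linarith

private theorem GronT_tel {v : ℝ} (hv : 0 < v) (n : ℕ) :
    ∑ s ∈ range n, 1 / Real.sqrt (1 + v * ((s : ℝ) + 1)) ^ 3 ≤ 2 / v := by
  have key : ∀ s : ℕ, 1 / Real.sqrt (1 + v * ((s : ℝ) + 1)) ^ 3 ≤
      2 / v * (1 / Real.sqrt (1 + v * (s : ℝ)) - 1 / Real.sqrt (1 + v * ((s + 1 : ℕ) : ℝ))) := by
    intro s
    have hs : (0 : ℝ) ≤ s := Nat.cast_nonneg s
    set a := Real.sqrt (1 + v * (s : ℝ)) with ha
    set b := Real.sqrt (1 + v * ((s : ℝ) + 1)) with hb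
    have ha2 : a ^ 2 = 1 + v * s := Real.sq_sqrt (by positivity)
    have hb2 : b ^ 2 = 1 + v * (s + 1) := Real.sq_sqrt (by positivity)
    have ha0 : 0 < a := Real.sqrt_pos.2 (by positivity)
    have hb0 : 0 < b := Real.sqrt_pos.2 (by positivity)
    have hab : a ≤ b := Real.sqrt_le_sqrt (by nlinarith)
    have hba : b ^ 2 - a ^ 2 = v := by rw [ha2, hb2]; ring
    push_cast
    rw [← hb]
    have h1 : 2 / v * (1 / a - 1 / b) = 2 / (a * b * (a + b)) := by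
      rw [← hba]
      have : b ^ 2 - a ^ 2 ≠ 0 := by rw [hba]; exact hv.ne'
      have h3 : b - a ≠ 0 := by
        intro h
        apply this
        have : b = a := by linarith
        rw [this]; ring
      field_simp
      ring
    rw [h1, div_le_div_iff₀ (by positivity) (by positivity)]
    nlinarith [mul_pos ha0 hb0, mul_nonneg (mul_nonneg ha0.le hb0.le) (sub_nonneg.2 hab),
      mul_nonneg (mul_nonneg hb0.le hb0.le) (sub_nonneg.2 hab)]
  calc ∑ s ∈ range n, 1 / Real.sqrt (1 + v * ((s : ℝ) + 1)) ^ 3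
      ≤ ∑ s ∈ range n, 2 / v * (1 / Real.sqrt (1 + v * (s : ℝ)) -
          1 / Real.sqrt (1 + v * ((s + 1 : ℕ) : ℝ))) := Finset.sum_le_sum fun s _ => key s
    _ = 2 / v * (1 / Real.sqrt (1 + v * ((0 : ℕ) : ℝ)) - 1 / Real.sqrt (1 + v * (n : ℝ))) := by
        rw [← Finset.mul_sum]
        congr 1
        exact Finset.sum_range_sub' (fun s : ℕ => 1 / Real.sqrt (1 + v * (s : ℝ))) n
    _ ≤ 2 / v := by
        have h2 : 0 ≤ 1 / Real.sqrt (1 + v * (n : ℝ)) := by positivity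
        have h3 : 1 / Real.sqrt (1 + v * ((0 : ℕ) : ℝ)) = 1 := by simp
        rw [h3]
        have h4 : 0 < 2 / v := by positivity
        nlinarith

private theorem GronT_rpow {x : ℝ} (hx : 0 ≤ x) : x ^ (3 / 2 : ℝ) = Real.sqrt x ^ 3 := by
  rw [Real.sqrt_eq_rpow, ← Real.rpow_natCast, ← Real.rpow_mul hx]
  norm_num

theorem gronT {ε B : ℝ} (h0 : 0 < ε) (h1 : ε ≤ 1 / 2) (hB : 0 ≤ B) (M : ℕ) :
    ∑ m ∈ range M, (1 - ε) ^ (m + 1) * min 1 ((B / (1 - (1 - ε) ^ (m + 1))) ^ (3 / 2 : ℝ)) ≤ 8 * B / ε := by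
  rcases hB.eq_or_lt with hB0 | hB0
  · subst hB0
    have : ∀ m ∈ range M, (1 - ε) ^ (m + 1) *
        min 1 (((0 : ℝ) / (1 - (1 - ε) ^ (m + 1))) ^ (3 / 2 : ℝ)) = 0 := by
      intro m _
      rw [zero_div, Real.zero_rpow (by norm_num)]
      simp
    rw [Finset.sum_congr rfl this]
    simp
  set v : ℝ := ε / B with hv
  have hv0 : 0 < v := by positivity
  set r : ℝ := Real.sqrt (1 - ε) with hr
  have hr2 : r ^ 2 = 1 - ε := Real.sq_sqrt (by linarith)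
  have hr0 : 0 < r := Real.sqrt_pos.2 (by linarith)
  have hr1 : r < 1 := by
    by_contra h
    push Not at h
    nlinarith
  have key : ∀ m : ℕ, (1 - ε) ^ (m + 1) * min 1 ((B / (1 - (1 - ε) ^ (m + 1))) ^ (3 / 2 : ℝ)) ≤
      4 * (1 / Real.sqrt (1 + v * ((m : ℝ) + 1)) ^ 3) := by
    intro m
    have hm0 : (0 : ℝ) ≤ m := Nat.cast_nonneg m
    set n : ℝ := (m : ℝ) + 1 with hn
    have hn1 : 1 ≤ n := by linarith
    set ρ : ℝ := r ^ (m + 1) with hρ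
    have hρ0 : 0 < ρ := pow_pos hr0 _
    have hρ1 : ρ ≤ 1 := pow_le_one₀ hr0.le hr1.le
    have hq : (1 - ε) ^ (m + 1) = ρ ^ 2 := by
      rw [← hr2, hρ, ← pow_mul, ← pow_mul, Nat.mul_comm]
    have hone := GronT_one_sub hr0 hr1 (m + 1)
    rw [hr2, hq] at hone
    push_cast at hone
    have hone' : n * ε * ρ ≤ 1 - ρ ^ 2 := by
      have e : (1 : ℝ) - (1 - ε) = ε := by ring
      rw [e] at hone
      exact hone
    rw [hq]
    have hδ : 0 < 1 - ρ ^ 2 := lt_of_lt_of_le (by positivity) hone'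
    set y : ℝ := B / (1 - ρ ^ 2) with hy
    have hy0 : 0 ≤ y := by positivity
    rw [GronT_rpow hy0]
    set Z : ℝ := Real.sqrt (1 + v * n) with hZ
    have hZ2 : Z ^ 2 = 1 + v * n := Real.sq_sqrt (by positivity)
    have hZ0 : 0 < Z := Real.sqrt_pos.2 (by positivity)
    have hρ2 : ρ ^ 2 ≤ 1 := by nlinarith
    rw [mul_one_div, le_div_iff₀ (by positivity)]
    rcases le_or_gt (v * n) 1 with hvn | hvn
    · -- small
      have hZ3 : Z ^ 3 ≤ 4 := by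
        have h2 : Z ^ 2 ≤ 2 := by rw [hZ2]; linarith
        have h3 : Z ≤ 2 := by nlinarith
        nlinarith
      have h4 : ρ ^ 2 * min 1 (Real.sqrt y ^ 3) ≤ 1 := by
        have h5 : min 1 (Real.sqrt y ^ 3) ≤ 1 := min_le_left _ _
        have h6 : 0 ≤ min 1 (Real.sqrt y ^ 3) := le_min zero_le_one (by positivity)
        nlinarith [sq_nonneg ρ]
      calc ρ ^ 2 * min 1 (Real.sqrt y ^ 3) * Z ^ 3 ≤ 1 * 4 :=
            mul_le_mul h4 hZ3 (by positivity) zero_le_one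
        _ = 4 := one_mul _
    · -- large
      set s : ℝ := Real.sqrt y with hs
      have hs0 : 0 ≤ s := Real.sqrt_nonneg _
      have hs2 : s ^ 2 = y := Real.sq_sqrt hy0
      have hvn0 : 0 < v * n := by positivity
      -- y * (v n ρ) ≤ 1
      have hyv : y * (v * n * ρ) ≤ 1 := by
        rw [hy, div_mul_eq_mul_div, div_le_one hδ]
        have : B * (v * n * ρ) = n * ε * ρ := by
          rw [hv]
          field_simp
        rw [this]
        exact hone'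
      have hsq : (ρ ^ 2 * s ^ 3 * Z ^ 3) ^ 2 ≤ 4 ^ 2 := by
        have e1 : (ρ ^ 2 * s ^ 3 * Z ^ 3) ^ 2 = ρ ^ 4 * (s ^ 2) ^ 3 * (Z ^ 2) ^ 3 := by ring
        rw [e1, hs2]
        have h2 : Z ^ 2 ≤ 2 * (v * n) := by rw [hZ2]; linarith
        have h3 : (Z ^ 2) ^ 3 ≤ (2 * (v * n)) ^ 3 := pow_le_pow_left₀ (by positivity) h2 3
        have h4 : ρ ^ 4 * y ^ 3 * (Z ^ 2) ^ 3 ≤ ρ ^ 4 * y ^ 3 * (2 * (v * n)) ^ 3 :=
          mul_le_mul_of_nonneg_left h3 (by positivity)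
        have h5 : ρ ^ 4 * y ^ 3 * (2 * (v * n)) ^ 3 = 8 * (ρ * (y * (v * n * ρ)) ^ 3) := by ring
        have h6 : (y * (v * n * ρ)) ^ 3 ≤ 1 := pow_le_one₀ (by positivity) hyv
        have h7 : 0 ≤ (y * (v * n * ρ)) ^ 3 := by positivity
        have h8 : ρ * (y * (v * n * ρ)) ^ 3 ≤ 1 := by nlinarith
        rw [h5] at h4
        linarith
      have hle : ρ ^ 2 * s ^ 3 * Z ^ 3 ≤ 4 := by
        have := abs_le_of_sq_le_sq hsq (by norm_num)
        exact (le_abs_self _).trans this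
      calc ρ ^ 2 * min 1 (s ^ 3) * Z ^ 3 ≤ ρ ^ 2 * s ^ 3 * Z ^ 3 := by
            have h5 : min 1 (s ^ 3) ≤ s ^ 3 := min_le_right _ _
            gcongr
        _ ≤ 4 := hle
  calc ∑ m ∈ range M, (1 - ε) ^ (m + 1) * min 1 ((B / (1 - (1 - ε) ^ (m + 1))) ^ (3 / 2 : ℝ))
      ≤ ∑ m ∈ range M, 4 * (1 / Real.sqrt (1 + v * ((m : ℝ) + 1)) ^ 3) :=
        Finset.sum_le_sum fun m _ => key m
    _ = 4 * ∑ m ∈ range M, 1 / Real.sqrt (1 + v * ((m : ℝ) + 1)) ^ 3 := by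
        rw [Finset.mul_sum]
    _ ≤ 4 * (2 / v) := mul_le_mul_of_nonneg_left (GronT_tel hv0 M) (by norm_num)
    _ = 8 * B / ε := by
        rw [hv]
        field_simp
        norm_num

end Pool.Agent.ZCS
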