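import Pool.Agent.ZCS.GronK
import Pool.Agent.ZCS.GronT
import Pool.Agent.ZCS.GronD

/-!
Module GronR (analysis): a Gronwall inequality with gaps, for masses whose sum over a dyadic block `[2^k, 2^(k+1))`, for every
gap, is at most `C0 * (k + 1)`.

PAPER PROOF of `gronR`. Let `q = 1 - ε`, `ℓ = 1 + log (1 / ε)`, `A = √(ℓ / ε)`, `Λ t = A * √(1 - q ^ t)` (nondecreasing, between `0`
and `A`), `Z t = S t * exp (- Λ t)`. As in HHP/Gron and ZHW/Gron: multiply the hypothesis by `exp (- Λ n) <= exp (- Λ a)` (`a <= n`):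
`Z n <= K + ∑ b < n, κ b * Z b`, `κ b = ∑ s < N, J (b + s + 1) b * q ^ (2 b + s + 1) * exp (- (Λ (b + s + 1) - Λ b))` (`n <= N`), so
`S n <= K * exp (A + ∑ b < N, κ b)` (`gron_disc`, `gron_reorg` in HHZ/GronZ.lean can be cited or copied). With `w = q ^ b`,
`δ = 1 - q ^ (s + 1)`: `1 - q ^ (b + s + 1) = 1 - w + w δ`, so by `gronK`
`κ b <= ∑ s < N, J (b + s + 1) b * q ^ (s + 1) * √w * (min 1 ((3 √(1 - w) / (A δ)) ^ (3/2)) + min 1 ((4 / (A^2 δ)) ^ (3/2)))`.
For `b ∈ [2^k, 2^(k+1))`: `√w = q ^ (b / 2) <= exp (- ε 2 ^ k / 2)` and `1 - w <= ε b <= ε 2 ^ (k + 1)`; exchanging the sums over `b` and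
`s`, the hypothesis and `gronT` with `B = 3 √(ε 2 ^ (k+1)) / A` and `B = 4 / A ^ 2`:
`∑_{b in block k} κ b <= C0 (k + 1) * exp (- ε 2 ^ k / 2) * (8 / ε) * (3 √(ε 2 ^ (k+1)) / A + 4 / A ^ 2)`, and
`κ 0 <= C0 * (8 / ε) * (4 / A ^ 2)` (`w = 1`). Sum over `k` with `gronD`: `∑ κ <= C C0 * (ℓ / (ε A) + ℓ ^ 2 / (ε A ^ 2) + 1 / (ε A ^ 2))
<= 3 C C0 * √(ℓ / ε)` because `A = √(ℓ / ε)`, `1 <= ℓ <= √(ℓ / ε)` (`ε ℓ <= 1`: `log (1 / ε) <= 1 / ε - 1`).
-/

namespace Pool.Agent.ZCS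

open Finset
open scoped ENNReal

private theorem gronR_disc (K : ℝ) (Z κ : ℕ → ℝ) (hκ : ∀ n, 0 ≤ κ n) (N : ℕ)
    (h : ∀ n ≤ N, Z n ≤ K + ∑ b ∈ range n, κ b * Z b) :
    ∀ n ≤ N, Z n ≤ K * ∏ b ∈ range n, (1 + κ b) := by
  have key : ∀ n, n ≤ N → K + ∑ b ∈ range n, κ b * Z b ≤ K * ∏ b ∈ range n, (1 + κ b) := by
    intro n
    induction n with
    | zero => intro _; simp
    | succ n ih =>
      intro hn
      have h1 := ih (by omega)
      have h2 := (h n (by omega)).trans h1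
      rw [sum_range_succ, prod_range_succ]
      have h3 := mul_le_mul_of_nonneg_left h2 (hκ n)
      nlinarith
  intro n hn
  exact (h n hn).trans (key n hn)

private theorem gronR_reorg (f : ℕ → ℕ → ℝ) (hf : ∀ a b, 0 ≤ f a b) {m n : ℕ} (hmn : m ≤ n) :
    ∑ a ∈ range (m + 1), ∑ b ∈ range a, f a b ≤
      ∑ b ∈ range m, ∑ s ∈ range n, f (b + s + 1) b := by
  have h1 : ∑ a ∈ range (m + 1), ∑ b ∈ range a, f a b =
      ∑ b ∈ range m, ∑ a ∈ Ico (b + 1) (m + 1), f a b := by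
    apply sum_comm'
    intro a b
    simp only [mem_range, mem_Ico]
    omega
  rw [h1]
  refine sum_le_sum fun b hb => ?_
  rw [mem_range] at hb
  rw [sum_Ico_eq_sum_range]
  have h2 : ∀ s, f (b + 1 + s) b = f (b + s + 1) b := fun s => by
    congr 1; ring
  simp only [h2]
  exact sum_le_sum_of_subset_of_nonneg (range_mono (by omega)) fun _ _ _ => hf _ _

private theorem gronR_core {q A : ℝ} (hq0 : 0 < q) (Λ : ℕ → ℝ) (hΛ0 : ∀ t, 0 ≤ Λ t) (hΛA : ∀ t, Λ t ≤ A)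
    (hΛm : ∀ a b, a ≤ b → Λ a ≤ Λ b)
    {K : ℝ} (hK : 0 ≤ K) (J : ℕ → ℕ → ℝ) (hJ : ∀ a b, 0 ≤ J a b) (S : ℕ → ℝ) (hS : ∀ n, 0 ≤ S n)
    (hrec : ∀ n, S n ≤ K + ∑ a ∈ range (n + 1), ∑ b ∈ range a, J a b * q ^ (a + b) * S b)
    (n : ℕ) : S n ≤ K * Real.exp (A + ∑ b ∈ range n, ∑ s ∈ range n,
      J (b + s + 1) b * (q ^ (2 * b + (s + 1)) * Real.exp (-(Λ (b + s + 1) - Λ b)))) := by
  set Z : ℕ → ℝ := fun m => S m * Real.exp (-Λ m) with hZ
  have hZ0 : ∀ m, 0 ≤ Z m := fun m => mul_nonneg (hS m) (Real.exp_pos _).le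
  set F : ℕ → ℕ → ℝ := fun a b => J a b * q ^ (a + b) * Real.exp (-(Λ a - Λ b)) * Z b with hF
  have hF0 : ∀ a b, 0 ≤ F a b := fun a b => by
    have := hJ a b
    have := hZ0 b
    simp only [hF]
    positivity
  set κ : ℕ → ℝ := fun b => ∑ s ∈ range n,
    J (b + s + 1) b * (q ^ (2 * b + (s + 1)) * Real.exp (-(Λ (b + s + 1) - Λ b))) with hκ
  have hκ0 : ∀ b, 0 ≤ κ b := fun b => sum_nonneg fun s _ => by
    have := hJ (b + s + 1) b
    positivity
  have hZrec : ∀ m ≤ n, Z m ≤ K + ∑ b ∈ range m, κ b * Z b := by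
    intro m hm
    have a1 : Z m ≤ K + ∑ a ∈ range (m + 1), ∑ b ∈ range a, F a b := by
      have b1 : Z m ≤ (K + ∑ a ∈ range (m + 1), ∑ b ∈ range a, J a b * q ^ (a + b) * S b) *
          Real.exp (-Λ m) := mul_le_mul_of_nonneg_right (hrec m) (Real.exp_pos _).le
      refine b1.trans ?_
      rw [add_mul]
      apply add_le_add
      · have : Real.exp (-Λ m) ≤ 1 := Real.exp_le_one_iff.2 (by have := hΛ0 m; linarith)
        nlinarith
      · rw [sum_mul]
        refine sum_le_sum fun a ha => ?_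
        rw [sum_mul]
        refine sum_le_sum fun b _ => ?_
        rw [mem_range] at ha
        have c1 : Real.exp (-Λ m) ≤ Real.exp (-Λ a) :=
          Real.exp_le_exp.2 (neg_le_neg (hΛm a m (by omega)))
        have c2 : F a b = J a b * q ^ (a + b) * S b * Real.exp (-Λ a) := by
          simp only [hF, hZ]
          have : Real.exp (-Λ a) = Real.exp (-(Λ a - Λ b)) * Real.exp (-Λ b) := by
            rw [← Real.exp_add]; congr 1; ring
          rw [this]; ring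
        rw [c2]
        have := hJ a b
        have := hS b
        gcongr
    refine a1.trans (add_le_add le_rfl ?_)
    refine (gronR_reorg F hF0 hm).trans (le_of_eq ?_)
    refine sum_congr rfl fun b _ => ?_
    simp only [hκ, hF]
    rw [sum_mul]
    refine sum_congr rfl fun s _ => ?_
    have : b + s + 1 + b = 2 * b + (s + 1) := by ring
    rw [this]
    ring
  have h2 := gronR_disc K Z κ hκ0 n hZrec n le_rfl
  have h3 : ∏ b ∈ range n, (1 + κ b) ≤ Real.exp (∑ b ∈ range n, κ b) := by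
    rw [Real.exp_sum]
    refine prod_le_prod (fun b _ => by have := hκ0 b; linarith) fun b _ => ?_
    have := Real.add_one_le_exp (κ b)
    linarith
  have h5 : S n = Z n * Real.exp (Λ n) := by
    simp only [hZ]
    rw [mul_assoc, ← Real.exp_add]
    simp
  rw [h5]
  calc Z n * Real.exp (Λ n) ≤ (K * Real.exp (∑ b ∈ range n, κ b)) * Real.exp A := by
        apply mul_le_mul _ (Real.exp_le_exp.2 (hΛA n)) (Real.exp_pos _).le (by positivity)
        exact h2.trans (mul_le_mul_of_nonneg_left h3 hK)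
    _ = K * Real.exp (A + ∑ b ∈ range n, κ b) := by
        rw [mul_assoc, ← Real.exp_add]
        congr 2
        ring

private theorem gronR_dyadic (f : ℕ → ℝ) (N : ℕ) :
    ∑ b ∈ range (2 ^ N), f b = f 0 + ∑ k ∈ range N, ∑ b ∈ Ico (2 ^ k) (2 ^ (k + 1)), f b := by
  induction N with
  | zero => simp
  | succ N ih =>
    rw [sum_range_succ, ← add_assoc, ← ih]
    have h1 : (2 : ℕ) ^ N ≤ 2 ^ (N + 1) := Nat.pow_le_pow_right (by norm_num) (by omega)
    have h2 := sum_Ico_consecutive f (Nat.zero_le (2 ^ N)) h1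
    rw [range_eq_Ico, range_eq_Ico]
    exact h2.symm

private theorem gronR_root {ε : ℝ} (h0 : 0 < ε) (h1 : ε ≤ 1 / 2) {k b : ℕ} (hb : 2 ^ k ≤ b) :
    Real.sqrt ((1 - ε) ^ b) ≤ Real.exp (-(ε * 2 ^ k / 2)) := by
  have hb' : (2 : ℝ) ^ k ≤ b := by exact_mod_cast hb
  have a1 : (1 - ε) ^ b ≤ Real.exp (-(ε * 2 ^ k)) := by
    have b1 : 1 - ε ≤ Real.exp (-ε) := by
      have := Real.add_one_le_exp (-ε)
      linarith
    calc (1 - ε) ^ b ≤ Real.exp (-ε) ^ b := pow_le_pow_left₀ (by linarith) b1 b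
      _ = Real.exp (b * (-ε)) := by rw [← Real.exp_nat_mul]
      _ ≤ Real.exp (-(ε * 2 ^ k)) := Real.exp_le_exp.2 (by nlinarith)
  rw [Real.sqrt_le_left (Real.exp_pos _).le, ← Real.exp_nat_mul]
  refine a1.trans (le_of_eq ?_)
  congr 1
  push_cast
  ring

private theorem gronR_bern {ε : ℝ} (h0 : 0 < ε) (h1 : ε ≤ 1 / 2) {k b : ℕ} (hb : b < 2 ^ (k + 1)) :
    1 - (1 - ε) ^ b ≤ ε * 2 ^ (k + 1) := by
  have hb' : (b : ℝ) ≤ 2 ^ (k + 1) := by exact_mod_cast hb.le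
  have := one_add_mul_le_pow (show (-2 : ℝ) ≤ -ε by linarith) b
  have e : (1 + -ε) ^ b = (1 - ε) ^ b := by ring
  rw [e] at this
  nlinarith

theorem gronR (C0 : ℝ) (hC0 : 0 ≤ C0) : ∃ C1 : ℝ, 0 < C1 ∧ ∀ ε : ℝ, 0 < ε → ε ≤ 1 / 2 → ∀ K : ℝ, 0 ≤ K →
    ∀ J : ℕ → ℕ → ℝ, (∀ a b, 0 ≤ J a b) → (∀ s : ℕ, J (s + 1) 0 ≤ C0) →
    (∀ k s : ℕ, ∑ b ∈ Ico (2 ^ k) (2 ^ (k + 1)), J (b + s + 1) b ≤ C0 * ((k : ℝ) + 1)) →
    ∀ S : ℕ → ℝ, (∀ n, 0 ≤ S n) →
    (∀ n, S n ≤ K + ∑ a ∈ range (n + 1), ∑ b ∈ range a, J a b * (1 - ε) ^ (a + b) * S b) →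
    ∀ n, S n ≤ K * Real.exp (C1 * Real.sqrt ((1 + Real.log (1 / ε)) / ε)) := by
  obtain ⟨C, hC, hD⟩ := gronD
  refine ⟨1 + (32 + 56 * C) * C0, by positivity, ?_⟩
  intro ε h0 h1 K hK J hJ hJ0 hJk S hS hrec n
  set q := 1 - ε with hq
  have hq0 : 0 < q := by rw [hq]; linarith
  have hq1 : q < 1 := by rw [hq]; linarith
  set l := 1 + Real.log (1 / ε) with hl
  have hlog : 0 ≤ Real.log (1 / ε) := Real.log_nonneg (by rw [le_div_iff₀ h0]; linarith)
  have hl1 : 1 ≤ l := by rw [hl]; linarith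
  have hl2 : l ≤ 1 / ε := by
    have : Real.log (1 / ε) ≤ 1 / ε - 1 := Real.log_le_sub_one_of_pos (by positivity)
    rw [hl]; linarith
  set A := Real.sqrt (l / ε) with hA
  have hl0 : 0 < l := by linarith
  have hA0 : 0 < A := Real.sqrt_pos.2 (by positivity)
  have hA2 : A ^ 2 = l / ε := Real.sq_sqrt (by positivity)
  have hlA : l ≤ A := by
    rw [hA]
    apply Real.le_sqrt_of_sq_le
    rw [le_div_iff₀ h0]
    have : ε * l ≤ 1 := by rw [le_div_iff₀ h0] at hl2; linarith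
    nlinarith
  set Λ : ℕ → ℝ := fun t => A * Real.sqrt (1 - q ^ t) with hΛ
  have hpow : ∀ t, q ^ t ≤ 1 := fun t => pow_le_one₀ hq0.le hq1.le
  have hΛ0 : ∀ t, 0 ≤ Λ t := fun t => mul_nonneg hA0.le (Real.sqrt_nonneg _)
  have hΛA : ∀ t, Λ t ≤ A := fun t => by
    have a1 : Real.sqrt (1 - q ^ t) ≤ 1 := by
      rw [Real.sqrt_le_one]
      have : 0 < q ^ t := pow_pos hq0 t
      linarith
    simp only [hΛ]
    nlinarith
  have hΛm : ∀ a b, a ≤ b → Λ a ≤ Λ b := fun a b hab => by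
    have : q ^ b ≤ q ^ a := pow_le_pow_of_le_one hq0.le hq1.le hab
    simp only [hΛ]
    apply mul_le_mul_of_nonneg_left _ hA0.le
    exact Real.sqrt_le_sqrt (by linarith)
  have hcore := gronR_core hq0 Λ hΛ0 hΛA hΛm hK J hJ S hS hrec n
  refine hcore.trans (mul_le_mul_of_nonneg_left (Real.exp_le_exp.2 ?_) hK)
  -- the kernel
  set D : ℕ → ℝ := fun s => 1 - q ^ (s + 1) with hDd
  have hD0 : ∀ s, 0 < D s := fun s => by
    have : q ^ (s + 1) < 1 := pow_lt_one₀ hq0.le hq1 (by omega)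
    simp only [hDd]; linarith
  have hker : ∀ b s : ℕ, q ^ (2 * b + (s + 1)) * Real.exp (-(Λ (b + s + 1) - Λ b)) ≤
      q ^ (s + 1) * (Real.sqrt (q ^ b) * (min 1 ((3 * Real.sqrt (1 - q ^ b) / (A * D s)) ^ (3 / 2 : ℝ)) +
        min 1 ((4 / (A ^ 2 * D s)) ^ (3 / 2 : ℝ)))) := by
    intro b s
    have := gronK hA0 (pow_pos hq0 b) (hpow b) (hD0 s)
    have e1 : q ^ (2 * b + (s + 1)) = q ^ (s + 1) * (q ^ b) ^ 2 := by
      rw [pow_add, two_mul, pow_add]; ring
    have e2 : Λ (b + s + 1) - Λ b =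
        A * (Real.sqrt (1 - q ^ b + q ^ b * D s) - Real.sqrt (1 - q ^ b)) := by
      simp only [hΛ, hDd]
      have : 1 - q ^ b + q ^ b * (1 - q ^ (s + 1)) = 1 - q ^ (b + s + 1) := by
        rw [add_assoc b s 1, pow_add q b]; ring
      rw [this]; ring
    rw [e1, e2, mul_assoc]
    exact mul_le_mul_of_nonneg_left this (pow_nonneg hq0.le _)
  set G : ℝ → ℕ → ℝ := fun B s => q ^ (s + 1) * min 1 ((B / D s) ^ (3 / 2 : ℝ)) with hG
  have hG0 : ∀ B, 0 ≤ B → ∀ s, 0 ≤ G B s := fun B hB s => by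
    have := hD0 s
    have : 0 ≤ (B / D s) ^ (3 / 2 : ℝ) := by positivity
    exact mul_nonneg (pow_nonneg hq0.le _) (le_min zero_le_one this)
  have hGT : ∀ B, 0 ≤ B → ∑ s ∈ range n, G B s ≤ 8 * B / ε := fun B hB => by
    have := gronT h0 h1 hB n
    simpa only [hG, hDd, hq] using this
  -- the block k
  have hblock : ∀ k : ℕ, ∑ b ∈ Ico (2 ^ k) (2 ^ (k + 1)), ∑ s ∈ range n,
      J (b + s + 1) b * (q ^ (2 * b + (s + 1)) * Real.exp (-(Λ (b + s + 1) - Λ b))) ≤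
      C0 * (8 / ε) * (3 / A) * (((k : ℝ) + 1) * Real.exp (-(ε * 2 ^ k / 2)) * Real.sqrt (ε * 2 ^ (k + 1))) +
      C0 * (8 / ε) * (4 / A ^ 2) * (((k : ℝ) + 1) * Real.exp (-(ε * 2 ^ k / 2))) := by
    intro k
    set e := Real.exp (-(ε * 2 ^ k / 2)) with he
    have he0 : 0 < e := Real.exp_pos _
    set B := 3 * Real.sqrt (ε * 2 ^ (k + 1)) / A with hB
    have hB0 : 0 ≤ B := by positivity
    have hB'0 : (0 : ℝ) ≤ 4 / A ^ 2 := by positivity
    calc ∑ b ∈ Ico (2 ^ k) (2 ^ (k + 1)), ∑ s ∈ range n,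
          J (b + s + 1) b * (q ^ (2 * b + (s + 1)) * Real.exp (-(Λ (b + s + 1) - Λ b)))
        ≤ ∑ b ∈ Ico (2 ^ k) (2 ^ (k + 1)), ∑ s ∈ range n,
          J (b + s + 1) b * (e * (G B s + G (4 / A ^ 2) s)) := by
          refine sum_le_sum fun b hb => sum_le_sum fun s _ => ?_
          rw [mem_Ico] at hb
          apply mul_le_mul_of_nonneg_left _ (hJ _ _)
          refine (hker b s).trans ?_
          have c1 : Real.sqrt (q ^ b) ≤ e := gronR_root h0 h1 hb.1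
          have c2 : min 1 ((3 * Real.sqrt (1 - q ^ b) / (A * D s)) ^ (3 / 2 : ℝ)) ≤
              min 1 ((B / D s) ^ (3 / 2 : ℝ)) := by
            apply min_le_min le_rfl
            apply Real.rpow_le_rpow
            · have := hD0 s; positivity
            · rw [hB, div_div]
              have d1 : Real.sqrt (1 - q ^ b) ≤ Real.sqrt (ε * 2 ^ (k + 1)) :=
                Real.sqrt_le_sqrt (gronR_bern h0 h1 hb.2)
              have := hD0 s
              gcongr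
            · norm_num
          have c3 : (4 : ℝ) / (A ^ 2 * D s) = 4 / A ^ 2 / D s := by rw [div_div]
          have c4 : 0 ≤ min 1 ((3 * Real.sqrt (1 - q ^ b) / (A * D s)) ^ (3 / 2 : ℝ)) := by
            have := hD0 s
            exact le_min zero_le_one (by positivity)
          have c5 : 0 ≤ min 1 ((4 / A ^ 2 / D s) ^ (3 / 2 : ℝ)) := by
            have := hD0 s
            exact le_min zero_le_one (by positivity)
          rw [c3]
          simp only [hG]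
          calc q ^ (s + 1) * (Real.sqrt (q ^ b) * (min 1 ((3 * Real.sqrt (1 - q ^ b) / (A * D s)) ^ (3 / 2 : ℝ)) +
                min 1 ((4 / A ^ 2 / D s) ^ (3 / 2 : ℝ))))
              ≤ q ^ (s + 1) * (e * (min 1 ((B / D s) ^ (3 / 2 : ℝ)) +
                min 1 ((4 / A ^ 2 / D s) ^ (3 / 2 : ℝ)))) := by
                apply mul_le_mul_of_nonneg_left _ (pow_nonneg hq0.le _)
                apply mul_le_mul c1 (add_le_add c2 le_rfl) (by positivity) he0.le
            _ = _ := by ring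
      _ = ∑ s ∈ range n, (∑ b ∈ Ico (2 ^ k) (2 ^ (k + 1)), J (b + s + 1) b) *
            (e * (G B s + G (4 / A ^ 2) s)) := by
          rw [sum_comm]
          refine sum_congr rfl fun s _ => ?_
          rw [sum_mul]
      _ ≤ ∑ s ∈ range n, (C0 * ((k : ℝ) + 1)) * (e * (G B s + G (4 / A ^ 2) s)) := by
          refine sum_le_sum fun s _ => ?_
          apply mul_le_mul_of_nonneg_right (hJk k s)
          have := hG0 B hB0 s
          have := hG0 _ hB'0 s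
          positivity
      _ = (C0 * ((k : ℝ) + 1)) * (e * (∑ s ∈ range n, G B s + ∑ s ∈ range n, G (4 / A ^ 2) s)) := by
          rw [← mul_sum, ← mul_sum, ← sum_add_distrib]
      _ ≤ (C0 * ((k : ℝ) + 1)) * (e * (8 * B / ε + 8 * (4 / A ^ 2) / ε)) := by
          have := hGT B hB0
          have := hGT _ hB'0
          gcongr
      _ = _ := by
          rw [hB]
          ring
  have hzero : ∑ s ∈ range n,
      J (0 + s + 1) 0 * (q ^ (2 * 0 + (s + 1)) * Real.exp (-(Λ (0 + s + 1) - Λ 0))) ≤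
      C0 * (8 / ε) * (4 / A ^ 2) := by
    have hB'0 : (0 : ℝ) ≤ 4 / A ^ 2 := by positivity
    calc ∑ s ∈ range n, J (0 + s + 1) 0 * (q ^ (2 * 0 + (s + 1)) * Real.exp (-(Λ (0 + s + 1) - Λ 0)))
        ≤ ∑ s ∈ range n, C0 * G (4 / A ^ 2) s := by
          refine sum_le_sum fun s _ => ?_
          have c1 := hker 0 s
          have c3 : (4 : ℝ) / (A ^ 2 * D s) = 4 / A ^ 2 / D s := by rw [div_div]
          rw [c3] at c1
          have c2 : q ^ (s + 1) * (Real.sqrt (q ^ 0) * (min 1 ((3 * Real.sqrt (1 - q ^ 0) / (A * D s)) ^ (3 / 2 : ℝ)) +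
              min 1 ((4 / A ^ 2 / D s) ^ (3 / 2 : ℝ)))) = G (4 / A ^ 2) s := by
            simp only [hG, pow_zero, sub_self, Real.sqrt_zero, mul_zero, zero_div, Real.sqrt_one, one_mul]
            rw [Real.zero_rpow (by norm_num), min_eq_right zero_le_one, zero_add]
          rw [c2] at c1
          have c4 : J (0 + s + 1) 0 ≤ C0 := by
            have := hJ0 s
            rwa [zero_add]
          exact mul_le_mul c4 c1 (by positivity) hC0
      _ = C0 * ∑ s ∈ range n, G (4 / A ^ 2) s := by rw [mul_sum]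
      _ ≤ C0 * (8 * (4 / A ^ 2) / ε) := mul_le_mul_of_nonneg_left (hGT _ hB'0) hC0
      _ = _ := by ring
  have hsum : ∑ b ∈ range n, ∑ s ∈ range n,
      J (b + s + 1) b * (q ^ (2 * b + (s + 1)) * Real.exp (-(Λ (b + s + 1) - Λ b))) ≤
      C0 * (8 / ε) * (4 / A ^ 2) + (C0 * (8 / ε) * (3 / A) * (C * l) +
        C0 * (8 / ε) * (4 / A ^ 2) * (C * l ^ 2)) := by
    have a1 : ∑ b ∈ range n, ∑ s ∈ range n,
        J (b + s + 1) b * (q ^ (2 * b + (s + 1)) * Real.exp (-(Λ (b + s + 1) - Λ b))) ≤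
        ∑ b ∈ range (2 ^ n), ∑ s ∈ range n,
        J (b + s + 1) b * (q ^ (2 * b + (s + 1)) * Real.exp (-(Λ (b + s + 1) - Λ b))) := by
      apply sum_le_sum_of_subset_of_nonneg (range_mono Nat.lt_two_pow_self.le)
      intro b _ _
      refine sum_nonneg fun s _ => ?_
      have := hJ (b + s + 1) b
      positivity
    refine a1.trans ?_
    rw [gronR_dyadic]
    refine add_le_add hzero ?_
    obtain ⟨d1, d2⟩ := hD ε h0 h1 n
    calc ∑ k ∈ range n, ∑ b ∈ Ico (2 ^ k) (2 ^ (k + 1)), ∑ s ∈ range n,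
          J (b + s + 1) b * (q ^ (2 * b + (s + 1)) * Real.exp (-(Λ (b + s + 1) - Λ b)))
        ≤ ∑ k ∈ range n, (C0 * (8 / ε) * (3 / A) *
            (((k : ℝ) + 1) * Real.exp (-(ε * 2 ^ k / 2)) * Real.sqrt (ε * 2 ^ (k + 1))) +
          C0 * (8 / ε) * (4 / A ^ 2) * (((k : ℝ) + 1) * Real.exp (-(ε * 2 ^ k / 2)))) :=
          sum_le_sum fun k _ => hblock k
      _ = C0 * (8 / ε) * (3 / A) * ∑ k ∈ range n,
            ((k : ℝ) + 1) * Real.exp (-(ε * 2 ^ k / 2)) * Real.sqrt (ε * 2 ^ (k + 1)) +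
          C0 * (8 / ε) * (4 / A ^ 2) * ∑ k ∈ range n, ((k : ℝ) + 1) * Real.exp (-(ε * 2 ^ k / 2)) := by
          rw [sum_add_distrib, ← mul_sum, ← mul_sum]
      _ ≤ _ := by
          apply add_le_add
          · exact mul_le_mul_of_nonneg_left d1 (by positivity)
          · exact mul_le_mul_of_nonneg_left d2 (by positivity)
  -- evaluation
  have e1 : (8 / ε) * (4 / A ^ 2) = 32 / l := by
    rw [hA2]; field_simp; ring
  have e2 : (8 / ε) * (3 / A) * l = 24 * A := by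
    have : l = A ^ 2 * ε := by rw [hA2]; field_simp
    rw [this]; field_simp; ring
  have e3 : C0 * (8 / ε) * (4 / A ^ 2) + (C0 * (8 / ε) * (3 / A) * (C * l) +
        C0 * (8 / ε) * (4 / A ^ 2) * (C * l ^ 2)) = C0 * (32 / l) + C * C0 * (24 * A) + C * C0 * (32 * l) := by
    have f1 : C0 * (8 / ε) * (4 / A ^ 2) = C0 * (32 / l) := by rw [← e1]; ring
    have f2 : C0 * (8 / ε) * (3 / A) * (C * l) = C * C0 * (24 * A) := by rw [← e2]; ring
    have f3 : C0 * (8 / ε) * (4 / A ^ 2) * (C * l ^ 2) = C * C0 * (32 * l) := by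
      rw [f1]; field_simp
    rw [f3, f2, f1]; ring
  rw [e3] at hsum
  have g1 : 32 / l ≤ 32 * A := by
    rw [div_le_iff₀ hl0]
    nlinarith
  have g2 : C0 * (32 / l) ≤ C0 * (32 * A) := mul_le_mul_of_nonneg_left g1 hC0
  have g3 : C * C0 * (32 * l) ≤ C * C0 * (32 * A) := by
    apply mul_le_mul_of_nonneg_left _ (by positivity)
    linarith
  have : (1 + (32 + 56 * C) * C0) * A = A + (C0 * (32 * A) + C * C0 * (24 * A) + C * C0 * (32 * A)) := by ring
  rw [this]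
  linarith

end Pool.Agent.ZCS
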