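import Pool.Agent.ZCS.SgD
import Pool.Agent.ZCS.Fw
import Pool.Agent.ZHW.Flip

/-!
Module HWs: half-plane walks against chains of strands in which all consecutive strands are disjoint.

PAPER PROOF. `cont_le`: induction on `k` (for all `j`, `h`, `X`). Let `r ∈ HT t j` with `X ++ r.map (refl t) ∈ saws t`. Either `r = []`
(mass `1`) or, with `d` the smallest number with `r ∈ HT t d` (`1 <= d <= j`; so `k >= 1`), `r = b ++ r'`, `b ∈ BT t d`,
`r'.map (refl t) ∈ HT t (d - 1)` (`HT_succ_decomp`, SHP/HW). Then `b ∈ WB t d` (`BT_WB`), `Disj (fl t X) b` by `JP_disj` (the prefix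
`X ++ b.map (refl t)` of a self-avoiding word is self-avoiding, so `(X, b) ∈ JP t h d`), hence `Sg t (n d) (fl t X) b` (`sg_of_disj`, `fl_CB`, `CB_WB`),
and `r'' = r'.map (refl t)` satisfies `b ++ r''.map (refl t) = b ++ r' = r`, which is self-avoiding (`map_refl_saws` for the factor
`r.map (refl t)`, or directly), so `r'' ∈ ct t (d - 1) b`, `d - 1 <= k - 1`, `d - 1 < d`. The map `r ↦ (d, b, r'')` is injective and the
lengths add; `(y * zc t) ^ b.length <= y ^ d * (zc t) ^ b.length` (`d <= b.length`: `fst_sum_le_length`). So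
`gf (ct t j X) (y * zc t) <= 1 + ∑ d ∈ [1, j], y ^ d * ∑ (b ∈ BT t d with Sg), (zc t) ^ b.length * V t n y (k - 1) d b <= V t n y k h X` (`j < h`).
`hw_chain` is the same first step without `X` (compare `hw_pair` in ZHW/HWPair). For `j = 0`: `HT t 0 = {[]}`.
-/

namespace Pool.Agent.ZCS

open Pool.Agent.SHP Pool.Agent.ZHW Finset
open scoped ENNReal NNReal

variable {t : Bool}

/-- The continuations of the strand `X` (reflected half-plane walks of width at most `j`). -/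
def ct (t : Bool) (j : ℕ) (X : Wd) : Set Wd := {r | r ∈ HT t j ∧ X ++ r.map (refl t) ∈ saws t}

/-- The first strand of a nonempty word of `HT t m`. -/
private theorem HWs_first {m : ℕ} {w : Wd} (hw : w ∈ HT t m) (hne : w ≠ []) :
    ∃ d < m, ∃ b r : Wd, w = b ++ r.map (refl t) ∧ b ∈ BT t (d + 1) ∧ r ∈ HT t d := by
  classical
  have hex : ∃ n, w ∈ HT t n := ⟨m, hw⟩
  have h0 : w ∉ HT t 0 := by
    intro h
    have h1 := h.2 w [] (List.append_nil w).symm
    have h2 := h.1.2 w [] (List.append_nil w).symm hne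
    push_cast at h1
    omega
  have h1 : Nat.find hex ≤ m := Nat.find_min' hex hw
  have h2 : w ∈ HT t (Nat.find hex) := Nat.find_spec hex
  have h3 : Nat.find hex ≠ 0 := by
    intro h
    rw [h] at h2
    exact h0 h2
  obtain ⟨d, hd⟩ : ∃ d, Nat.find hex = d + 1 := ⟨Nat.find hex - 1, by omega⟩
  have h4 : w ∉ HT t d := Nat.find_min hex (by omega)
  rw [hd] at h2
  obtain ⟨b, r, e, hb, hr⟩ := HT_succ_decomp h2 h4
  exact ⟨d, by omega, b, r.map (refl t), by rw [map_map_refl, e], hb, hr⟩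

private theorem HWs_decomp {A : Set Wd} (j : ℕ) (z : ℝ≥0) (C : ℕ → Wd → Prop)
    (hA : ∀ w ∈ A, w ≠ [] → ∃ d < j, ∃ b r : Wd, w = b ++ r.map (refl t) ∧ (b ∈ BT t (d + 1) ∧ C d b) ∧
      r ∈ ct t d b) :
    gf A z ≤ 1 + ∑ d ∈ range j, ∑' b : {b : Wd | b ∈ BT t (d + 1) ∧ C d b},
      (z : ℝ≥0∞) ^ (b : Wd).length * gf (ct t d (b : Wd)) z := by
  classical
  set A' : Set Wd := {w | w ∈ A ∧ w ≠ []} with hA'
  have h1 : A ⊆ insert [] A' := by
    intro w hw
    by_cases h : w = []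
    · exact Or.inl h
    · exact Or.inr ⟨hw, h⟩
  refine (gf_mono_set h1 z).trans ((gf_insert_nil_le A' z).trans ?_)
  gcongr
  have h2 : ∀ w : A', ∃ x : (Σ d : Fin j, Σ b : {b : Wd | b ∈ BT t ((d : ℕ) + 1) ∧ C d b}, ct t d (b : Wd)),
      (w : Wd) = (x.2.1 : Wd) ++ (x.2.2 : Wd).map (refl t) := by
    rintro ⟨w, hw, hne⟩
    obtain ⟨d, hd, b, r, e, hb, hr⟩ := hA w hw hne
    exact ⟨⟨⟨d, hd⟩, ⟨b, hb⟩, ⟨r, hr⟩⟩, e⟩
  choose φ hφ using h2
  have hinj : Function.Injective φ := by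
    intro w w' h
    apply Subtype.ext
    rw [hφ w, hφ w', h]
  have h3 : ∑ d ∈ range j, ∑' b : {b : Wd | b ∈ BT t (d + 1) ∧ C d b},
      (z : ℝ≥0∞) ^ (b : Wd).length * gf (ct t d (b : Wd)) z =
      ∑' x : (Σ d : Fin j, Σ b : {b : Wd | b ∈ BT t ((d : ℕ) + 1) ∧ C d b}, ct t d (b : Wd)),
        (z : ℝ≥0∞) ^ (x.2.1 : Wd).length * (z : ℝ≥0∞) ^ (x.2.2 : Wd).length := by
    rw [ENNReal.tsum_sigma', tsum_fintype, Finset.sum_range]
    refine Finset.sum_congr rfl fun d _ => ?_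
    rw [ENNReal.tsum_sigma']
    refine tsum_congr fun b => ?_
    exact ENNReal.tsum_mul_left.symm
  rw [h3]
  unfold gf
  refine le_trans (le_of_eq ?_) (ENNReal.tsum_comp_le_tsum_of_injective hinj _)
  refine tsum_congr fun w => ?_
  rw [← pow_add]
  congr 1
  conv_lhs => rw [hφ w]
  rw [List.length_append, List.length_map]

/-- One level of the sum. -/
private theorem HWs_level {y : ℝ≥0} (hy : y ≤ 1) (d : ℕ) (C : Wd → Prop) (G : Wd → ℝ≥0∞) (F : Wd → ℝ≥0∞)
    (h : ∀ b ∈ BT t (d + 1), C b → G b ≤ F b) :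
    ∑' b : {b : Wd | b ∈ BT t (d + 1) ∧ C b}, ((y * zc t : ℝ≥0) : ℝ≥0∞) ^ (b : Wd).length * G (b : Wd) ≤
      (y : ℝ≥0∞) ^ (d + 1) * sm t (d + 1) F := by
  unfold sm
  rw [← ENNReal.tsum_mul_left]
  have hsub : {b : Wd | b ∈ BT t (d + 1) ∧ C b} ⊆ WB t (d + 1) := fun b hb => BT_WB hb.1
  refine le_trans ?_ (ENNReal.tsum_mono_subtype
    (fun b : Wd => (y : ℝ≥0∞) ^ (d + 1) * ((zc t : ℝ≥0∞) ^ b.length * F b)) hsub)
  refine ENNReal.tsum_le_tsum fun b => ?_
  obtain ⟨b, hb, hC⟩ := b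
  have h1 : (b.sum.1 : ℤ) ≤ (b.length : ℤ) := fst_sum_le_length (t := t) hb.1.1.1.1
  have h2 : d + 1 ≤ b.length := by
    have := hb.2
    rw [this] at h1
    exact_mod_cast h1
  have h3 : (y : ℝ≥0∞) ^ b.length ≤ (y : ℝ≥0∞) ^ (d + 1) :=
    pow_le_pow_of_le_one zero_le (by exact_mod_cast hy) h2
  show ((y * zc t : ℝ≥0) : ℝ≥0∞) ^ b.length * G b ≤ (y : ℝ≥0∞) ^ (d + 1) * ((zc t : ℝ≥0∞) ^ b.length * F b)
  rw [ENNReal.coe_mul, mul_pow, mul_assoc]
  gcongr
  exact h b hb hC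

private theorem HWs_shift (f : ℕ → ℝ≥0∞) {j h : ℕ} (hjh : j < h) :
    ∑ d ∈ range j, f (d + 1) ≤ ∑ d ∈ range h, f d := by
  have h1 : ∑ d ∈ range j, f (d + 1) ≤ ∑ d ∈ range (j + 1), f d := by
    rw [Finset.sum_range_succ']
    exact le_self_add
  exact h1.trans (Finset.sum_le_sum_of_subset (Finset.range_mono (by omega)))

theorem cont_le (n : ℕ → ℕ) {y : ℝ≥0} (hy : y ≤ 1) (k j h : ℕ) (hjk : j ≤ k) (hjh : j < h) {X : Wd} (hX : X ∈ BT t h) :
    gf (ct t j X) (y * zc t) ≤ V t n y k h X := by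
  classical
  induction k generalizing j h X with
  | zero =>
    have hj : j = 0 := by omega
    subst hj
    have h1 : ct t 0 X ⊆ HT t 0 := fun r hr => hr.1
    refine (gf_mono_set h1 _).trans ((gf_HT_zero _).trans ?_)
    rw [V]
  | succ k ih =>
    have hdec := HWs_decomp (t := t) (A := ct t j X) j (y * zc t) (fun d b => Sg t (n (d + 1)) (fl t X) b) (by
      intro w hw hne
      obtain ⟨d, hd, b, r, e, hb, hr⟩ := HWs_first hw.1 hne
      refine ⟨d, hd, b, r, e, ⟨hb, ?_⟩, hr, ?_⟩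
      · have hsa : X ++ b.map (refl t) ∈ saws t := by
          apply saws_infix (u := []) (w := r)
          have h3 := hw.2
          rw [e, List.map_append, map_map_refl] at h3
          simpa using h3
        have hJ : (X, b) ∈ JP t h (d + 1) := ⟨hX, hb, hsa⟩
        exact sg_of_disj _ (CB_WB (fl_CB hX)) (BT_WB hb) (JP_disj hJ)
      · rw [← e]
        exact hw.1.1.1)
    refine hdec.trans ?_
    rw [V]
    gcongr
    refine le_trans (Finset.sum_le_sum fun d hd => ?_) (HWs_shift _ hjh)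
    refine HWs_level hy d (fun b => Sg t (n (d + 1)) (fl t X) b) (fun b => gf (ct t d b) (y * zc t))
      (fun Y => if Sg t (n (d + 1)) (fl t X) Y then V t n (y : ℝ≥0∞) k (d + 1) Y else 0) ?_
    intro b hb hC
    rw [if_pos hC]
    exact ih d (d + 1) (by have := Finset.mem_range.1 hd; omega) (by omega) hb

theorem hw_chain (n : ℕ → ℕ) {y : ℝ≥0} (hy : y ≤ 1) (m k : ℕ) (hk : m ≤ k) :
    gf (HT t m) (y * zc t) ≤ 1 + ∑ d ∈ range (m + 1), (y : ℝ≥0∞) ^ d * sm t d (V t n y k d) := by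
  classical
  have hdec := HWs_decomp (t := t) (A := HT t m) m (y * zc t) (fun _ _ => True) (by
    intro w hw hne
    obtain ⟨d, hd, b, r, e, hb, hr⟩ := HWs_first hw hne
    refine ⟨d, hd, b, r, e, ⟨hb, trivial⟩, hr, ?_⟩
    rw [← e]
    exact hw.1.1)
  refine hdec.trans ?_
  gcongr
  refine le_trans (Finset.sum_le_sum fun d hd => ?_) (HWs_shift _ (Nat.lt_succ_self m))
  refine HWs_level hy d (fun _ => True) (fun b => gf (ct t d b) (y * zc t)) (V t n (y : ℝ≥0∞) k (d + 1)) ?_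
  intro b hb _
  exact cont_le n hy k d (d + 1) (by have := Finset.mem_range.1 hd; omega) (by omega) hb

end Pool.Agent.ZCS
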