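import Pool.Agent.ZCS.PDec
import Pool.Agent.ZCS.CrA
import Pool.Agent.ZCS.Fw

/-!
Module JDecC: the kernel `J` decomposed at the farthest common renewal level in the near part.

PAPER PROOF. `pair_dec` with `n := n h` and `F P Q = rho t (cr t (n h) P Q) ^ 2`; by `cr_app` the inner function is the constant
`rho t r ^ 2` (`Ri B` for `B ∈ WB t _`), so the term is `gf2 (CC t r) * (gf2 (NP ..) * rho t r ^ 2)` (`sp_const_mul`, `sp_one`) and
`gf2 (CC t r) * rho t r = gf2 (GP t r)` (`sp_CC_one`, `rho_mul`).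
-/

namespace Pool.Agent.ZCS

open Pool.Agent.SHP Pool.Agent.ZHW Finset
open scoped ENNReal NNReal

variable {t : Bool}

private theorem JDecC_sp_congr {A : Set (Wd × Wd)} {F G : Wd × Wd → ℝ≥0∞} (h : ∀ p ∈ A, F p = G p) :
    sp t A F = sp t A G := by
  unfold sp
  exact tsum_congr fun p => by rw [h p p.2]

private theorem JDecC_sp_const (A : Set (Wd × Wd)) (c : ℝ≥0∞) : sp t A (fun _ => c) = c * gf2 A (zc t) := by
  have h := sp_const_mul (t := t) A c (fun _ => 1)
  rw [sp_one] at h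
  rw [← h]
  exact JDecC_sp_congr fun p _ => (mul_one c).symm

theorem J_eq {n : ℕ → ℕ} (hn : ∀ h, 2 * n h ≤ h) {h' h : ℕ} (hh : h ≤ h') :
    J t n h' h = ∑ r ∈ range (n h + 1), gf2 (GP t r) (zc t) * rho t r *
      gf2 (NP t (h' - r) (h - r) (n h - r)) (zc t) := by
  have hnh : n h ≤ h := by have := hn h; omega
  unfold J
  rw [pair_dec hnh hh (fun P Q => rho t (cr t (n h) P Q) ^ 2)]
  refine Finset.sum_congr rfl fun r hr => ?_
  have hr' : r ≤ n h := by have := Finset.mem_range.1 hr; omega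
  have h1 : sp t (CC t r) (fun a => sp t (NP t (h' - r) (h - r) (n h - r))
      (fun b => rho t (cr t (n h) (a.1 ++ b.1) (a.2 ++ b.2)) ^ 2)) =
      sp t (CC t r) (fun _ => rho t r ^ 2 * gf2 (NP t (h' - r) (h - r) (n h - r)) (zc t)) := by
    refine JDecC_sp_congr fun a ha => ?_
    rw [← JDecC_sp_const]
    refine JDecC_sp_congr fun b hb => ?_
    rw [cr_app hr' ha.1 ha.2 hb.1.2.1 hb.2.1.2.1 hb.2.2]
  rw [h1, JDecC_sp_const, sp_CC_one, ← rho_mul]
  ring

end Pool.Agent.ZCS
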