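import Pool.Agent.ZCS.Defs
import Pool.Agent.ZHW.Basic

/-!
Module NPDec: pairs without common renewal level among `1, ..., m`, decomposed at the first common renewal level.

PAPER PROOF. Let `(P, Q) ∈ NP t a' a m`. Either `(P, Q) ∈ NP t a' a a`, or there is a smallest common renewal level `j + 1` with
`1 <= j + 1 <= a`, and `j + 1 > m`, so `m <= j < a`. Then `P = u ++ v`, `Q = u' ++ v'`, `u, u' ∈ CB t (j + 1)`, `Ri v`, `Ri v'`,
`v ∈ WB t (a' - (j + 1))`, `v' ∈ WB t (a - (j + 1))` (`WB_split`), and `(u, u') ∈ IP t j` (a common renewal level `i <= j` of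
`(u, u')` is one of `(P, Q)`, as in `ArcRec_block`). The map is injective and the lengths add.
-/

namespace Pool.Agent.ZCS

open Pool.Agent.SHP Pool.Agent.ZHW Finset
open scoped ENNReal NNReal

variable {t : Bool}

/-- The pairs decomposed at the level `j + 1`. -/
private def NPDecS (t : Bool) (a' a j : ℕ) : Set (Wd × Wd) :=
  {p | ∃ u v u' v' : Wd, p.1 = u ++ v ∧ p.2 = u' ++ v' ∧ (u, u') ∈ IP t j ∧
    v ∈ WB t (a' - (j + 1)) ∧ v' ∈ WB t (a - (j + 1))}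

private theorem NPDec_prod (A B : Set (Wd × Wd)) (z : ℝ≥0) :
    ∑' q : A × B, (z : ℝ≥0∞) ^ ((q.1 : Wd × Wd).1.length + (q.1 : Wd × Wd).2.length) *
      (z : ℝ≥0∞) ^ ((q.2 : Wd × Wd).1.length + (q.2 : Wd × Wd).2.length) = gf2 A z * gf2 B z := by
  unfold gf2
  rw [ENNReal.tsum_prod', ← ENNReal.tsum_mul_right]
  refine tsum_congr fun a => ?_
  rw [← ENNReal.tsum_mul_left]

private theorem NPDec_piece (z : ℝ≥0) (a' a j : ℕ) :
    gf2 (NPDecS t a' a j) z ≤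
      gf2 (IP t j) z * (gf (WB t (a' - (j + 1))) z * gf (WB t (a - (j + 1))) z) := by
  have h : ∀ p : NPDecS t a' a j,
      ∃ q : (IP t j) × ((WB t (a' - (j + 1))) ×ˢ (WB t (a - (j + 1))) : Set (Wd × Wd)),
      (p : Wd × Wd).1 = (q.1 : Wd × Wd).1 ++ (q.2 : Wd × Wd).1 ∧
      (p : Wd × Wd).2 = (q.1 : Wd × Wd).2 ++ (q.2 : Wd × Wd).2 := by
    rintro ⟨p, u, v, u', v', h1, h2, h3, h4, h5⟩
    exact ⟨⟨⟨(u, u'), h3⟩, ⟨(v, v'), Set.mk_mem_prod h4 h5⟩⟩, h1, h2⟩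
  choose F hF1 hF2 using h
  have hI : Function.Injective F := by
    intro p q hpq
    have h1 : (p : Wd × Wd).1 = (q : Wd × Wd).1 := by rw [hF1 p, hF1 q, hpq]
    have h2 : (p : Wd × Wd).2 = (q : Wd × Wd).2 := by rw [hF2 p, hF2 q, hpq]
    exact Subtype.ext (Prod.ext h1 h2)
  rw [← gf2_prod, ← NPDec_prod]
  refine le_trans (le_of_eq ?_) (ENNReal.tsum_comp_le_tsum_of_injective hI
    (fun q : (IP t j) × ((WB t (a' - (j + 1))) ×ˢ (WB t (a - (j + 1))) : Set (Wd × Wd)) =>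
      (z : ℝ≥0∞) ^ ((q.1 : Wd × Wd).1.length + (q.1 : Wd × Wd).2.length) *
      (z : ℝ≥0∞) ^ ((q.2 : Wd × Wd).1.length + (q.2 : Wd × Wd).2.length)))
  unfold gf2
  refine tsum_congr fun p => ?_
  rw [← pow_add]
  congr 1
  have h1 := congrArg List.length (hF1 p)
  have h2 := congrArg List.length (hF2 p)
  rw [List.length_append] at h1
  rw [List.length_append] at h2
  omega

private theorem NPDec_cover {a' a m : ℕ} {p : Wd × Wd} (hp : p ∈ NP t a' a m)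
    (hn : ¬ NC t a p) : ∃ j ∈ Ico m a, p ∈ NPDecS t a' a j := by
  classical
  obtain ⟨hP, hQ, hm⟩ := hp
  have hex : ∃ j : ℕ, 1 ≤ j ∧ j ≤ a ∧ Rn t j p.1 ∧ Rn t j p.2 := by
    unfold NC at hn
    push Not at hn
    obtain ⟨i, hi1, hib, hi2, hi3⟩ := hn
    exact ⟨i, hi1, hib, hi2, hi3⟩
  obtain ⟨h1, hja, hRP, hRQ⟩ := Nat.find_spec hex
  have hmin : ∀ m : ℕ, m < Nat.find hex → ¬ (1 ≤ m ∧ m ≤ a ∧ Rn t m p.1 ∧ Rn t m p.2) :=
    fun m hm => Nat.find_min hex hm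
  generalize Nat.find hex = j at h1 hja hRP hRQ hmin
  obtain ⟨i, rfl⟩ : ∃ i, j = i + 1 := ⟨j - 1, by omega⟩
  have hmi : m < i + 1 := by
    by_contra hcon
    exact hm (i + 1) h1 (by omega) ⟨hRP, hRQ⟩
  obtain ⟨u, v, hPe, hu, hv⟩ := hRP
  obtain ⟨u', v', hQe, hu', hv'⟩ := hRQ
  have hvW := WB_split hP hPe hu hv
  have hvW' := WB_split hQ hQe hu' hv'
  have key : ∀ (k : ℕ) (w w₂ L : Wd), 1 ≤ k → k ≤ i → L = w ++ w₂ → w ∈ CB t (i + 1) → Ri w₂ →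
      Rn t k w → Rn t k L := by
    rintro k w w₂ L hk hki hL hw hw₂ ⟨c, b, hab, hc, hb⟩
    obtain ⟨-, hbC⟩ := CB_split hw hab hc hb
    exact ⟨c, b ++ w₂, by rw [hL, hab, List.append_assoc], hc, Ri_append hbC hw₂⟩
  refine ⟨i, Finset.mem_Ico.2 ⟨by omega, by omega⟩, u, v, u', v', hPe, hQe, ⟨hu, hu', ?_⟩,
    hvW.2, hvW'.2⟩
  intro k hk hki hboth
  exact hmin k (by omega) ⟨hk, by omega, key k u v p.1 hk hki hPe hu hv hboth.1,
    key k u' v' p.2 hk hki hQe hu' hv' hboth.2⟩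

theorem np_le {a' a m : ℕ} (ha : a ≤ a') (z : ℝ≥0) : gf2 (NP t a' a m) z ≤ gf2 (NP t a' a a) z +
    ∑ j ∈ Ico m a, gf2 (IP t j) z * (gf (WB t (a' - (j + 1))) z * gf (WB t (a - (j + 1))) z) := by
  have hsub : NP t a' a m ⊆ NP t a' a a ∪ ⋃ j ∈ Ico m a, NPDecS t a' a j := by
    intro p hp
    by_cases hn : NC t a p
    · exact Or.inl ⟨hp.1, hp.2.1, hn⟩
    · obtain ⟨i, hi, hpi⟩ := NPDec_cover hp hn
      exact Or.inr (Set.mem_biUnion hi hpi)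
  calc gf2 (NP t a' a m) z
      ≤ gf2 (NP t a' a a ∪ ⋃ j ∈ Ico m a, NPDecS t a' a j) z := gf2_mono_set hsub z
    _ ≤ gf2 (NP t a' a a) z + gf2 (⋃ j ∈ Ico m a, NPDecS t a' a j) z := gf2_union_le _ _ z
    _ ≤ _ := by
        refine add_le_add le_rfl ?_
        refine (ENNReal.tsum_biUnion_le (fun l : Wd × Wd =>
          (z : ℝ≥0∞) ^ (l.1.length + l.2.length)) (Ico m a) (NPDecS t a' a)).trans ?_
        exact Finset.sum_le_sum fun i _ => NPDec_piece z a' a i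

end Pool.Agent.ZCS
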