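import Pool.Agent.ZCS.AnRen

/-!
Module Sel (analysis): the choice of the cutoff in one dyadic scale, abstract.

PAPER PROOF. Let `T m = ∑' j, f (m + j)`, `H = 2 ^ k`, `L = H / 2`, `U n = ∑ i < n, u i`. By `an_tail_sum`
`U (L + 1) * ∑ m ≤ L, T m ≤ 2 L + 1`. So
`U (L + 1) * ∑ l ≤ L, ∑ r ≤ l, γ r * T (l - r) = U (L + 1) * ∑ r ≤ L, γ r * ∑ m ≤ L - r, T m ≤ (∑ r ≤ L, γ r) * (2 L + 1)`, and some
`l ≤ L` has `U (L + 1) * ∑ r ≤ l, γ r * T (l - r) ≤ 2 * ∑ r ≤ L, γ r` (otherwise the sum over the `L + 1` values of `l` would be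
larger; if `∑ r ≤ L, γ r = ∞` the hypothesis `hγ` fails). `an_sub` twice: `U (2 H) ≤ U (4 (L + 1)) ≤ 4 * U (L + 1)` (`2 H ≤ 4 (L + 1)`).
So `U (2 H) * ∑ r ≤ l, γ r * T (l - r) ≤ 8 * ∑ r ≤ L, γ r ≤ 8 * ofReal (4 * (1 + log (L + 2)))` and
`1 + log (L + 2) ≤ 1 + log (2 ^ k + 2) ≤ 3 * (k + 1)`.
-/

namespace Pool.Agent.ZCS

open Finset
open scoped ENNReal NNReal

private theorem sel_shift (b : ℕ → ℝ≥0∞) (n r : ℕ) :
    ∑ l ∈ range n, (if r ≤ l then b (l - r) else 0) ≤ ∑ m ∈ range n, b m := by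
  rcases le_total r n with h | h
  · obtain ⟨d, rfl⟩ := Nat.exists_eq_add_of_le h
    rw [Finset.sum_range_add]
    have h1 : ∑ x ∈ range r, (if r ≤ x then b (x - r) else 0) = 0 := by
      refine Finset.sum_eq_zero fun x hx => ?_
      rw [if_neg (by have := Finset.mem_range.1 hx; omega)]
    have h2 : ∑ x ∈ range d, (if r ≤ r + x then b (r + x - r) else 0) = ∑ x ∈ range d, b x := by
      refine Finset.sum_congr rfl fun x _ => ?_
      rw [if_pos (Nat.le_add_right r x), Nat.add_sub_cancel_left]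
    rw [h1, h2, zero_add]
    exact Finset.sum_le_sum_of_subset (Finset.range_mono (Nat.le_add_left d r))
  · have h1 : ∑ l ∈ range n, (if r ≤ l then b (l - r) else 0) = 0 := by
      refine Finset.sum_eq_zero fun x hx => ?_
      rw [if_neg (by have := Finset.mem_range.1 hx; omega)]
    rw [h1]
    exact zero_le

private theorem sel_conv (a b : ℕ → ℝ≥0∞) (n : ℕ) :
    ∑ l ∈ range n, ∑ r ∈ range (l + 1), a r * b (l - r) ≤
      (∑ r ∈ range n, a r) * ∑ m ∈ range n, b m := by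
  have h1 : ∀ l ∈ range n, ∑ r ∈ range (l + 1), a r * b (l - r) =
      ∑ r ∈ range n, a r * (if r ≤ l then b (l - r) else 0) := by
    intro l hl
    have hl' := Finset.mem_range.1 hl
    rw [← Finset.sum_subset (Finset.range_mono (Nat.succ_le_of_lt hl'))]
    · refine Finset.sum_congr rfl fun r hr => ?_
      rw [if_pos (Nat.lt_succ_iff.1 (Finset.mem_range.1 hr))]
    · intro r _ hr
      rw [if_neg (by rw [Finset.mem_range] at hr; omega), mul_zero]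
  rw [Finset.sum_congr rfl h1, Finset.sum_comm, Finset.sum_mul]
  refine Finset.sum_le_sum fun r _ => ?_
  rw [← Finset.mul_sum]
  exact mul_le_mul' le_rfl (sel_shift b n r)

private theorem sel_log (k : ℕ) :
    1 + Real.log (((2 ^ k / 2 + 1 : ℕ) : ℝ) + 1) ≤ 3 * ((k : ℝ) + 1) := by
  have h1 : (2 ^ k / 2 + 1 : ℕ) + 1 ≤ 3 * 2 ^ k := by
    have h0 : 1 ≤ 2 ^ k := Nat.one_le_two_pow
    omega
  have h2 : (((2 ^ k / 2 + 1 : ℕ) : ℝ) + 1) ≤ 3 * 2 ^ k := by exact_mod_cast h1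
  have h3 : Real.log (((2 ^ k / 2 + 1 : ℕ) : ℝ) + 1) ≤ Real.log (3 * 2 ^ k) := by
    apply Real.log_le_log
    · positivity
    · exact h2
  have h4 : Real.log (3 * 2 ^ k) = Real.log 3 + k * Real.log 2 := by
    rw [Real.log_mul (by norm_num) (by positivity), Real.log_pow]
  have h5 : Real.log 3 ≤ 2 := by
    have := Real.log_le_sub_one_of_pos (show (0 : ℝ) < 3 by norm_num)
    linarith
  have h6 : Real.log 2 ≤ 1 := by
    have := Real.log_le_sub_one_of_pos (show (0 : ℝ) < 2 by norm_num)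
    linarith
  have h7 : (k : ℝ) * Real.log 2 ≤ k * 1 := by
    gcongr
  rw [h4] at h3
  have hk : (0 : ℝ) ≤ k := Nat.cast_nonneg k
  linarith

theorem sel (f u γ : ℕ → ℝ≥0∞) (hu0 : u 0 = 1) (hu : ∀ r, u (r + 1) = ∑ i ∈ range (r + 1), f i * u (r - i))
    (hu1 : ∀ r, u r ≤ 1) (hf : ∑' i, f i ≤ 1)
    (hγ : ∀ N : ℕ, ∑ r ∈ range N, γ r ≤ ENNReal.ofReal (4 * (1 + Real.log ((N : ℝ) + 1)))) (k : ℕ) :
    ∃ l : ℕ, 2 * l ≤ 2 ^ k ∧ (∑ i ∈ range (2 * 2 ^ k), u i) *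
      (∑ r ∈ range (l + 1), γ r * ∑' j, f (l - r + j)) ≤ ENNReal.ofReal (96 * ((k : ℝ) + 1)) ∧
      ∑ r ∈ range (l + 1), γ r ≤ ENNReal.ofReal (12 * ((k : ℝ) + 1)) := by
  obtain ⟨L, hL⟩ : ∃ L : ℕ, L = 2 ^ k / 2 := ⟨_, rfl⟩
  obtain ⟨G, hG⟩ : ∃ G : ℝ≥0∞, G = ∑ r ∈ range (L + 1), γ r := ⟨_, rfl⟩
  have hlog := sel_log k
  rw [← hL] at hlog
  have hG1 : G ≤ ENNReal.ofReal (12 * ((k : ℝ) + 1)) := by
    rw [hG]
    refine (hγ (L + 1)).trans (ENNReal.ofReal_le_ofReal ?_)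
    linarith
  have hGt : G ≠ ⊤ := ne_top_of_le_ne_top ENNReal.ofReal_ne_top hG1
  have hsum : (∑ i ∈ range (L + 1), u i) *
      ∑ l ∈ range (L + 1), ∑ r ∈ range (l + 1), γ r * ∑' j, f (l - r + j) ≤
      G * (2 * (L : ℝ≥0∞) + 1) := by
    have h1 := sel_conv γ (fun m => ∑' j, f (m + j)) (L + 1)
    have h2 := an_tail_sum f u hu0 hu hu1 hf L
    calc (∑ i ∈ range (L + 1), u i) *
          ∑ l ∈ range (L + 1), ∑ r ∈ range (l + 1), γ r * ∑' j, f (l - r + j)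
        ≤ (∑ i ∈ range (L + 1), u i) *
          ((∑ r ∈ range (L + 1), γ r) * ∑ m ∈ range (L + 1), ∑' j, f (m + j)) := by
          gcongr
      _ = (∑ r ∈ range (L + 1), γ r) *
          ((∑ i ∈ range (L + 1), u i) * ∑ m ∈ range (L + 1), ∑' j, f (m + j)) := by ring
      _ ≤ G * (2 * (L : ℝ≥0∞) + 1) := by
          rw [← hG]
          gcongr
  obtain ⟨l, hl, hle⟩ : ∃ l ∈ range (L + 1), (∑ i ∈ range (L + 1), u i) *
      (∑ r ∈ range (l + 1), γ r * ∑' j, f (l - r + j)) ≤ 2 * G := by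
    by_contra hcon
    push Not at hcon
    have h1 : ∑ l ∈ range (L + 1), 2 * G < ∑ l ∈ range (L + 1), (∑ i ∈ range (L + 1), u i) *
        (∑ r ∈ range (l + 1), γ r * ∑' j, f (l - r + j)) :=
      ENNReal.sum_lt_sum_of_nonempty ⟨0, Finset.mem_range.2 (Nat.succ_pos L)⟩ hcon
    rw [Finset.sum_const, Finset.card_range, nsmul_eq_mul, ← Finset.mul_sum] at h1
    have h2 : G * (2 * (L : ℝ≥0∞) + 1) ≤ ((L + 1 : ℕ) : ℝ≥0∞) * (2 * G) := by
      push_cast
      calc G * (2 * (L : ℝ≥0∞) + 1) ≤ G * (2 * (L : ℝ≥0∞) + 2) := by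
            gcongr
            norm_num
        _ = ((L : ℝ≥0∞) + 1) * (2 * G) := by ring
    exact absurd (h1.trans_le (hsum.trans h2)) (lt_irrefl _)
  have hlL : l ≤ L := Nat.lt_succ_iff.1 (Finset.mem_range.1 hl)
  refine ⟨l, by omega, ?_, ?_⟩
  · have hU : ∑ i ∈ range (2 * 2 ^ k), u i ≤ 4 * ∑ i ∈ range (L + 1), u i := by
      have h1 : ∑ i ∈ range (2 * 2 ^ k), u i ≤
          ∑ i ∈ range (((L + 1) + (L + 1)) + ((L + 1) + (L + 1))), u i := by
        refine Finset.sum_le_sum_of_subset (Finset.range_mono ?_)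
        omega
      have h2 := an_sub f u hu0 hu hf ((L + 1) + (L + 1)) ((L + 1) + (L + 1))
      have h3 := an_sub f u hu0 hu hf (L + 1) (L + 1)
      calc ∑ i ∈ range (2 * 2 ^ k), u i
          ≤ ∑ i ∈ range ((L + 1) + (L + 1)), u i + ∑ i ∈ range ((L + 1) + (L + 1)), u i :=
            h1.trans h2
        _ ≤ (∑ i ∈ range (L + 1), u i + ∑ i ∈ range (L + 1), u i) +
            (∑ i ∈ range (L + 1), u i + ∑ i ∈ range (L + 1), u i) := add_le_add h3 h3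
        _ = 4 * ∑ i ∈ range (L + 1), u i := by ring
    calc (∑ i ∈ range (2 * 2 ^ k), u i) * (∑ r ∈ range (l + 1), γ r * ∑' j, f (l - r + j))
        ≤ (4 * ∑ i ∈ range (L + 1), u i) *
          (∑ r ∈ range (l + 1), γ r * ∑' j, f (l - r + j)) := by gcongr
      _ = 4 * ((∑ i ∈ range (L + 1), u i) *
          (∑ r ∈ range (l + 1), γ r * ∑' j, f (l - r + j))) := by ring
      _ ≤ 4 * (2 * G) := by gcongr
      _ = ENNReal.ofReal 8 * G := by
          rw [show ENNReal.ofReal 8 = 8 by norm_num]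
          ring
      _ ≤ ENNReal.ofReal 8 * ENNReal.ofReal (12 * ((k : ℝ) + 1)) := by gcongr
      _ = ENNReal.ofReal (96 * ((k : ℝ) + 1)) := by
          rw [← ENNReal.ofReal_mul (by norm_num)]
          congr 1
          ring
  · refine le_trans ?_ hG1
    rw [hG]
    exact Finset.sum_le_sum_of_subset (Finset.range_mono (by omega))

end Pool.Agent.ZCS
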