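import Pool.Agent.ZCS.JDecC
import Pool.Agent.ZCS.NPDec
import Pool.Agent.ZCS.CsW
import Pool.Agent.ZCS.GamB
import Pool.Agent.ZCS.Sel

/-!
Module JSumC: there is a cutoff for which the sum of the kernel over a dyadic block, for a fixed gap, is `O(k + 1)`.

PAPER PROOF. Apply `sel` with `f i = gf2 (IP t i) (zc t)`, `u i = (be t (zc t) i) ^ 2`, `γ r = gf2 (GP t r) (zc t) * rho t r` (`be_zero`,
`ren_eq`, `be_le_one`, `irr_sum` with `ENNReal.tsum_eq_iSup_nat`, `gam_sum`): it gives `l k` for every `k`. Put `n h = l (Nat.log 2 h)` for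
`h ≥ 1` and `n 0 = 0`; for `2 ^ k ≤ h < 2 ^ (k + 1)`: `n h = l k`, `2 * n h ≤ 2 ^ k ≤ h`. By `J_eq` and `np_le`, for `b ∈ [H, 2 H)`, `H = 2 ^ k`,
`l = l k`, `J (b + s + 1) b = ∑ r ≤ l, γ r * gf2 (NP t (b + s + 1 - r) (b - r) (l - r))` and
`gf2 (NP ..) ≤ gf2 (NP t (a + s + 1) a a) + ∑ j ∈ [l - r, a), f j * (gf (WB (a + s - j)) * gf (WB (a - 1 - j)))`, `a = b - r`.
Sum over `b`: the first terms give `≤ Z ^ 2` with `Z = (zc t)⁻¹` (`csw` with `s + 1`). In the second sum put `i = a - 1 - j < 2 H`: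
`≤ ∑ j ≥ l - r, f j * ∑ i < 2 H, gf (WB (i + s + 1)) * gf (WB i)` (for fixed `j` the map `b ↦ i` is injective), and by `gf_WB_le_inv`
`gf (WB (i + s + 1)) * gf (WB i) ≤ Z ^ 2 * be (i + s + 2) * be (i + 1) ≤ Z ^ 2 * (u (i + s + 2) + u (i + 1))` (`x y ≤ x^2 + y^2`), so by
`an_win` the sum over `i < 2 H` is `≤ 2 * Z ^ 2 * U (2 H)`. Total: `∑ b, J ≤ ∑ r ≤ l, γ r * (Z ^ 2 + 2 * Z ^ 2 * U (2 H) * T (l - r))
≤ Z ^ 2 * (12 (k + 1) + 192 (k + 1))`. For `b = 0`: `n 0 = 0`, `J (s + 1) 0 = γ 0 * gf2 (NP t (s + 1) 0 0) ≤ 4 * Z ^ 2` (the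
first part of `csw` with `D = 1`; `γ 0 ≤ 4 (1 + log 2)`).
-/

namespace Pool.Agent.ZCS

open Pool.Agent.SHP Pool.Agent.ZHW Finset
open scoped ENNReal NNReal

variable {t : Bool}

private theorem JSumC_inv (t : Bool) : (zc t : ℝ≥0∞)⁻¹ = ENNReal.ofReal ((zc t : ℝ)⁻¹) := by
  rw [ENNReal.ofReal_inv_of_pos (by exact_mod_cast zc_pos t), ENNReal.ofReal_coe_nnreal]

private theorem JSumC_irr : ∑' i, gf2 (IP t i) (zc t) ≤ 1 := by
  rw [ENNReal.tsum_eq_iSup_nat]
  exact iSup_le fun D => irr_sum D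

/-- The weights of the free remainders. -/
private theorem JSumC_om (s N : ℕ) :
    ∑ i ∈ range N, gf (WB t (i + s + 1)) (zc t) * gf (WB t i) (zc t) ≤
      (zc t : ℝ≥0∞)⁻¹ * (zc t : ℝ≥0∞)⁻¹ * (2 * ∑ i ∈ range N, (be t (zc t) i) ^ 2) := by
  have hf : ∑' i, gf2 (IP t i) (zc t) ≤ 1 := JSumC_irr
  have hw : ∀ a : ℕ, ∑ i ∈ range N, (be t (zc t) (a + i)) ^ 2 ≤
      ∑ i ∈ range N, (be t (zc t) i) ^ 2 := fun a =>
    an_win (fun i => gf2 (IP t i) (zc t)) (fun i => (be t (zc t) i) ^ 2)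
      (by simp only [be_zero, one_pow]) (fun r => ren_eq (zc t) r) hf a N
  calc ∑ i ∈ range N, gf (WB t (i + s + 1)) (zc t) * gf (WB t i) (zc t)
      ≤ ∑ i ∈ range N, (zc t : ℝ≥0∞)⁻¹ * (zc t : ℝ≥0∞)⁻¹ *
          ((be t (zc t) (s + 2 + i)) ^ 2 + (be t (zc t) (1 + i)) ^ 2) := by
        refine Finset.sum_le_sum fun i _ => ?_
        have h1 := gf_WB_le_inv (t := t) (i + s + 1)
        have h2 := gf_WB_le_inv (t := t) i
        rw [show i + s + 1 + 1 = s + 2 + i by ring] at h1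
        rw [show i + 1 = 1 + i by ring] at h2
        refine (mul_le_mul' h1 h2).trans ?_
        rw [show (zc t : ℝ≥0∞)⁻¹ * be t (zc t) (s + 2 + i) * ((zc t : ℝ≥0∞)⁻¹ * be t (zc t) (1 + i)) =
          (zc t : ℝ≥0∞)⁻¹ * (zc t : ℝ≥0∞)⁻¹ * (be t (zc t) (s + 2 + i) * be t (zc t) (1 + i)) by ring]
        refine mul_le_mul' le_rfl ?_
        rcases le_total (be t (zc t) (s + 2 + i)) (be t (zc t) (1 + i)) with h | h
        · calc be t (zc t) (s + 2 + i) * be t (zc t) (1 + i)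
              ≤ be t (zc t) (1 + i) * be t (zc t) (1 + i) := mul_le_mul' h le_rfl
            _ = (be t (zc t) (1 + i)) ^ 2 := (sq _).symm
            _ ≤ _ := le_add_self
        · calc be t (zc t) (s + 2 + i) * be t (zc t) (1 + i)
              ≤ be t (zc t) (s + 2 + i) * be t (zc t) (s + 2 + i) := mul_le_mul' le_rfl h
            _ = (be t (zc t) (s + 2 + i)) ^ 2 := (sq _).symm
            _ ≤ _ := le_self_add
    _ = (zc t : ℝ≥0∞)⁻¹ * (zc t : ℝ≥0∞)⁻¹ *
          (∑ i ∈ range N, (be t (zc t) (s + 2 + i)) ^ 2 + ∑ i ∈ range N, (be t (zc t) (1 + i)) ^ 2) := by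
        rw [← Finset.mul_sum, Finset.sum_add_distrib]
    _ ≤ _ := by
        refine mul_le_mul' le_rfl ?_
        rw [two_mul]
        exact add_le_add (hw (s + 2)) (hw 1)

/-- Sum over the block of the free remainders. -/
private theorem JSumC_free (f ω : ℕ → ℝ≥0∞) (H r m : ℕ) (hr : r ≤ H) :
    ∑ b ∈ Ico H (2 * H), ∑ j ∈ Ico m (b - r), f j * ω (b - r - (j + 1)) ≤
      (∑' j, f (m + j)) * ∑ i ∈ range (2 * H), ω i := by
  have h1 : ∀ b ∈ Ico H (2 * H), ∑ j ∈ Ico m (b - r), f j * ω (b - r - (j + 1)) ≤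
      ∑ j ∈ range (2 * H), if m + j < b - r then f (m + j) * ω (b - r - (m + j + 1)) else 0 := by
    intro b hb
    rw [mem_Ico] at hb
    rw [Finset.sum_Ico_eq_sum_range, ← Finset.sum_filter]
    refine Finset.sum_le_sum_of_subset ?_
    intro j hj
    rw [mem_range] at hj
    rw [mem_filter, mem_range]
    omega
  refine (Finset.sum_le_sum h1).trans ?_
  rw [Finset.sum_comm]
  calc ∑ j ∈ range (2 * H), ∑ b ∈ Ico H (2 * H),
        (if m + j < b - r then f (m + j) * ω (b - r - (m + j + 1)) else 0)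
      ≤ ∑ j ∈ range (2 * H), f (m + j) * ∑ i ∈ range (2 * H), ω i := by
        refine Finset.sum_le_sum fun j _ => ?_
        rw [← Finset.sum_filter, ← Finset.mul_sum]
        refine mul_le_mul' le_rfl ?_
        rw [← Finset.sum_image (f := ω) (g := fun b => b - r - (m + j + 1))]
        · refine Finset.sum_le_sum_of_subset ?_
          intro i hi
          rw [mem_image] at hi
          obtain ⟨b, hb, rfl⟩ := hi
          rw [mem_filter, mem_Ico] at hb
          rw [mem_range]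
          omega
        · intro b hb c hc hbc
          simp only [coe_filter, mem_Ico, Set.mem_ofPred_eq] at hb hc
          simp only at hbc
          omega
    _ = (∑ j ∈ range (2 * H), f (m + j)) * ∑ i ∈ range (2 * H), ω i := by
        rw [Finset.sum_mul]
    _ ≤ _ := mul_le_mul' (ENNReal.sum_le_tsum _) le_rfl

/-- One value of `r`. -/
private theorem JSumC_r (s H r m : ℕ) (hr : r ≤ H) :
    ∑ b ∈ Ico H (2 * H), gf2 (NP t (b + s + 1 - r) (b - r) m) (zc t) ≤
      (zc t : ℝ≥0∞)⁻¹ * (zc t : ℝ≥0∞)⁻¹ * (1 + 2 * ((∑ i ∈ range (2 * H), (be t (zc t) i) ^ 2) *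
        ∑' j, gf2 (IP t (m + j)) (zc t))) := by
  have h1 : ∀ b ∈ Ico H (2 * H), gf2 (NP t (b + s + 1 - r) (b - r) m) (zc t) ≤
      gf2 (NP t (b - r + (s + 1)) (b - r) (b - r)) (zc t) + ∑ j ∈ Ico m (b - r),
        gf2 (IP t j) (zc t) * (gf (WB t ((b - r - (j + 1)) + s + 1)) (zc t) *
          gf (WB t (b - r - (j + 1))) (zc t)) := by
    intro b hb
    rw [mem_Ico] at hb
    have h := np_le (t := t) (a' := b + s + 1 - r) (a := b - r) (m := m) (by omega) (zc t)
    rw [show b + s + 1 - r = b - r + (s + 1) by omega] at h ⊢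
    refine h.trans (add_le_add le_rfl (Finset.sum_le_sum fun j hj => ?_))
    rw [mem_Ico] at hj
    rw [show b - r + (s + 1) - (j + 1) = (b - r - (j + 1)) + s + 1 by omega]
  refine (Finset.sum_le_sum h1).trans ?_
  rw [Finset.sum_add_distrib, mul_add, mul_one]
  refine add_le_add ?_ ?_
  · calc ∑ b ∈ Ico H (2 * H), gf2 (NP t (b - r + (s + 1)) (b - r) (b - r)) (zc t)
        ≤ ∑ a ∈ range (2 * H), gf2 (NP t (a + (s + 1)) a a) (zc t) := by
          rw [← Finset.sum_image (f := fun a => gf2 (NP t (a + (s + 1)) a a) (zc t))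
            (g := fun b => b - r)]
          · refine Finset.sum_le_sum_of_subset ?_
            intro i hi
            rw [mem_image] at hi
            obtain ⟨b, hb, rfl⟩ := hi
            rw [mem_Ico] at hb
            rw [mem_range]
            omega
          · intro b hb c hc hbc
            simp only [coe_Ico, Set.mem_Ico] at hb hc
            simp only at hbc
            omega
      _ ≤ _ := csw (s + 1) (2 * H)
  · refine (JSumC_free (fun j => gf2 (IP t j) (zc t))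
      (fun i => gf (WB t (i + s + 1)) (zc t) * gf (WB t i) (zc t)) H r m hr).trans ?_
    refine (mul_le_mul' le_rfl (JSumC_om (t := t) s (2 * H))).trans (le_of_eq ?_)
    ring

theorem J_sum (t : Bool) : ∃ n : ℕ → ℕ, (∀ h, 2 * n h ≤ h) ∧ ∃ C : ℝ, 0 < C ∧
    (∀ s : ℕ, J t n (s + 1) 0 ≤ ENNReal.ofReal C) ∧
    ∀ k s : ℕ, ∑ b ∈ Ico (2 ^ k) (2 ^ (k + 1)), J t n (b + s + 1) b ≤ ENNReal.ofReal (C * ((k : ℝ) + 1)) := by
  classical
  have hsel := sel (fun i => gf2 (IP t i) (zc t)) (fun i => (be t (zc t) i) ^ 2)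
    (fun r => gf2 (GP t r) (zc t) * rho t r) (by simp only [be_zero, one_pow])
    (fun r => ren_eq (zc t) r) (fun r => pow_le_one₀ zero_le (be_le_one r)) JSumC_irr
    (fun N => gam_sum N)
  choose l hl1 hl2 hl3 using hsel
  have hn : ∀ h : ℕ, 2 * (if h = 0 then 0 else l (Nat.log 2 h)) ≤ h := by
    intro h
    by_cases h0 : h = 0
    · rw [if_pos h0, h0]
    · rw [if_neg h0]
      exact (hl1 _).trans (Nat.pow_log_le_self 2 h0)
  have hz : (0 : ℝ) < (zc t : ℝ) := by exact_mod_cast zc_pos t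
  have hZ : (0 : ℝ) < (zc t : ℝ)⁻¹ := inv_pos.2 hz
  refine ⟨fun h => if h = 0 then 0 else l (Nat.log 2 h), hn, 204 * ((zc t : ℝ)⁻¹ * (zc t : ℝ)⁻¹),
    by positivity, ?_, ?_⟩
  · intro s
    rw [J_eq hn (Nat.zero_le (s + 1))]
    simp only [if_true, zero_add, Finset.sum_range_one, tsub_zero]
    have h1 := csw (t := t) (s + 1) 1
    rw [Finset.sum_range_one, zero_add] at h1
    have h2 := gam_sum (t := t) 1
    rw [Finset.sum_range_one] at h2
    refine (mul_le_mul' h2 h1).trans ?_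
    rw [JSumC_inv, ← ENNReal.ofReal_mul hZ.le, ← ENNReal.ofReal_mul (by
      have := Real.log_nonneg (show (1 : ℝ) ≤ ((1 : ℕ) : ℝ) + 1 by norm_num)
      positivity)]
    refine ENNReal.ofReal_le_ofReal ?_
    have h3 : Real.log (((1 : ℕ) : ℝ) + 1) ≤ 1 := by
      have := Real.log_le_sub_one_of_pos (show (0 : ℝ) < ((1 : ℕ) : ℝ) + 1 by norm_num)
      norm_num at this ⊢
      linarith
    have h4 : 0 < (zc t : ℝ)⁻¹ * (zc t : ℝ)⁻¹ := by positivity
    exact mul_le_mul_of_nonneg_right (by linarith) h4.le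
  · intro k s
    have hpow : 2 ^ (k + 1) = 2 * 2 ^ k := by ring
    rw [hpow]
    have hJ : ∀ b ∈ Ico (2 ^ k) (2 * 2 ^ k),
        J t (fun h => if h = 0 then 0 else l (Nat.log 2 h)) (b + s + 1) b =
          ∑ r ∈ range (l k + 1), gf2 (GP t r) (zc t) * rho t r *
            gf2 (NP t (b + s + 1 - r) (b - r) (l k - r)) (zc t) := by
      intro b hb
      rw [mem_Ico] at hb
      have hb0 : b ≠ 0 := by
        have := Nat.pos_of_ne_zero (pow_ne_zero k (two_ne_zero (α := ℕ)))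
        omega
      have hlog : Nat.log 2 b = k :=
        Nat.log_eq_of_pow_le_of_lt_pow hb.1 (by rw [hpow]; exact hb.2)
      rw [J_eq hn (by omega : b ≤ b + s + 1)]
      simp only [if_neg hb0, hlog]
    rw [Finset.sum_congr rfl hJ, Finset.sum_comm]
    have hlH : ∀ r ∈ range (l k + 1), r ≤ 2 ^ k := by
      intro r hr
      rw [mem_range] at hr
      have := hl1 k
      omega
    calc ∑ r ∈ range (l k + 1), ∑ b ∈ Ico (2 ^ k) (2 * 2 ^ k), gf2 (GP t r) (zc t) * rho t r *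
            gf2 (NP t (b + s + 1 - r) (b - r) (l k - r)) (zc t)
        ≤ ∑ r ∈ range (l k + 1), (zc t : ℝ≥0∞)⁻¹ * (zc t : ℝ≥0∞)⁻¹ *
            (gf2 (GP t r) (zc t) * rho t r + 2 * ((∑ i ∈ range (2 * 2 ^ k), (be t (zc t) i) ^ 2) *
              (gf2 (GP t r) (zc t) * rho t r * ∑' j, gf2 (IP t (l k - r + j)) (zc t)))) := by
          refine Finset.sum_le_sum fun r hr => ?_
          rw [← Finset.mul_sum]
          refine (mul_le_mul' le_rfl (JSumC_r (t := t) s (2 ^ k) r (l k - r) (hlH r hr))).trans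
            (le_of_eq ?_)
          ring
      _ = (zc t : ℝ≥0∞)⁻¹ * (zc t : ℝ≥0∞)⁻¹ * (∑ r ∈ range (l k + 1), gf2 (GP t r) (zc t) * rho t r +
            2 * ((∑ i ∈ range (2 * 2 ^ k), (be t (zc t) i) ^ 2) *
              ∑ r ∈ range (l k + 1), gf2 (GP t r) (zc t) * rho t r *
                ∑' j, gf2 (IP t (l k - r + j)) (zc t))) := by
          rw [← Finset.mul_sum, Finset.sum_add_distrib, ← Finset.mul_sum, ← Finset.mul_sum]
      _ ≤ (zc t : ℝ≥0∞)⁻¹ * (zc t : ℝ≥0∞)⁻¹ * (ENNReal.ofReal (12 * ((k : ℝ) + 1)) +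
            2 * ENNReal.ofReal (96 * ((k : ℝ) + 1))) :=
          mul_le_mul' le_rfl (add_le_add (hl3 k) (mul_le_mul' le_rfl (hl2 k)))
      _ = ENNReal.ofReal (204 * ((zc t : ℝ)⁻¹ * (zc t : ℝ)⁻¹) * ((k : ℝ) + 1)) := by
          have hk : (0 : ℝ) ≤ (k : ℝ) + 1 := by positivity
          rw [JSumC_inv, show (2 : ℝ≥0∞) = ENNReal.ofReal 2 by simp, ← ENNReal.ofReal_mul hZ.le,
            ← ENNReal.ofReal_mul (by norm_num : (0 : ℝ) ≤ 2),
            ← ENNReal.ofReal_add (by positivity) (by positivity),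
            ← ENNReal.ofReal_mul (by positivity)]
          congr 1
          ring

end Pool.Agent.ZCS
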