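import Pool.Agent.ZCS.HWs
import Pool.Agent.ZCS.Chain
import Pool.Agent.ZCS.Amgm
import Pool.Agent.ZCS.ERec
import Pool.Agent.ZCS.JSumC
import Pool.Agent.ZCS.GronL

/-!
Module MainC: the masses of the strict half-plane walks below the critical point.

PAPER PROOF. `n`, `C` from `J_sum`, `y = 1 - ε`, `S j = ⨆ k, (OE t n y k).2 j`, `Z = (zc t)⁻¹`. By `gf_WB_le_inv`, `be_le_one`:
`∑ d < j, y ^ d * gf (WB t d) <= Z / ε`. `e_sup` and `gronL` (with `K = 1 + Z / ε`): `S j <= K * exp (C1 √(ℓ / ε)) =: M`, `ℓ = 1 + log (1 / ε)`.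
`hw_chain` with `k = m`, `chain_repl` with `φ = 1` (`HD` is trivial) and `amgm` with `lam = 1`:
`2 * gf (HT t m) (y * zc t) <= 2 + ∑ d ≤ m, y ^ d * (sm t d ((OE m).1 d) + gf (WB t d) * (OE m).2 d)
  <= 1 + (OE (m + 1)).2 (m + 1) + (Z / ε) * M <= (1 + K) * M + 1`, and `K`, `1 + K <= exp (C' √(ℓ / ε))` (`√(ℓ / ε) >= 1 / √ε =: x >= 1`,
`1 + Z / ε = 1 + Z x ^ 2 <= exp (C' x)`). Compare ZHW/Main.
-/

namespace Pool.Agent.ZCS

open Pool.Agent.SHP Pool.Agent.ZHW Finset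
open scoped ENNReal NNReal

private theorem MainC_geom {ε : ℝ} (h0 : 0 < ε) (h1 : ε ≤ 1 / 2) (m : ℕ) :
    ∑ d ∈ range m, (1 - ε) ^ d ≤ 1 / ε := by
  have h3 := mul_neg_geom_sum (1 - ε) m
  have h4 : ε * ∑ d ∈ range m, (1 - ε) ^ d ≤ 1 := by
    have h5 : (1 - (1 - ε)) * ∑ d ∈ range m, (1 - ε) ^ d = 1 - (1 - ε) ^ m := h3
    have h6 : 0 ≤ (1 - ε) ^ m := pow_nonneg (by linarith) m
    have h7 : (1 - (1 - ε)) = ε := by ring
    rw [h7] at h5
    linarith
  rw [le_div_iff₀ h0]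
  linarith

private theorem MainC_exp {Z ε : ℝ} (hZ : 0 ≤ Z) (h0 : 0 < ε) (h1 : ε ≤ 1 / 2) :
    1 + Z / ε ≤ Real.exp ((1 + Z) * Real.sqrt ((1 + Real.log (1 / ε)) / ε)) := by
  set w := Real.sqrt ((1 + Real.log (1 / ε)) / ε) with hw
  have hlog : 0 ≤ Real.log (1 / ε) := by
    apply Real.log_nonneg
    rw [le_div_iff₀ h0]
    linarith
  have hw0 : 0 ≤ w := Real.sqrt_nonneg _
  have hw2 : 1 / ε ≤ w ^ 2 := by
    rw [hw, Real.sq_sqrt (by positivity)]
    exact div_le_div_of_nonneg_right (by linarith) h0.le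
  have hw1 : 1 ≤ w := by
    have h2 : (1 : ℝ) ≤ 1 / ε := by
      rw [le_div_iff₀ h0]
      linarith
    nlinarith
  have h3 : 1 + (1 + Z) * w + ((1 + Z) * w) ^ 2 / 2 ≤ Real.exp ((1 + Z) * w) :=
    Real.quadratic_le_exp_of_nonneg (by positivity)
  refine le_trans ?_ h3
  have h4 : Z / ε ≤ Z * w ^ 2 := by
    rw [div_eq_mul_one_div]
    exact mul_le_mul_of_nonneg_left hw2 hZ
  have h5 : Z * w ^ 2 ≤ ((1 + Z) * w) ^ 2 / 2 := by
    have : 0 ≤ (1 + Z ^ 2) * w ^ 2 := by positivity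
    nlinarith
  have h6 : 0 ≤ (1 + Z) * w := by positivity
  linarith

theorem main_S (t : Bool) : ∃ C : ℝ, 0 < C ∧ ∀ ε : ℝ, 0 < ε → ε ≤ 1 / 2 → ∀ m : ℕ,
    gf (HT t m) (Real.toNNReal (1 - ε) * zc t) ≤
      ENNReal.ofReal (Real.exp (C * Real.sqrt ((1 + Real.log (1 / ε)) / ε))) := by
  obtain ⟨n, hn, C0, hC0, hJ0, hJk⟩ := J_sum t
  obtain ⟨C1, hC1, hg⟩ := gronL C0 hC0.le
  have hz0 : (0 : ℝ) < (zc t : ℝ) := by exact_mod_cast zc_pos t
  set Z : ℝ := (zc t : ℝ)⁻¹ with hZ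
  have hZ0 : 0 < Z := inv_pos.2 hz0
  have hZE : (zc t : ℝ≥0∞)⁻¹ = ENNReal.ofReal Z := by
    rw [hZ, ENNReal.ofReal_inv_of_pos hz0, ENNReal.ofReal_coe_nnreal]
  refine ⟨C1 + 2 * (1 + Z), by linarith, ?_⟩
  intro ε hε hε2 m
  set y : ℝ≥0 := Real.toNNReal (1 - ε) with hy
  have hy1 : y ≤ 1 := by
    rw [hy, Real.toNNReal_le_one]
    linarith
  have hyE : (y : ℝ≥0∞) = ENNReal.ofReal (1 - ε) := rfl
  set w : ℝ := Real.sqrt ((1 + Real.log (1 / ε)) / ε) with hw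
  have hK0 : ∀ j : ℕ, ∑ d ∈ range j, (y : ℝ≥0∞) ^ d * gf (WB t d) (zc t) ≤ ENNReal.ofReal (Z / ε) := by
    intro j
    have h1 : ∀ d ∈ range j, (y : ℝ≥0∞) ^ d * gf (WB t d) (zc t) ≤ ENNReal.ofReal (Z * (1 - ε) ^ d) := by
      intro d _
      have h2 : gf (WB t d) (zc t) ≤ ENNReal.ofReal Z := by
        refine (gf_WB_le_inv (t := t) d).trans ?_
        rw [hZE]
        calc ENNReal.ofReal Z * be t (zc t) (d + 1) ≤ ENNReal.ofReal Z * 1 := by
              gcongr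
              exact be_le_one (d + 1)
          _ = ENNReal.ofReal Z := mul_one _
      rw [ENNReal.ofReal_mul hZ0.le, ENNReal.ofReal_pow (by linarith), ← hyE, mul_comm]
      gcongr
    refine (Finset.sum_le_sum h1).trans ?_
    rw [← ENNReal.ofReal_sum_of_nonneg]
    · apply ENNReal.ofReal_le_ofReal
      rw [← Finset.mul_sum, div_eq_mul_one_div]
      exact mul_le_mul_of_nonneg_left (MainC_geom hε hε2 j) hZ0.le
    · intro d _
      exact mul_nonneg hZ0.le (pow_nonneg (by linarith) _)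
  set K : ℝ≥0∞ := 1 + ENNReal.ofReal (Z / ε) with hK
  set S : ℕ → ℝ≥0∞ := fun j => ⨆ k, (OE t n y k).2 j with hS
  have hrec : ∀ j : ℕ, S j ≤ K + ∑ a ∈ range (j + 1), ∑ b ∈ range a,
      J t n a b * ENNReal.ofReal (1 - ε) ^ (a + b) * S b := by
    intro j
    refine (e_sup (t := t) n (y : ℝ≥0∞) j).trans ?_
    rw [← hyE]
    exact add_le_add (add_le_add le_rfl (hK0 j)) le_rfl
  have hM := hg ε hε hε2 K (J t n) hJ0 hJk S hrec
  set M : ℝ≥0∞ := K * ENNReal.ofReal (Real.exp (C1 * w)) with hMd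
  -- the chain
  have h1 := hw_chain (t := t) n hy1 m m le_rfl
  have h2 : ∀ d ∈ range (m + 1), 2 * ((y : ℝ≥0∞) ^ d * sm t d (V t n y m d)) ≤
      (y : ℝ≥0∞) ^ d * sm t d ((OE t n y m).1 d) + (y : ℝ≥0∞) ^ d * gf (WB t d) (zc t) * M := by
    intro d _
    have e1 : sm t d (V t n y m d) = sm t d (Vh t n y m d) := by
      have := chain_repl (t := t) hn (y : ℝ≥0∞) m d (fun _ => 1) (fun r _ C _ C' _ B _ => rfl)
      simpa using this
    have e2 : 2 * sm t d (Vh t n y m d) ≤ sm t d ((OE t n y m).1 d) + gf (WB t d) (zc t) * (OE t n y m).2 d := by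
      calc 2 * sm t d (Vh t n y m d) = sm t d (fun X => 2 * Vh t n y m d X) := (sm_const_mul d 2 _).symm
        _ ≤ sm t d (fun X => (OE t n y m).1 d X + (OE t n y m).2 d * 1) := by
            apply sm_mono
            intro l _
            have := amgm (t := t) n (y : ℝ≥0∞) m d l 1 one_ne_zero ENNReal.one_ne_top
            simpa using this
        _ = sm t d (fun X => (OE t n y m).1 d X) + sm t d (fun _ => (OE t n y m).2 d * 1) := sm_add d _ _
        _ = sm t d ((OE t n y m).1 d) + gf (WB t d) (zc t) * (OE t n y m).2 d := by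
            rw [sm_const_mul, sm_one, mul_comm (gf (WB t d) (zc t))]
    have e3 : (OE t n y m).2 d ≤ M := (le_iSup (fun k => (OE t n y k).2 d) m).trans (hM d)
    calc 2 * ((y : ℝ≥0∞) ^ d * sm t d (V t n y m d)) = (y : ℝ≥0∞) ^ d * (2 * sm t d (Vh t n y m d)) := by
          rw [e1]
          ring
      _ ≤ (y : ℝ≥0∞) ^ d * (sm t d ((OE t n y m).1 d) + gf (WB t d) (zc t) * (OE t n y m).2 d) := by
          gcongr
      _ ≤ (y : ℝ≥0∞) ^ d * (sm t d ((OE t n y m).1 d) + gf (WB t d) (zc t) * M) := by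
          gcongr
      _ = _ := by ring
  have h3 : 2 * gf (HT t m) (y * zc t) ≤ 1 + K * M := by
    calc 2 * gf (HT t m) (y * zc t)
        ≤ 2 * (1 + ∑ d ∈ range (m + 1), (y : ℝ≥0∞) ^ d * sm t d (V t n y m d)) := by gcongr
      _ = 2 + ∑ d ∈ range (m + 1), 2 * ((y : ℝ≥0∞) ^ d * sm t d (V t n y m d)) := by
          rw [mul_add, mul_one, Finset.mul_sum]
      _ ≤ 2 + ∑ d ∈ range (m + 1), ((y : ℝ≥0∞) ^ d * sm t d ((OE t n y m).1 d) +
            (y : ℝ≥0∞) ^ d * gf (WB t d) (zc t) * M) := by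
          gcongr with d hd
          exact h2 d hd
      _ = 1 + (1 + ∑ d ∈ range (m + 1), (y : ℝ≥0∞) ^ d * sm t d ((OE t n y m).1 d)) +
            (∑ d ∈ range (m + 1), (y : ℝ≥0∞) ^ d * gf (WB t d) (zc t)) * M := by
          rw [Finset.sum_add_distrib, Finset.sum_mul]
          ring
      _ ≤ 1 + M + ENNReal.ofReal (Z / ε) * M := by
          have e4 : 1 + ∑ d ∈ range (m + 1), (y : ℝ≥0∞) ^ d * sm t d ((OE t n y m).1 d) ≤ M := by
            have e5 : (OE t n y (m + 1)).2 (m + 1) ≤ M :=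
              (le_iSup (fun k => (OE t n y k).2 (m + 1)) (m + 1)).trans (hM (m + 1))
            exact e5
          have e6 := hK0 (m + 1)
          gcongr
      _ = 1 + K * M := by
          rw [hK]
          ring
  have hKE : K = ENNReal.ofReal (1 + Z / ε) := by
    rw [hK, ENNReal.ofReal_add zero_le_one (by positivity), ENNReal.ofReal_one]
  have hKM : K * M = ENNReal.ofReal ((1 + Z / ε) * ((1 + Z / ε) * Real.exp (C1 * w))) := by
    rw [hMd, hKE, ← ENNReal.ofReal_mul (by positivity), ← ENNReal.ofReal_mul (by positivity)]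
  have h4 : (1 : ℝ≥0∞) ≤ K * M := by
    rw [hKM, ← ENNReal.ofReal_one]
    apply ENNReal.ofReal_le_ofReal
    have e1 : 1 ≤ 1 + Z / ε := by
      have : 0 ≤ Z / ε := by positivity
      linarith
    have e2 : 1 ≤ Real.exp (C1 * w) := Real.one_le_exp (by positivity)
    have e3 : 1 ≤ (1 + Z / ε) * Real.exp (C1 * w) := one_le_mul_of_one_le_of_one_le e1 e2
    exact one_le_mul_of_one_le_of_one_le e1 e3
  have h5 : 2 * gf (HT t m) (y * zc t) ≤ 2 * (K * M) := by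
    refine h3.trans ?_
    rw [two_mul (K * M)]
    exact add_le_add h4 le_rfl
  have h6 : gf (HT t m) (y * zc t) ≤ K * M :=
    (ENNReal.mul_le_mul_iff_right (by norm_num) (by norm_num)).1 h5
  refine h6.trans ?_
  rw [hKM]
  apply ENNReal.ofReal_le_ofReal
  have h7 := MainC_exp hZ0.le hε hε2
  rw [← hw] at h7
  have h8 : Real.exp ((C1 + 2 * (1 + Z)) * w) =
      Real.exp ((1 + Z) * w) * (Real.exp ((1 + Z) * w) * Real.exp (C1 * w)) := by
    rw [← Real.exp_add, ← Real.exp_add]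
    congr 1
    ring
  rw [h8]
  have h9 : 0 ≤ 1 + Z / ε := by positivity
  gcongr

end Pool.Agent.ZCS
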