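import Pool.Agent.ZCS.Defs
import Pool.Agent.ZHW.Basic

/-!
Module PDec: all pairs of weak bridges, decomposed at the farthest common renewal level `<= n` (an equality).

PAPER PROOF. Both sides are sums over pairs. The map `(r, a, b) ↦ (a.1 ++ b.1, a.2 ++ b.2)` from the disjoint union over
`r ≤ n` of `CC t r × NP t (h' - r) (h - r) (n - r)` to `WB t h' × WB t h` is a bijection: `CB_WB_append` (with `r + (h - r) = h`,
`r ≤ n ≤ h ≤ h'`); the farthest common renewal level `<= n` of the image is `r` (`Rn_append`, as in `cr_app` of the module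
CrA), so `r` is determined by the pair, then `a`, `b` by `Rn_unique`; every pair `(P, Q)` is in the image: take the greatest
`r <= n` with `Rn t r P ∧ Rn t r Q` (`r = 0` is one: `CB_zero`, `Ri`), `P = u ++ v`, `Q = u' ++ v'`, `WB_split`, and `NC t (n - r) (v, v')` by
`Rn_append`. The weights multiply. (Technique: `Equiv.ofBijective` from a sigma type, `ENNReal.tsum_sigma'`, `ENNReal.tsum_prod'`,
or an indicator decomposition of `Wd × Wd`; compare JDec and ArcRec in ZHW.)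
-/

namespace Pool.Agent.ZCS

open Pool.Agent.SHP Pool.Agent.ZHW Finset
open scoped ENNReal NNReal

variable {t : Bool}

private theorem PDec_Rn_zero {P : Wd} (hP : Ri P) : Rn t 0 P :=
  ⟨[], P, rfl, by rw [CB_zero]; rfl, hP⟩

private theorem PDec_lt {n h h' r r' : ℕ} (hr' : r' ≤ n) {a b a' b' : Wd × Wd} (ha : a ∈ CC t r)
    (hb : b ∈ NP t (h' - r) (h - r) (n - r)) (ha' : a' ∈ CC t r') (hb' : b' ∈ NP t (h' - r') (h - r') (n - r'))
    (h1 : a.1 ++ b.1 = a'.1 ++ b'.1) (h2 : a.2 ++ b.2 = a'.2 ++ b'.2) : ¬ r < r' := by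
  intro hlt
  have e : r' = r + (r' - r) := by omega
  have g1 : Rn t (r + (r' - r)) (a.1 ++ b.1) := by
    rw [← e, h1]
    exact ⟨a'.1, b'.1, rfl, ha'.1, hb'.1.2.1⟩
  have g2 : Rn t (r + (r' - r)) (a.2 ++ b.2) := by
    rw [← e, h2]
    exact ⟨a'.2, b'.2, rfl, ha'.2, hb'.2.1.2.1⟩
  exact hb.2.2 (r' - r) (by omega) (by omega)
    ⟨(Rn_append ha.1 hb.1.2.1).1 g1, (Rn_append ha.2 hb.2.1.2.1).1 g2⟩

theorem pair_dec {n h h' : ℕ} (hn : n ≤ h) (hh : h ≤ h') (F : Wd → Wd → ℝ≥0∞) :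
    sm t h' (fun P => sm t h (fun Q => F P Q)) =
      ∑ r ∈ range (n + 1), sp t (CC t r) (fun a => sp t (NP t (h' - r) (h - r) (n - r))
        (fun b => F (a.1 ++ b.1) (a.2 ++ b.2))) := by
  classical
  let S : Type := Σ r : Fin (n + 1), (CC t (r : ℕ) × NP t (h' - r) (h - r) (n - r))
  have hmem : ∀ x : S, (x.2.1 : Wd × Wd).1 ++ (x.2.2 : Wd × Wd).1 ∈ WB t h' ∧
      (x.2.1 : Wd × Wd).2 ++ (x.2.2 : Wd × Wd).2 ∈ WB t h := by
    rintro ⟨r, a, b⟩
    have hr : (r : ℕ) ≤ n := by have := r.2; omega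
    have e1 : (r : ℕ) + (h' - r) = h' := by omega
    have e2 : (r : ℕ) + (h - r) = h := by omega
    have g1 := CB_WB_append a.2.1 b.2.1
    have g2 := CB_WB_append a.2.2 b.2.2.1
    rw [e1] at g1
    rw [e2] at g2
    exact ⟨g1, g2⟩
  let f : S → WB t h' × WB t h := fun x => (⟨_, (hmem x).1⟩, ⟨_, (hmem x).2⟩)
  have hf : Function.Bijective f := by
    constructor
    · rintro ⟨r, a, b⟩ ⟨r', a', b'⟩ he
      have h1 : (a : Wd × Wd).1 ++ (b : Wd × Wd).1 = (a' : Wd × Wd).1 ++ (b' : Wd × Wd).1 :=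
        congrArg (fun x => (x.1 : Wd)) he
      have h2 : (a : Wd × Wd).2 ++ (b : Wd × Wd).2 = (a' : Wd × Wd).2 ++ (b' : Wd × Wd).2 :=
        congrArg (fun x => (x.2 : Wd)) he
      have hr : (r : ℕ) ≤ n := by have := r.2; omega
      have hr' : (r' : ℕ) ≤ n := by have := r'.2; omega
      have k1 := PDec_lt hr' a.2 b.2 a'.2 b'.2 h1 h2
      have k2 := PDec_lt hr a'.2 b'.2 a.2 b.2 h1.symm h2.symm
      have hrr : r = r' := Fin.ext (by omega)
      subst hrr
      obtain ⟨x1, y1⟩ := Rn_unique h1 a.2.1 a'.2.1 b.2.1.2.1 b'.2.1.2.1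
      obtain ⟨x2, y2⟩ := Rn_unique h2 a.2.2 a'.2.2 b.2.2.1.2.1 b'.2.2.1.2.1
      have ea : a = a' := Subtype.ext (Prod.ext x1 x2)
      have eb : b = b' := Subtype.ext (Prod.ext y1 y2)
      rw [ea, eb]
    · rintro ⟨⟨P, hP⟩, ⟨Q, hQ⟩⟩
      let p : ℕ → Prop := fun i => Rn t i P ∧ Rn t i Q
      have h0 : p 0 := ⟨PDec_Rn_zero hP.2.1, PDec_Rn_zero hQ.2.1⟩
      have hsp : p (Nat.findGreatest p n) := Nat.findGreatest_spec (Nat.zero_le n) h0
      have hle : Nat.findGreatest p n ≤ n := Nat.findGreatest_le n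
      have hgr : ∀ k, Nat.findGreatest p n < k → k ≤ n → ¬ p k := fun k hk hk' =>
        Nat.findGreatest_is_greatest hk hk'
      generalize Nat.findGreatest p n = r at hsp hle hgr
      obtain ⟨⟨u, v, e1, hu, hv⟩, ⟨u', v', e2, hu', hv'⟩⟩ := hsp
      have w1 := (WB_split hP e1 hu hv).2
      have w2 := (WB_split hQ e2 hu' hv').2
      have hnc : NC t (n - r) (v, v') := by
        intro i hi hin hc
        refine hgr (r + i) (by omega) (by omega) ⟨?_, ?_⟩
        · rw [e1]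
          exact (Rn_append hu hv).2 hc.1
        · rw [e2]
          exact (Rn_append hu' hv').2 hc.2
      refine ⟨⟨⟨r, by omega⟩, ⟨(u, u'), hu, hu'⟩, ⟨(v, v'), w1, w2, hnc⟩⟩, ?_⟩
      exact Prod.ext (Subtype.ext e1.symm) (Subtype.ext e2.symm)
  have h1 : sm t h' (fun P => sm t h (fun Q => F P Q)) =
      ∑' p : WB t h' × WB t h, (zc t : ℝ≥0∞) ^ ((p.1 : Wd).length + (p.2 : Wd).length) * F p.1 p.2 := by
    unfold sm
    rw [ENNReal.tsum_prod (f := fun (P : WB t h') (Q : WB t h) =>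
      (zc t : ℝ≥0∞) ^ ((P : Wd).length + (Q : Wd).length) * F P Q)]
    refine tsum_congr fun P => ?_
    rw [← ENNReal.tsum_mul_left]
    refine tsum_congr fun Q => ?_
    rw [pow_add, mul_assoc]
  have h2 : (∑ r ∈ range (n + 1), sp t (CC t r) (fun a => sp t (NP t (h' - r) (h - r) (n - r))
        (fun b => F (a.1 ++ b.1) (a.2 ++ b.2)))) =
      ∑' x : S, (zc t : ℝ≥0∞) ^ (((f x).1 : Wd).length + ((f x).2 : Wd).length) * F (f x).1 (f x).2 := by
    rw [ENNReal.tsum_sigma', tsum_fintype, Finset.sum_range]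
    refine Finset.sum_congr rfl fun r _ => ?_
    unfold sp
    rw [ENNReal.tsum_prod']
    refine tsum_congr fun a => ?_
    rw [← ENNReal.tsum_mul_left]
    refine tsum_congr fun b => ?_
    have e : ((f ⟨r, a, b⟩).1 : Wd).length + ((f ⟨r, a, b⟩).2 : Wd).length =
        ((a : Wd × Wd).1.length + (a : Wd × Wd).2.length) + ((b : Wd × Wd).1.length + (b : Wd × Wd).2.length) := by
      simp only [f, List.length_append]
      ring
    rw [e, ← mul_assoc, ← pow_add]
  rw [h1, h2]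
  exact ((Equiv.ofBijective f hf).tsum_eq
    (fun p : WB t h' × WB t h => (zc t : ℝ≥0∞) ^ ((p.1 : Wd).length + (p.2 : Wd).length) * F p.1 p.2)).symm

end Pool.Agent.ZCS
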