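import Pool.Agent.ZCS.Defs
import Pool.Agent.ZHW.Ren
import Pool.Agent.ZHW.Flip

/-!
Module RenGe: the renewal equation for pairs of cobridges.

PAPER PROOF. `ren_ge`: `(be t z (r + 1)) ^ 2` is the mass of `CB t (r + 1) × CB t (r + 1)` (`gf2_prod`, `gf_CB`). For such a pair
`(P, Q)` let `i + 1 <= r + 1` be the smallest common renewal level `>= 1` (`r + 1` is one, `Rn_self`): `P = u ++ v`, `Q = u' ++ v'`,
`(u, u') ∈ IP t i`, `v, v' ∈ CB t (r - i)` (proof as `ArcRec_block` in ZHW/ArcRec without the sign condition); injective, the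
lengths add. `ren_eq`: with `ren_ineq` (ZHW/Ren).
-/

namespace Pool.Agent.ZCS

open Pool.Agent.SHP Pool.Agent.ZHW Finset
open scoped ENNReal NNReal

variable {t : Bool}

/-- The first block. -/
private theorem RenGe_block {r : ℕ} {p : Wd × Wd} (hp : p ∈ CB t (r + 1) ×ˢ CB t (r + 1)) :
    ∃ i : ℕ, ∃ u v u' v' : Wd, i < r + 1 ∧ p = (u ++ v, u' ++ v') ∧ (u, u') ∈ IP t i ∧
      (v, v') ∈ CB t (r - i) ×ˢ CB t (r - i) := by
  classical
  obtain ⟨P, Q⟩ := p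
  obtain ⟨hP, hQ⟩ := hp
  have hex : ∃ j : ℕ, 1 ≤ j ∧ Rn t j P ∧ Rn t j Q :=
    ⟨r + 1, by omega, Rn_self hP, Rn_self hQ⟩
  have hle : Nat.find hex ≤ r + 1 := Nat.find_min' hex ⟨by omega, Rn_self hP, Rn_self hQ⟩
  obtain ⟨h1, hRP, hRQ⟩ := Nat.find_spec hex
  have hmin : ∀ m : ℕ, m < Nat.find hex → ¬ (1 ≤ m ∧ Rn t m P ∧ Rn t m Q) :=
    fun m hm => Nat.find_min hex hm
  generalize Nat.find hex = j at hle h1 hRP hRQ hmin
  obtain ⟨i, rfl⟩ : ∃ i, j = i + 1 := ⟨j - 1, by omega⟩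
  obtain ⟨u, v, hPe, hu, hv⟩ := hRP
  obtain ⟨u', v', hQe, hu', hv'⟩ := hRQ
  obtain ⟨-, hvC⟩ := CB_split hP hPe hu hv
  obtain ⟨-, hvC'⟩ := CB_split hQ hQe hu' hv'
  have hri : r + 1 - (i + 1) = r - i := by omega
  rw [hri] at hvC hvC'
  have key : ∀ (k : ℕ) (w w₂ L : Wd), 1 ≤ k → k ≤ i → L = w ++ w₂ → w ∈ CB t (i + 1) → Ri w₂ →
      Rn t k w → Rn t k L := by
    rintro k w w₂ L hk hki hL hw hw₂ ⟨a, b, hab, ha, hb⟩
    obtain ⟨-, hbC⟩ := CB_split hw hab ha hb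
    exact ⟨a, b ++ w₂, by rw [hL, hab, List.append_assoc], ha, Ri_append hbC hw₂⟩
  refine ⟨i, u, v, u', v', by omega, ?_, ⟨hu, hu', ?_⟩, hvC, hvC'⟩
  · rw [hPe, hQe]
  · intro k hk hki hboth
    exact hmin k (by omega) ⟨hk, key k u v P hk hki hPe hu hv hboth.1,
      key k u' v' Q hk hki hQe hu' hv' hboth.2⟩

private theorem RenGe_ind (A : Set (Wd × Wd)) (z : ℝ≥0) :
    gf2 A z = ∑' p : Wd × Wd, A.indicator (fun q => (z : ℝ≥0∞) ^ (q.1.length + q.2.length)) p :=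
  tsum_subtype A (fun q : Wd × Wd => (z : ℝ≥0∞) ^ (q.1.length + q.2.length))

theorem ren_ge (z : ℝ≥0) (r : ℕ) :
    (be t z (r + 1)) ^ 2 ≤ ∑ i ∈ range (r + 1), gf2 (IP t i) z * (be t z (r - i)) ^ 2 := by
  classical
  have hsq : ∀ d : ℕ, (be t z d) ^ 2 = gf2 (CB t d ×ˢ CB t d) z := fun d => by
    rw [gf2_prod, gf_CB, sq]
  have hch : ∀ p : (CB t (r + 1) ×ˢ CB t (r + 1) : Set (Wd × Wd)),
      ∃ y : ℕ × (Wd × Wd) × (Wd × Wd),
      y.1 < r + 1 ∧ y.2.1 ∈ IP t y.1 ∧ y.2.2 ∈ CB t (r - y.1) ×ˢ CB t (r - y.1) ∧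
      (p : Wd × Wd) = (y.2.1.1 ++ y.2.2.1, y.2.1.2 ++ y.2.2.2) := by
    rintro ⟨p, hp⟩
    obtain ⟨i, u, v, u', v', hi, hpe, hI, hA⟩ := RenGe_block hp
    exact ⟨(i, (u, u'), (v, v')), hi, hI, hA, hpe⟩
  choose f hf1 hf2 hf3 hf4 using hch
  have hinj : Function.Injective f := by
    intro p q hpq
    apply Subtype.ext
    rw [hf4 p, hf4 q, hpq]
  let W : Wd × Wd → ℝ≥0∞ := fun q => (z : ℝ≥0∞) ^ (q.1.length + q.2.length)
  let F : ℕ × (Wd × Wd) × (Wd × Wd) → ℝ≥0∞ := fun y =>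
    if y.1 < r + 1 then
      (IP t y.1).indicator W y.2.1 * (CB t (r - y.1) ×ˢ CB t (r - y.1)).indicator W y.2.2
    else 0
  have h1 : gf2 (CB t (r + 1) ×ˢ CB t (r + 1)) z =
      ∑' p : (CB t (r + 1) ×ˢ CB t (r + 1) : Set (Wd × Wd)), F (f p) := by
    unfold gf2
    refine tsum_congr fun p => ?_
    show _ = (if (f p).1 < r + 1 then _ else 0)
    rw [if_pos (hf1 p), Set.indicator_of_mem (hf2 p), Set.indicator_of_mem (hf3 p)]
    show (z : ℝ≥0∞) ^ ((p : Wd × Wd).1.length + (p : Wd × Wd).2.length) =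
      (z : ℝ≥0∞) ^ ((f p).2.1.1.length + (f p).2.1.2.length) *
      (z : ℝ≥0∞) ^ ((f p).2.2.1.length + (f p).2.2.2.length)
    have ha : (p : Wd × Wd).1.length = (f p).2.1.1.length + (f p).2.2.1.length := by
      rw [hf4 p]
      exact List.length_append
    have hb : (p : Wd × Wd).2.length = (f p).2.1.2.length + (f p).2.2.2.length := by
      rw [hf4 p]
      exact List.length_append
    rw [ha, hb, ← pow_add]
    congr 1
    omega
  rw [hsq, h1]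
  refine le_trans (ENNReal.tsum_comp_le_tsum_of_injective hinj F) ?_
  rw [ENNReal.tsum_prod']
  have h2 : ∀ i : ℕ, ∑' w : (Wd × Wd) × (Wd × Wd), F (i, w) =
      if i < r + 1 then gf2 (IP t i) z * (be t z (r - i)) ^ 2 else 0 := by
    intro i
    by_cases hi : i < r + 1
    · rw [if_pos hi, ENNReal.tsum_prod', hsq, RenGe_ind (IP t i) z,
        RenGe_ind (CB t (r - i) ×ˢ CB t (r - i)) z, ← ENNReal.tsum_mul_right]
      refine tsum_congr fun a => ?_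
      rw [← ENNReal.tsum_mul_left]
      refine tsum_congr fun b => ?_
      show (if i < r + 1 then _ else 0) = _
      rw [if_pos hi]
    · rw [if_neg hi]
      refine ENNReal.tsum_eq_zero.2 fun c => ?_
      show (if i < r + 1 then _ else 0) = _
      rw [if_neg hi]
  rw [tsum_congr h2, tsum_eq_sum (s := range (r + 1))]
  · refine le_of_eq (Finset.sum_congr rfl fun i hi => ?_)
    rw [if_pos (mem_range.1 hi)]
  · intro i hi
    rw [if_neg (fun h => hi (mem_range.2 h))]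

theorem ren_eq (z : ℝ≥0) (r : ℕ) :
    (be t z (r + 1)) ^ 2 = ∑ i ∈ range (r + 1), gf2 (IP t i) z * (be t z (r - i)) ^ 2 :=
  le_antisymm (ren_ge z r) (ren_ineq z r)

end Pool.Agent.ZCS
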