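import Pool.Agent.ZCS.Defs
import Pool.Agent.ZHW.Basic

/-!
Module Tail: renewal levels are not changed by what is glued behind.

PAPER PROOF. `Rn_tail`: `Z ++ W = u ++ v`. If `u = Z ++ w`, `W = w ++ v`, `w <> []`, then `u.sum.1 = a + w.sum.1 > a >= i`
(`w` is a nonempty prefix of the half-plane walk `W ∈ BT t r`: `h.1.1.2`), contradiction with `u.sum.1 = i`; so `Z = u ++ v0`,
`v = v0 ++ W`, and prefixes of `v0` are prefixes of `v`. `Ri_tail`: prefixes of `v0 ++ W` are prefixes of `v0` or `v0 ++ w`, `w` a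
prefix of `W`, `v0.sum.1 = a - i >= 0`, `w.sum.1 >= 0`. (`BT t r`: `(hb, hs)`, `hb.1.2 : ∀ u v, W = u ++ v → u ≠ [] → 0 < u.sum.1`,
see `BT_WB` in ZHW/Basic.) The others follow: `PosN` and `Rn` at the levels `i <= n <= a`.
-/

set_option linter.all false

namespace Pool.Agent.ZCS

open Pool.Agent.SHP Pool.Agent.ZHW Finset
open scoped ENNReal NNReal

variable {t : Bool}

theorem Rn_tail {a r i : ℕ} {Z W u v : Wd} (hZ : Z ∈ WB t a) (hW : W ∈ BT t r) (hi : i ≤ a) (h : Z ++ W = u ++ v)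
    (hu : u ∈ CB t i) (hv : Ri v) : ∃ v0 : Wd, Z = u ++ v0 ∧ v = v0 ++ W ∧ Ri v0 := by
  rcases List.append_eq_append_iff.1 h with ⟨w, hw, hw'⟩ | ⟨w, hw, hw'⟩
  · by_cases hwn : w = []
    · subst hwn
      refine ⟨[], ?_, ?_, Ri_nil⟩
      · rw [hw]
        simp
      · rw [List.nil_append]
        rw [List.nil_append] at hw'
        exact hw'.symm
    · exfalso
      have h1 := hW.1.1.2 w v hw' hwn
      have h2 : u.sum.1 = (i : ℤ) := hu.2.2.2
      have h3 : Z.sum.1 = (a : ℤ) := hZ.2.2.2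
      rw [hw, fst_sum_append, h3] at h2
      omega
  · refine ⟨w, hw, hw', fun p q hpq => ?_⟩
    refine hv p (q ++ W) ?_
    rw [hw', hpq, List.append_assoc]

theorem Ri_tail {a r i : ℕ} {Z W u v0 : Wd} (hZ : Z ∈ WB t a) (hW : W ∈ BT t r) (hi : i ≤ a) (h : Z = u ++ v0)
    (hu : u ∈ CB t i) (hv : Ri v0) : Ri (v0 ++ W) := by
  have h2 : u.sum.1 = (i : ℤ) := hu.2.2.2
  have h3 : Z.sum.1 = (a : ℤ) := hZ.2.2.2
  rw [h, fst_sum_append, h2] at h3
  have hRW : Ri W := (BT_WB hW).2.1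
  intro p q hpq
  rcases List.append_eq_append_iff.1 hpq with ⟨w, hw, hw'⟩ | ⟨w, hw, hw'⟩
  · rw [hw, fst_sum_append]
    have := hRW w q hw'
    omega
  · exact hv p w hw

theorem Rn_tail_iff {a r i : ℕ} {Z W : Wd} (hZ : Z ∈ WB t a) (hW : W ∈ BT t r) (hi : i ≤ a) :
    Rn t i (Z ++ W) ↔ Rn t i Z := by
  constructor
  · rintro ⟨u, v, he, hu, hv⟩
    obtain ⟨v0, h0, -, h1⟩ := Rn_tail hZ hW hi he hu hv
    exact ⟨u, v0, h0, hu, h1⟩
  · rintro ⟨u, v0, he, hu, hv⟩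
    refine ⟨u, v0 ++ W, ?_, hu, Ri_tail hZ hW hi he hu hv⟩
    rw [he, List.append_assoc]

private theorem Tail_pos1 {a r n : ℕ} {Z W : Wd} (P : Wd) (hZ : Z ∈ WB t a) (hW : W ∈ BT t r) (hn : n ≤ a) :
    PosN t n P (Z ++ W) ↔ PosN t n P Z := by
  constructor
  · intro h i h1 hi u v u' v' e e' hu hu' hv hv'
    refine h i h1 hi u v u' (v' ++ W) e ?_ hu hu' hv (Ri_tail hZ hW (hi.trans hn) e' hu' hv')
    rw [e', List.append_assoc]
  · intro h i h1 hi u v u' v' e e' hu hu' hv hv'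
    obtain ⟨v0, h0, -, h2⟩ := Rn_tail hZ hW (hi.trans hn) e' hu' hv'
    exact h i h1 hi u v u' v0 e h0 hu hu' hv h2

private theorem Tail_pos2 {a r n : ℕ} {Z W : Wd} (P : Wd) (hZ : Z ∈ WB t a) (hW : W ∈ BT t r) (hn : n ≤ a) :
    PosN t n (Z ++ W) P ↔ PosN t n Z P := by
  constructor
  · intro h i h1 hi u v u' v' e e' hu hu' hv hv'
    refine h i h1 hi u (v ++ W) u' v' ?_ e' hu hu' (Ri_tail hZ hW (hi.trans hn) e hu hv) hv'
    rw [e, List.append_assoc]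
  · intro h i h1 hi u v u' v' e e' hu hu' hv hv'
    obtain ⟨v0, h0, -, h2⟩ := Rn_tail hZ hW (hi.trans hn) e hu hv
    exact h i h1 hi u v0 u' v' h0 e' hu hu' h2 hv'

theorem Sg_tail {a r n : ℕ} {Z W : Wd} (P : Wd) (hZ : Z ∈ WB t a) (hW : W ∈ BT t r) (hn : n ≤ a) :
    Sg t n P (Z ++ W) ↔ Sg t n P Z := by
  unfold Sg
  rw [Tail_pos1 P hZ hW hn, Tail_pos2 P hZ hW hn]

private theorem Tail_fg {p q : ℕ → Prop} (dp : DecidablePred p) (dq : DecidablePred q) :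
    ∀ n : ℕ, (∀ i, i ≤ n → (p i ↔ q i)) → Nat.findGreatest p n = Nat.findGreatest q n := by
  intro n
  induction n with
  | zero => intro _; rfl
  | succ n ih =>
    intro h
    have h1 := ih fun i hi => h i (by omega)
    have h2 := h (n + 1) le_rfl
    by_cases hp : p (n + 1)
    · rw [Nat.findGreatest_eq hp, Nat.findGreatest_eq (h2.1 hp)]
    · rw [Nat.findGreatest_of_not hp, Nat.findGreatest_of_not (fun hq => hp (h2.2 hq)), h1]

theorem cr_tail {a r n : ℕ} {Z W : Wd} (Q : Wd) (hZ : Z ∈ WB t a) (hW : W ∈ BT t r) (hn : n ≤ a) :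
    cr t n (Z ++ W) Q = cr t n Z Q := by
  classical
  unfold cr
  refine Tail_fg _ _ n fun i hi => ?_
  rw [Rn_tail_iff hZ hW (hi.trans hn)]

end Pool.Agent.ZCS
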